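import Pool.Agent.Lib.MP_07903c_al.Spec

/-!
# MP_07903c_al, module Amalg: amalgamation of extension properties
-/

namespace Pool07903c

namespace Amalg

open FreeGroup

variable {Λ : Type}

theorem fr_mono {E : Type} [Fintype E] {P Q : E → Prop} (h : ∀ e, P e → Q e) : fr P ≤ fr Q := by
  classical
  unfold fr
  apply div_le_div_of_nonneg_right _ (Nat.cast_nonneg _)
  apply Finset.sum_le_sum
  intro e _
  by_cases hp : P e
  · simp [hp, h e hp]
  · by_cases hq : Q e <;> simp [hp, hq]

theorem fr_congr {E : Type} [Fintype E] {P Q : E → Prop} (h : ∀ e, P e ↔ Q e) : fr P = fr Q :=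
  le_antisymm (fr_mono fun e => (h e).1) (fr_mono fun e => (h e).2)

theorem fr_equiv {E E' : Type} [Fintype E] [Fintype E'] (φ : E ≃ E') (P : E' → Prop) :
    fr (fun e => P (φ e)) = fr P := by
  classical
  unfold fr
  rw [Fintype.card_congr φ]
  congr 1
  exact Equiv.sum_comp φ (fun e' => if P e' then (1 : ℝ) else 0)

theorem fr_or_le {E : Type} [Fintype E] (P Q : E → Prop) :
    fr (fun e => P e ∨ Q e) ≤ fr P + fr Q := by
  classical
  unfold fr
  rw [← add_div, ← Finset.sum_add_distrib]
  apply div_le_div_of_nonneg_right _ (Nat.cast_nonneg _)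
  apply Finset.sum_le_sum
  intro e _
  by_cases hp : P e <;> by_cases hq : Q e <;> simp [hp, hq]

theorem fr_exists_le {E : Type} [Fintype E] {I : Type} [Fintype I] (P : I → E → Prop) :
    fr (fun e => ∃ i, P i e) ≤ ∑ i, fr (P i) := by
  classical
  unfold fr
  rw [← Finset.sum_div, Finset.sum_comm]
  apply div_le_div_of_nonneg_right _ (Nat.cast_nonneg _)
  apply Finset.sum_le_sum
  intro e _
  by_cases h : ∃ i, P i e
  · obtain ⟨i, hi⟩ := h
    have h1 : (if P i e then (1 : ℝ) else 0) ≤ ∑ j, if P j e then (1 : ℝ) else 0 :=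
      Finset.single_le_sum (f := fun j => if P j e then (1 : ℝ) else 0)
        (fun j _ => by positivity) (Finset.mem_univ i)
    rw [if_pos ⟨i, hi⟩]
    rw [if_pos hi] at h1
    exact h1
  · rw [if_neg h]
    exact Finset.sum_nonneg (fun j _ => by positivity)

theorem fr_fst {E F : Type} [Fintype E] [Fintype F] [Nonempty F] (P : E → Prop) :
    fr (fun e : E × F => P e.1) = fr P := by
  classical
  unfold fr
  rw [Fintype.sum_prod_type]
  have hc : (Fintype.card F : ℝ) ≠ 0 := by
    exact_mod_cast Fintype.card_ne_zero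
  have h1 : (∑ x : E, ∑ _y : F, if P x then (1 : ℝ) else 0)
      = (Fintype.card F : ℝ) * ∑ x : E, if P x then (1 : ℝ) else 0 := by
    rw [Finset.mul_sum]
    apply Finset.sum_congr rfl
    intro x _
    rw [Finset.sum_const, Finset.card_univ, nsmul_eq_mul]
  rw [h1, Fintype.card_prod, Nat.cast_mul, mul_comm (Fintype.card E : ℝ)]
  exact mul_div_mul_left _ _ hc

theorem fr_snd {E F : Type} [Fintype E] [Fintype F] [Nonempty E] (P : F → Prop) :
    fr (fun e : E × F => P e.2) = fr P := by
  rw [← fr_equiv (Equiv.prodComm F E) (fun e : E × F => P e.2)]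
  exact fr_fst P

theorem fr_eval {E I : Type} [Fintype E] [Fintype I] [DecidableEq I] [Nonempty E] (i : I)
    (P : E → Prop) :
    fr (fun e : I → E => P (e i)) = fr P := by
  classical
  rw [← fr_equiv (Equiv.funSplitAt i E).symm (fun e : I → E => P (e i))]
  rw [← fr_fst (F := {j // j ≠ i} → E) P]
  apply fr_congr
  intro e
  simp [Equiv.funSplitAt, Equiv.piSplitAt]

theorem fr_nonneg {E : Type} [Fintype E] (P : E → Prop) : 0 ≤ fr P := by
  classical
  unfold fr
  apply div_nonneg _ (Nat.cast_nonneg _)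
  exact Finset.sum_nonneg (fun j _ => by positivity)

theorem fr_false {E : Type} [Fintype E] {P : E → Prop} (h : ∀ e, ¬ P e) : fr P = 0 := by
  classical
  unfold fr
  simp [h]

/-! ## Words -/

/-- homs agreeing on the letters of `S` agree on the words in `S` -/
theorem hom_congr {G : Type*} [Group G] {f g : FreeGroup Λ →* G} {S : Set Λ}
    (h : ∀ s ∈ S, f (FreeGroup.of s) = g (FreeGroup.of s)) {u : FreeGroup Λ} (hu : u ∈ words S) :
    f u = g u := by
  have : words S ≤ f.eqLocus g := by
    unfold words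
    rw [Subgroup.closure_le]
    rintro _ ⟨s, hs, rfl⟩
    exact h s hs
  exact this hu

theorem ev_of (X : FSet Λ) (a : Λ) : X.ev (FreeGroup.of a) = X.act a := by
  simp [FSet.ev]

/-- product of two permutation representations -/
noncomputable def prodHom (X Y : FSet Λ) : FreeGroup Λ →* Equiv.Perm (X.E × Y.E) where
  toFun u := Equiv.prodCongr (X.ev u) (Y.ev u)
  map_one' := by ext x <;> simp
  map_mul' u v := by ext x <;> simp

theorem prod_ev (X Y : FSet Λ) (u : FreeGroup Λ) : (X.prod Y).ev u = prodHom X Y u := by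
  have : (X.prod Y).ev = prodHom X Y := by
    apply FreeGroup.ext_hom
    intro a
    rw [ev_of]
    show Equiv.prodCongr (X.act a) (Y.act a) = Equiv.prodCongr (X.ev (FreeGroup.of a)) (Y.ev (FreeGroup.of a))
    rw [ev_of, ev_of]
  exact DFunLike.congr_fun this u

/-- power of a permutation representation -/
noncomputable def powHom (X : FSet Λ) (I : Type) : FreeGroup Λ →* Equiv.Perm (I → X.E) where
  toFun u := Equiv.piCongrRight (fun _ => X.ev u)
  map_one' := by ext x; simp
  map_mul' u v := by ext x; simp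

theorem pow_ev (X : FSet Λ) (I : Type) [Fintype I] (u : FreeGroup Λ) :
    (X.pow I).ev u = powHom X I u := by
  have : (X.pow I).ev = powHom X I := by
    apply FreeGroup.ext_hom
    intro a
    rw [ev_of]
    show Equiv.piCongrRight (fun _ : I => X.act a) = Equiv.piCongrRight (fun _ : I => X.ev (FreeGroup.of a))
    rw [ev_of]
  exact DFunLike.congr_fun this u

theorem bad_prod_le (X Y : FSet Λ) (u : FreeGroup Λ) : (X.prod Y).bad u ≤ X.bad u + Y.bad u := by
  have h1 : fr (fun e : X.E × Y.E => prodHom X Y u e ≠ e) ≤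
      fr (fun e : X.E × Y.E => X.ev u e.1 ≠ e.1 ∨ Y.ev u e.2 ≠ e.2) := by
    apply fr_mono
    rintro ⟨a, b⟩ h
    by_contra h2
    push Not at h2
    exact h (Prod.ext h2.1 h2.2)
  have h2 := fr_or_le (fun e : X.E × Y.E => X.ev u e.1 ≠ e.1) (fun e : X.E × Y.E => Y.ev u e.2 ≠ e.2)
  rw [fr_fst (fun e : X.E => X.ev u e ≠ e), fr_snd (fun e : Y.E => Y.ev u e ≠ e)] at h2
  unfold FSet.bad
  rw [prod_ev]
  exact h1.trans h2

theorem bad_pow_le (X : FSet Λ) (I : Type) [Fintype I] (u : FreeGroup Λ) :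
    (X.pow I).bad u ≤ Fintype.card I * X.bad u := by
  classical
  have h1 : fr (fun e : I → X.E => powHom X I u e ≠ e) ≤
      fr (fun e : I → X.E => ∃ i, X.ev u (e i) ≠ e i) := by
    apply fr_mono
    intro e h
    by_contra h2
    push Not at h2
    exact h (funext h2)
  have h2 := fr_exists_le (fun (i : I) (e : I → X.E) => X.ev u (e i) ≠ e i)
  have h3 : ∀ i : I, fr (fun e : I → X.E => X.ev u (e i) ≠ e i) = X.bad u := fun i =>
    fr_eval i (fun e : X.E => X.ev u e ≠ e)
  simp only [h3, Finset.sum_const, Finset.card_univ, nsmul_eq_mul] at h2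
  have h4 : (X.pow I).bad u = fr (fun e : I → X.E => powHom X I u e ≠ e) := by
    unfold FSet.bad
    rw [pow_ev]
    first
      | done
      | (unfold fr; congr 1)
  rw [h4]
  exact h1.trans h2

/-- the trivial action -/
def triv (Λ : Type) (Y : FSet Λ) : FSet Λ where
  E := Y.E
  act _ := 1

theorem bad_triv (Y : FSet Λ) (u : FreeGroup Λ) : (triv Λ Y).bad u = 0 := by
  have h : (triv Λ Y).ev = 1 := by
    apply FreeGroup.ext_hom
    intro a
    rw [ev_of]
    rfl
  unfold FSet.bad
  rw [h]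
  exact fr_false (fun e h => h rfl)

/-- the permutations of `Y` as a set with permutations (left multiplication) -/
noncomputable def permSet (Y : FSet Λ) : FSet Λ :=
  letI := Fintype.ofFinite (Equiv.Perm Y.E)
  { E := Equiv.Perm Y.E
    act := fun a => Equiv.mulLeft (Y.act a) }

theorem bad_conj (X Y : FSet Λ) (φ : X.E ≃ Y.E) (S : Set Λ)
    (h : ∀ s ∈ S, ∀ e, φ (X.act s e) = Y.act s (φ e)) {u : FreeGroup Λ} (hu : u ∈ words S) :
    X.bad u = Y.bad u := by
  have h1 : ∀ v ∈ words S, φ.permCongr (X.ev v) = Y.ev v := by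
    intro v hv
    have := hom_congr (f := (Equiv.permCongrHom φ).toMonoidHom.comp X.ev) (g := Y.ev) (S := S)
      (by
        intro s hs
        ext y
        have := h s hs (φ.symm y)
        simp only [MonoidHom.coe_comp, Function.comp_apply, ev_of]
        simpa using this) hv
    exact this
  unfold FSet.bad
  rw [← fr_equiv φ (fun e : Y.E => Y.ev u e ≠ e)]
  apply fr_congr
  intro e
  rw [← h1 u hu]
  simp [Equiv.permCongr_apply]

end Amalg

open Amalg in
theorem stAmalg : StAmalg := by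
  classical
  intro Λ R₁ R₂ D₁ D₂ hD hR₁ hR₂ hE₁ hE₂ δ hδ
  obtain ⟨I₂, _, _, Z₂, hZ₂⟩ := hE₂ δ hδ
  have hc : (0 : ℝ) < Fintype.card I₂ := by exact_mod_cast Fintype.card_pos
  obtain ⟨I₁, _, _, Z₁, hZ₁⟩ := hE₁ (δ / Fintype.card I₂) (by positivity)
  obtain ⟨π₁, hπ₁, hr₁⟩ := hZ₁ (permSet Z₂)
  obtain ⟨i₁⟩ := ‹Nonempty I₁›
  obtain ⟨i₂⟩ := ‹Nonempty I₂›
  let V : FSet Λ := (((permSet Z₂).pow I₁).prod Z₁).withAct π₁
  refine ⟨I₂, inferInstance, ⟨i₂⟩, (V.pow I₂).prod (triv Λ Z₂), ?_, ?_⟩
  · intro r hr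
    have h1 := bad_prod_le (V.pow I₂) (triv Λ Z₂) r
    rw [bad_triv, add_zero] at h1
    have h2 := bad_pow_le V I₂ r
    have h3 := hr₁ r hr
    have h4 : (Fintype.card I₂ : ℝ) * V.bad r ≤ Fintype.card I₂ * (δ / Fintype.card I₂) :=
      mul_le_mul_of_nonneg_left h3 hc.le
    rw [mul_div_cancel₀ _ hc.ne'] at h4
    linarith
  · intro E
    obtain ⟨π', hπ', hr₂⟩ := hZ₂ (E.prod V)
    let ρ : (I₂ → V.E) → Equiv.Perm Z₂.E := fun v => (v i₂).1 i₁
    let Φ : (I₂ → E.E) × ((I₂ → V.E) × Z₂.E) ≃ (I₂ → E.E × V.E) × Z₂.E :=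
      { toFun := fun p => (fun i => (p.1 i, p.2.1 i), ρ p.2.1 p.2.2)
        invFun := fun q => (fun i => (q.1 i).1, (fun i => (q.1 i).2, (ρ (fun i => (q.1 i).2)).symm q.2))
        left_inv := by
          rintro ⟨e, v, z⟩
          simp
        right_inv := by
          rintro ⟨b, z⟩
          simp }
    let act0 : Λ → Equiv.Perm ((I₂ → E.E) × ((I₂ → V.E) × Z₂.E)) :=
      ((E.pow I₂).prod ((V.pow I₂).prod (triv Λ Z₂))).act
    let π'' : Λ → Equiv.Perm ((I₂ → E.E × V.E) × Z₂.E) := π'
    let π : Λ → Equiv.Perm ((I₂ → E.E) × ((I₂ → V.E) × Z₂.E)) := fun a =>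
      if a ∈ D₂ then Φ.symm.permCongr (π'' a) else act0 a
    refine ⟨π, ?_, ?_⟩
    · intro s hs
      exact if_neg hs
    · have key : ∀ a, a ∉ D₁ → ∀ p, Φ (π a p) = π'' a (Φ p) := by
        intro a ha p
        by_cases ha2 : a ∈ D₂
        · have : π a = Φ.symm.permCongr (π'' a) := if_pos ha2
          rw [this]
          simp [Equiv.permCongr_apply]
        · have hp : π a = act0 a := if_neg ha2
          have hq : π'' a = (((E.prod V).pow I₂).prod Z₂).act a := hπ' a ha2
          rw [hp, hq]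
          have hV : V.act a = (((permSet Z₂).pow I₁).prod Z₁).act a := hπ₁ a ha
          obtain ⟨e, v, z⟩ := p
          have h1 : Φ (act0 a (e, v, z)) =
            (fun i => (E.act a (e i), V.act a (v i)), ρ (fun i => V.act a (v i)) z) := rfl
          have h2 : ρ (fun i => V.act a (v i)) z = Z₂.act a (ρ v z) := by
            have h3 : ρ (fun i => V.act a (v i)) =
              (((((permSet Z₂).pow I₁).prod Z₁).act a (v i₂)).1 i₁ : Equiv.Perm Z₂.E) := by
              rw [← hV]
              try rfl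
            rw [h3]
            rfl
          rw [h2] at h1
          exact h1
      intro r hr
      have h1 := hr₂ r hr
      have h2 := bad_conj (((E.pow I₂).prod ((V.pow I₂).prod (triv Λ Z₂))).withAct π)
        ((((E.prod V).pow I₂).prod Z₂).withAct π') Φ D₁ᶜ (fun s hs e => key s hs e) (hR₂ hr)
      rw [h2]
      exact h1

end Pool07903c
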