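import Pool.Agent.Lib.MP_07903c_al.Main

/-!
# MP_07903c_al: assembly (all other modules as hypotheses)
-/

namespace Pool07903c

variable {Λ : Type}

theorem normalClosure_conj (g w : FreeGroup Λ) :
    Subgroup.normalClosure ({g * w * g⁻¹} : Set (FreeGroup Λ)) =
      Subgroup.normalClosure ({w} : Set (FreeGroup Λ)) := by
  apply le_antisymm
  · apply Subgroup.normalClosure_le_normal
    rw [Set.singleton_subset_iff]
    have hn : (Subgroup.normalClosure ({w} : Set (FreeGroup Λ))).Normal :=
      Subgroup.normalClosure_normal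
    have hw : w ∈ Subgroup.normalClosure ({w} : Set (FreeGroup Λ)) :=
      Subgroup.subset_normalClosure (Set.mem_singleton w)
    exact hn.conj_mem w hw g
  · apply Subgroup.normalClosure_le_normal
    rw [Set.singleton_subset_iff]
    have hn : (Subgroup.normalClosure ({g * w * g⁻¹} : Set (FreeGroup Λ))).Normal :=
      Subgroup.normalClosure_normal
    have hw : g * w * g⁻¹ ∈ Subgroup.normalClosure ({g * w * g⁻¹} : Set (FreeGroup Λ)) :=
      Subgroup.subset_normalClosure (Set.mem_singleton _)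
    have h := hn.conj_mem _ hw g⁻¹
    have h2 : g⁻¹ * (g * w * g⁻¹) * g⁻¹⁻¹ = w := by group
    rw [h2] at h
    exact h

theorem CL_conj {w : FreeGroup Λ} (g : FreeGroup Λ) {x : Λ} (h : CL w x) :
    CL (g * w * g⁻¹) x := by
  obtain ⟨hE, hS⟩ := h
  constructor
  · intro δ hδ
    obtain ⟨I, i1, i2, Z, hZ⟩ := hE δ hδ
    refine ⟨I, i1, i2, Z, fun E => ?_⟩
    obtain ⟨π, h1, h2⟩ := hZ E
    refine ⟨π, h1, ?_⟩
    intro r hr
    rw [Set.mem_singleton_iff.1 hr, bad_conj]
    exact h2 w (Set.mem_singleton w)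
  · intro F ε hε
    obtain ⟨X, B, f, h1, h2, h3⟩ := hS F ε hε
    refine ⟨X, B, f, ?_, h2, ?_⟩
    · intro r hr
      rw [Set.mem_singleton_iff.1 hr, bad_conj]
      exact h1 w (Set.mem_singleton w)
    · intro u hu hn
      apply h3 u hu
      unfold mag at hn ⊢
      rwa [normalClosure_conj] at hn

theorem one_or_CL (hM : StMain) (r : FreeGroup Λ) : r = 1 ∨ ∃ x, CL r x := by
  classical
  set L := FreeGroup.reduceCyclically r.toWord with hL
  have hcyc : FreeGroup.IsCyclicallyReduced L :=
    FreeGroup.reduceCyclically.isCyclicallyReduced FreeGroup.isReduced_toWord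
  have hconj : r = FreeGroup.mk (FreeGroup.reduceCyclically.conjugator r.toWord) *
      FreeGroup.mk L * (FreeGroup.mk (FreeGroup.reduceCyclically.conjugator r.toWord))⁻¹ := by
    rw [FreeGroup.inv_mk, FreeGroup.mul_mk, FreeGroup.mul_mk,
      FreeGroup.reduceCyclically.conj_conjugator_reduceCyclically, FreeGroup.mk_toWord]
  rcases h : L with _ | ⟨p, L'⟩
  · left
    rw [hconj, h, ← FreeGroup.one_eq_mk, mul_one, mul_inv_cancel]
  · right
    refine ⟨p.1, ?_⟩
    rw [hconj]
    apply CL_conj
    apply hM Λ L p.1 hcyc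
    rw [h]
    simp

theorem sofic_of (hM : StMain) (hSo : StSofic) (r : FreeGroup Λ) :
    IsSofic (PresentedGroup ({r} : Set (FreeGroup Λ))) :=
  hSo Λ r (one_or_CL hM r)

end Pool07903c
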