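import Pool.Agent.Lib.MP_07903c_al.Spec

/-!
# MP_07903c_al: sofic groups are hyperlinear
-/

namespace Pool07903c

open Matrix

/-- permutation matrix -/
noncomputable def pm {n : ℕ} (σ : Equiv.Perm (Fin n)) : Matrix (Fin n) (Fin n) ℂ :=
  fun i j => if i = σ j then 1 else 0

theorem pm_mul {n : ℕ} (σ τ : Equiv.Perm (Fin n)) : pm (σ * τ) = pm σ * pm τ := by
  ext i j
  simp only [pm, Matrix.mul_apply, Equiv.Perm.coe_mul, Function.comp_apply, mul_ite, mul_one,
    mul_zero]
  rw [Finset.sum_eq_single (τ j)]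
  · rw [if_pos rfl]
    rfl
  · intro b _ hb
    simp [hb]
  · intro h; exact absurd (Finset.mem_univ _) h

theorem pm_one {n : ℕ} : pm (1 : Equiv.Perm (Fin n)) = 1 := by
  ext i j
  rw [Matrix.one_apply]
  rfl

theorem pm_star {n : ℕ} (σ : Equiv.Perm (Fin n)) : (pm σ)ᴴ = pm σ⁻¹ := by
  ext i j
  simp only [pm, Matrix.conjTranspose_apply]
  by_cases h : j = σ i
  · have h' : i = σ⁻¹ j := by rw [h]; simp
    rw [if_pos h, if_pos h']; simp
  · have h' : ¬ i = σ⁻¹ j := by
      intro hh; apply h; rw [hh]; simp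
    rw [if_neg h, if_neg h']; simp

theorem pm_mem {n : ℕ} (σ : Equiv.Perm (Fin n)) : pm σ ∈ Matrix.unitaryGroup (Fin n) ℂ := by
  rw [Matrix.mem_unitaryGroup_iff, Matrix.star_eq_conjTranspose, pm_star, ← pm_mul]
  simp [pm_one]

theorem trace_sub {n : ℕ} (σ τ : Equiv.Perm (Fin n)) :
    ((pm σ - pm τ)ᴴ * (pm σ - pm τ)).trace =
      2 * ((Finset.univ.filter (fun i => σ i ≠ τ i)).card : ℂ) := by
  have h : ∀ j : Fin n, ((pm σ - pm τ)ᴴ * (pm σ - pm τ)) j j =
      if σ j ≠ τ j then (2 : ℂ) else 0 := by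
    intro j
    rw [Matrix.mul_apply]
    simp only [Matrix.conjTranspose_apply, Matrix.sub_apply, pm]
    by_cases hj : σ j = τ j
    · rw [hj]; simp
    · have : ∀ i : Fin n, star ((if i = σ j then (1 : ℂ) else 0) - (if i = τ j then 1 else 0)) *
          ((if i = σ j then (1 : ℂ) else 0) - (if i = τ j then 1 else 0)) =
          (if i = σ j then (1 : ℂ) else 0) + (if i = τ j then 1 else 0) := by
        intro i
        by_cases h1 : i = σ j
        · have h2 : ¬ i = τ j := fun h2 => hj (h1.symm.trans h2)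
          rw [if_pos h1, if_neg h2]; simp
        · by_cases h2 : i = τ j
          · rw [if_neg h1, if_pos h2]; simp
          · rw [if_neg h1, if_neg h2]; simp
      rw [Finset.sum_congr rfl (fun i _ => this i), Finset.sum_add_distrib]
      simp [hj]; norm_num
  rw [Matrix.trace]
  simp only [Matrix.diag_apply]
  rw [Finset.sum_congr rfl (fun j _ => h j), ← Finset.sum_filter, Finset.sum_const, nsmul_eq_mul]
  ring

theorem norm2_sub {n : ℕ} (σ τ : Equiv.Perm (Fin n)) :
    norm2 (pm σ - pm τ) = Real.sqrt (2 * dH σ τ) := by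
  rw [norm2, ntr, trace_sub, dH]
  congr 1
  have : (2 * ((Finset.univ.filter (fun i => σ i ≠ τ i)).card : ℂ) / (n : ℂ)) =
      ((2 * (((Finset.univ.filter (fun i => σ i ≠ τ i)).card : ℝ) / (n : ℝ)) : ℝ) : ℂ) := by
    push_cast; ring
  rw [this, Complex.ofReal_re]

theorem ntr_pm {n : ℕ} (σ : Equiv.Perm (Fin n)) (hn : n ≠ 0) :
    ntr (pm σ) = ((1 - dH σ 1 : ℝ) : ℂ) := by
  have h1 : (pm σ).trace = ((Finset.univ.filter (fun i => σ i = i)).card : ℂ) := by
    rw [Matrix.trace]
    simp only [Matrix.diag_apply, pm]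
    rw [← Finset.sum_filter, Finset.sum_const, nsmul_eq_mul, mul_one]
    congr 2
    ext i
    simp [eq_comm]
  have h2 : (Finset.univ.filter (fun i => σ i = i)).card +
      (Finset.univ.filter (fun i => σ i ≠ (1 : Equiv.Perm (Fin n)) i)).card = n := by
    have := Finset.card_filter_add_card_filter_not (s := (Finset.univ : Finset (Fin n)))
      (fun i => σ i = i)
    rw [Finset.card_univ, Fintype.card_fin] at this
    exact this
  have hn' : (n : ℝ) ≠ 0 := by exact_mod_cast hn
  have h3 : ((Finset.univ.filter (fun i => σ i = i)).card : ℝ) =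
      n - (Finset.univ.filter (fun i => σ i ≠ (1 : Equiv.Perm (Fin n)) i)).card := by
    have : ((Finset.univ.filter (fun i => σ i = i)).card : ℝ) +
      (Finset.univ.filter (fun i => σ i ≠ (1 : Equiv.Perm (Fin n)) i)).card = n := by
      exact_mod_cast h2
    linarith
  have h4 : ((Finset.univ.filter (fun i => σ i = i)).card : ℝ) / n = 1 - dH σ 1 := by
    rw [h3, dH]; field_simp
  rw [ntr, h1, ← h4]
  push_cast; rfl

theorem stHyper : StHyper := by
  intro Γ _ hS F ε hε
  set ε' : ℝ := min ε (ε ^ 2 / 2) with hε'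
  have hε'0 : 0 < ε' := lt_min hε (by positivity)
  obtain ⟨n, σ, hn0, h1, h2⟩ := hS F ε' hε'0
  refine ⟨n, fun g => ⟨pm (σ g), pm_mem _⟩, hn0, ?_, ?_⟩
  · intro g hg h hh
    change norm2 (pm (σ (g * h)) - pm (σ g) * pm (σ h)) < ε
    rw [← pm_mul, norm2_sub]
    have h3 := h1 g hg h hh
    have h4 : ε' ≤ ε ^ 2 / 2 := min_le_right _ _
    rw [Real.sqrt_lt' hε]
    linarith
  · intro g hg hg1
    change ‖ntr (pm (σ g))‖ < ε
    by_cases hn : n = 0
    · subst hn
      simp [ntr, hε]
    · rw [ntr_pm _ hn, Complex.norm_real, Real.norm_eq_abs, abs_lt]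
      have h3 := h2 g hg hg1
      have h4 : ε' ≤ ε := min_le_left _ _
      have h5 : dH (σ g) 1 ≤ 1 := by
        rw [dH]
        apply div_le_one_of_le₀ _ (by positivity)
        have := Finset.card_filter_le (s := (Finset.univ : Finset (Fin n)))
          (fun i => σ g i ≠ (1 : Equiv.Perm (Fin n)) i)
        rw [Finset.card_univ, Fintype.card_fin] at this
        exact_mod_cast this
      constructor <;> linarith

end Pool07903c
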