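import Pool.Agent.Lib.MP_07903c_al.Basic
import Pool.Agent.Lib.MP_07903c_al.Hyper

/-!
# MP_07903c_al: from `CL` to soficity of the presented group
-/

namespace Pool07903c

variable {Λ : Type}

/-- a homomorphism to a finite group as a letter set (left multiplication) -/
noncomputable def FSet.ofHom {Q : Type} [Group Q] [Finite Q]
    (θ : FreeGroup Λ →* Q) : FSet Λ where
  E := Q
  ft := Fintype.ofFinite Q
  act a := Equiv.mulLeft (θ (FreeGroup.of a))

theorem ev_ofHom_eq {Q : Type} [Group Q] [Finite Q] (θ : FreeGroup Λ →* Q) :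
    (FSet.ofHom θ).ev = (MulAction.toPermHom Q Q).comp θ := by
  apply FreeGroup.ext_hom
  intro a
  rw [FSet.ev_of]
  rfl

theorem ev_ofHom_ne {Q : Type} [Group Q] [Finite Q] (θ : FreeGroup Λ →* Q) {u : FreeGroup Λ}
    (hu : θ u ≠ 1) (q : (FSet.ofHom θ).E) : (FSet.ofHom θ).ev u q ≠ q := by
  intro h
  rw [ev_ofHom_eq] at h
  have h1 : θ u * (show Q from q) = (show Q from q) := h
  exact hu (mul_eq_right.1 h1)

/-- the word `u` is fixed on a fraction -/
theorem fr_fixed_eq (X : FSet Λ) (u : FreeGroup Λ) :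
    fr (fun e : X.E => X.ev u e = e) = 1 - X.bad u := by
  have h := fr_not (E := X.E) (fun e => X.ev u e = e)
  unfold FSet.bad
  have h2 : fr (fun e : X.E => X.ev u e ≠ e) = 1 - fr (fun e : X.E => X.ev u e = e) := h
  rw [h2]; ring

theorem dH_eq_fr {n : ℕ} (σ τ : Equiv.Perm (Fin n)) : dH σ τ = fr (fun i : Fin n => σ i ≠ τ i) := by
  rw [fr_eq_card, dH, Fintype.card_fin]

/-- almost-models of `⟨Λ | R⟩` give soficity -/
theorem sofic_of_models (R : Set (FreeGroup Λ))
    (h : ∀ (U : Finset (FreeGroup Λ)) (ε : ℝ), 0 < ε → ∃ X : FSet Λ, (∀ r ∈ R, X.bad r ≤ ε) ∧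
      ∀ u ∈ U, u ∉ Subgroup.normalClosure R → fr (fun e : X.E => X.ev u e = e) ≤ ε) :
    IsSofic (PresentedGroup R) := by
  classical
  intro F ε hε
  have hsurj : ∀ g : PresentedGroup R, ∃ u : FreeGroup Λ, PresentedGroup.mk R u = g :=
    PresentedGroup.mk_surjective R
  choose l hl using hsurj
  have hρ : ∀ g k : PresentedGroup R,
      (l (g * k))⁻¹ * (l g * l k) ∈ Subgroup.normalClosure R := by
    intro g k
    have h1 : PresentedGroup.mk R ((l (g * k))⁻¹ * (l g * l k)) = 1 := by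
      rw [map_mul, map_inv, map_mul, hl, hl, hl]; simp
    exact PresentedGroup.mk_eq_one_iff.1 h1
  choose n hn using fun g k => bad_normalClosure (hρ g k)
  set N : ℕ := ∑ p ∈ F ×ˢ F, n p.1 p.2 with hN
  have hNle : ∀ g ∈ F, ∀ k ∈ F, n g k ≤ N := by
    intro g hg k hk
    exact Finset.single_le_sum (f := fun p : PresentedGroup R × PresentedGroup R => n p.1 p.2)
      (fun _ _ => Nat.zero_le _) (Finset.mk_mem_product hg hk)
  set ε' : ℝ := ε / (N + 2) with hε'
  have hN2 : (0 : ℝ) < (N : ℝ) + 2 := by positivity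
  have hε'0 : 0 < ε' := div_pos hε hN2
  have hNε : ((N : ℝ) + 2) * ε' = ε := by rw [hε']; field_simp
  obtain ⟨X, hX1, hX2⟩ := h (F.image l) ε' hε'0
  set e : X.E ≃ Fin (Fintype.card X.E) := Fintype.equivFin X.E with he
  refine ⟨Fintype.card X.E, fun g => e.permCongr (X.ev (l g)), Fintype.card_pos, ?_, ?_⟩
  · intro g hg k hk
    rw [dH_eq_fr]
    have h1 : fr (fun i : Fin (Fintype.card X.E) =>
        (e.permCongr (X.ev (l (g * k)))) i ≠
          (e.permCongr (X.ev (l g)) * e.permCongr (X.ev (l k))) i) =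
        X.bad ((l (g * k))⁻¹ * (l g * l k)) := by
      rw [← fr_equiv e]
      unfold FSet.bad
      apply fr_congr
      intro x
      rw [Ne, Ne, not_iff_not]
      simp only [Equiv.permCongr_apply, Equiv.Perm.mul_apply, Equiv.symm_apply_apply]
      rw [map_mul, map_inv, Equiv.Perm.mul_apply, Equiv.Perm.inv_eq_iff_eq, map_mul,
        Equiv.Perm.mul_apply, EmbeddingLike.apply_eq_iff_eq]
      exact eq_comm
    rw [h1]
    have h2 := hn g k X ε' hε'0.le hX1
    have h3 : ((n g k : ℕ) : ℝ) ≤ N := by exact_mod_cast hNle g hg k hk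
    nlinarith
  · intro g hg hg1
    have h1 : l g ∉ Subgroup.normalClosure R := by
      intro hc
      apply hg1
      rw [← hl g]
      exact PresentedGroup.mk_eq_one_iff.2 hc
    have h2 := hX2 (l g) (Finset.mem_image_of_mem l hg) h1
    rw [fr_fixed_eq] at h2
    have h3 : dH (e.permCongr (X.ev (l g))) 1 = X.bad (l g) := by
      rw [dH_eq_fr, ← fr_equiv e]
      unfold FSet.bad
      apply fr_congr
      intro x
      rw [Ne, Ne, not_iff_not]
      simp only [Equiv.permCongr_apply, Equiv.Perm.one_apply, Equiv.symm_apply_apply,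
        EmbeddingLike.apply_eq_iff_eq]
    rw [h3]
    have h4 : ε' < ε := by
      have : (0 : ℝ) ≤ N := Nat.cast_nonneg N
      nlinarith
    linarith

theorem models_of_one (hF : StFree) (U : Finset (FreeGroup Λ)) (ε : ℝ) (hε : 0 < ε) :
    ∃ X : FSet Λ, (∀ r ∈ ({1} : Set (FreeGroup Λ)), X.bad r ≤ ε) ∧
      ∀ u ∈ U, u ∉ Subgroup.normalClosure ({1} : Set (FreeGroup Λ)) →
        fr (fun e : X.E => X.ev u e = e) ≤ ε := by
  classical
  obtain ⟨Q, _, _, θ, hθ⟩ := hF Λ (U.filter (fun u => u ≠ 1)) (by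
    intro u hu; exact (Finset.mem_filter.1 hu).2)
  refine ⟨FSet.ofHom θ, ?_, ?_⟩
  · intro r hr
    rw [Set.mem_singleton_iff.1 hr, bad_one]
    exact hε.le
  · intro u hu hun
    have hu1 : u ≠ 1 := by
      rintro rfl
      exact hun (Subgroup.one_mem _)
    have h1 := hθ u (Finset.mem_filter.2 ⟨hu, hu1⟩)
    rw [fr_eq_zero]
    · exact hε.le
    · intro q
      exact ev_ofHom_ne θ h1 q

theorem models_of_CL (hF : StFree) {w : FreeGroup Λ} {x : Λ} (hCL : CL w x)
    (U : Finset (FreeGroup Λ)) (ε : ℝ) (hε : 0 < ε) :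
    ∃ X : FSet Λ, (∀ r ∈ ({w} : Set (FreeGroup Λ)), X.bad r ≤ ε) ∧
      ∀ u ∈ U, u ∉ Subgroup.normalClosure ({w} : Set (FreeGroup Λ)) →
        fr (fun e : X.E => X.ev u e = e) ≤ ε := by
  classical
  obtain ⟨hExt, hSep⟩ := hCL
  obtain ⟨XA, B, f, hA1, -, hA3⟩ := hSep U (ε / 2) (half_pos hε)
  have hv : ∀ u : FreeGroup Λ, ∃ (v : FreeGroup Λ) (n : ℕ),
      (u ∈ mag {w} ({x}ᶜ : Set Λ) ∧ u ∉ Subgroup.normalClosure ({w} : Set (FreeGroup Λ))) →
        v ∈ words ({x}ᶜ : Set Λ) ∧ v ≠ 1 ∧ ∀ (X : FSet Λ) (ε : ℝ), 0 ≤ ε →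
          (∀ r ∈ ({w} : Set (FreeGroup Λ)), X.bad r ≤ ε) → X.bad (v⁻¹ * u) ≤ n * ε := by
    intro u
    by_cases hu : u ∈ mag {w} ({x}ᶜ : Set Λ) ∧
      u ∉ Subgroup.normalClosure ({w} : Set (FreeGroup Λ))
    · obtain ⟨v, hv, ρ, hρ, huv⟩ := mem_mag.1 hu.1
      obtain ⟨n, hn⟩ := bad_normalClosure hρ
      refine ⟨v, n, fun _ => ⟨hv, ?_, ?_⟩⟩
      · rintro rfl
        rw [one_mul] at huv
        rw [huv] at hρ
        exact hu.2 hρ
      · intro X ε hε hX
        have : v⁻¹ * u = ρ := by rw [← huv]; group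
        rw [this]
        exact hn X ε hε hX
    · exact ⟨1, 0, fun h => absurd h hu⟩
  choose v n hvn using hv
  set N : ℕ := ∑ u ∈ U, n u with hN
  have hNle : ∀ u ∈ U, n u ≤ N := fun u hu =>
    Finset.single_le_sum (f := n) (fun _ _ => Nat.zero_le _) hu
  set δ : ℝ := ε / (2 * (N + 1)) with hδ
  have hN0 : (0 : ℝ) ≤ N := Nat.cast_nonneg N
  have hδ0 : 0 < δ := by rw [hδ]; positivity
  have hδ2 : ((N : ℝ) + 1) * δ = ε / 2 := by rw [hδ]; field_simp
  obtain ⟨I, _, _, Z, hZ⟩ := hExt δ hδ0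
  obtain ⟨Q, _, _, θ, hθ⟩ := hF Λ ((U.filter (fun u => u ∈ mag {w} ({x}ᶜ : Set Λ) ∧
      u ∉ Subgroup.normalClosure ({w} : Set (FreeGroup Λ)))).image v) (by
    intro u hu
    obtain ⟨u', hu', rfl⟩ := Finset.mem_image.1 hu
    exact (hvn u' (Finset.mem_filter.1 hu').2).2.1)
  obtain ⟨π, hπ1, hπ2⟩ := hZ (FSet.ofHom θ)
  set Y : FSet Λ := (((FSet.ofHom θ).pow I).prod Z).withAct π with hY
  refine ⟨XA.prod Y, ?_, ?_⟩
  · intro r hr
    have h1 := bad_prod_le XA Y r
    have h2 := hA1 r hr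
    have h3 := hπ2 r hr
    have h4 : δ ≤ ε / 2 := by nlinarith
    linarith
  · intro u hu hun
    by_cases hm : u ∈ mag {w} ({x}ᶜ : Set Λ)
    · obtain ⟨hv1, hv2, hv3⟩ := hvn u ⟨hm, hun⟩
      have hθv : θ (v u) ≠ 1 := hθ _ (Finset.mem_image_of_mem v
        (Finset.mem_filter.2 ⟨hu, hm, hun⟩))
      have hfree : ∀ y : Y.E, Y.ev (v u) y ≠ y := by
        intro y hy
        have h1 : Y.ev (v u) = (((FSet.ofHom θ).pow I).prod Z).ev (v u) :=
          ev_eq_of_words (((FSet.ofHom θ).pow I).prod Z) π hπ1 (v u) hv1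
        rw [h1] at hy
        have h2 := ev_prod ((FSet.ofHom θ).pow I) Z (v u) y.1 y.2
        have h3 : (((FSet.ofHom θ).pow I).prod Z).ev (v u) y = (y.1, y.2) := hy
        have h4 : ((FSet.ofHom θ).pow I).ev (v u) y.1 = y.1 :=
          congrArg Prod.fst (h2.symm.trans h3)
        rw [ev_pow] at h4
        obtain ⟨i⟩ := (inferInstance : Nonempty I)
        exact ev_ofHom_ne θ hθv (y.1 i) (congrFun h4 i)
      have h5 : fr (fun y : Y.E => Y.ev u y = y) ≤ Y.bad ((v u)⁻¹ * u) := by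
        unfold FSet.bad
        apply fr_mono
        intro y hy hy2
        rw [map_mul, Equiv.Perm.mul_apply, hy, map_inv, Equiv.Perm.inv_eq_iff_eq] at hy2
        exact hfree y hy2.symm
      have h6 := hv3 Y δ hδ0.le hπ2
      have h7 : fr (fun e : (XA.prod Y).E => (XA.prod Y).ev u e = e) ≤
          fr (fun y : Y.E => Y.ev u y = y) := by
        have h8 : fr (fun e : XA.E × Y.E => Y.ev u e.2 = e.2) = fr (fun y : Y.E => Y.ev u y = y) :=
          fr_snd (fun y : Y.E => Y.ev u y = y)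
        rw [← h8]
        refine fr_mono (E := XA.E × Y.E) ?_
        rintro ⟨a, b⟩ hab
        rw [ev_prod] at hab
        exact congrArg Prod.snd hab
      have h9 : ((n u : ℕ) : ℝ) ≤ N := by exact_mod_cast hNle u hu
      nlinarith
    · have h1 := hA3 u hu hm
      have h7 : fr (fun e : (XA.prod Y).E => (XA.prod Y).ev u e = e) ≤
          fr (fun y : XA.E => f (XA.ev u y) = f y) := by
        have h8 : fr (fun e : XA.E × Y.E => f (XA.ev u e.1) = f e.1) =
            fr (fun y : XA.E => f (XA.ev u y) = f y) :=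
          fr_fst (fun y : XA.E => f (XA.ev u y) = f y)
        rw [← h8]
        refine fr_mono (E := XA.E × Y.E) ?_
        rintro ⟨a, b⟩ hab
        rw [ev_prod] at hab
        exact congrArg f (congrArg Prod.fst hab)
      linarith

theorem stSofic (hF : StFree) : StSofic := by
  intro Λ w h
  rcases h with rfl | ⟨x, hx⟩
  · exact sofic_of_models _ (models_of_one hF)
  · exact sofic_of_models _ (models_of_CL hF hx)

end Pool07903c
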