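import Pool.Agent.Lib.MP_07903c_al.Basic
import Pool.Agent.Lib.MP_07903c_al.Sofic

/-!
# MP_07903c_al: the base case, `w` conjugate to a power of `x^{±1} v`
-/

namespace Pool07903c

variable {Λ : Type}

theorem bad_eq_zero (X : FSet Λ) {u : FreeGroup Λ} (h : X.ev u = 1) : X.bad u = 0 := by
  unfold FSet.bad
  exact fr_eq_zero (fun e he => he (by rw [h]; rfl))

theorem of_mem_words {S : Set Λ} {a : Λ} (h : a ∈ S) : FreeGroup.of a ∈ words S :=
  Subgroup.subset_closure (Set.mem_image_of_mem _ h)

theorem ev_ofHom_one {Q : Type} [Group Q] [Finite Q] (θ : FreeGroup Λ →* Q) {u : FreeGroup Λ}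
    (hu : θ u = 1) : (FSet.ofHom θ).ev u = 1 := by
  rw [ev_ofHom_eq]
  show (MulAction.toPermHom Q Q) (θ u) = 1
  rw [hu, map_one]

/-- the one point set -/
def ptSet (Λ : Type) : FSet Λ where
  E := Unit
  act _ := 1

theorem ext_base {w : FreeGroup Λ} {x : Λ} (h : PowForm w x) : Ext {w} ({x}ᶜ : Set Λ) := by
  classical
  obtain ⟨g, v, b, k, -, hv, rfl⟩ := h
  intro δ hδ
  refine ⟨Unit, inferInstance, inferInstance, ptSet Λ, ?_⟩
  intro E
  set X : FSet Λ := (E.pow Unit).prod (ptSet Λ) with hX
  refine ⟨fun s => if s = x then (if b then (X.ev v)⁻¹ else X.ev v) else X.act s, ?_, ?_⟩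
  · intro s hs
    have : s ≠ x := hs
    simp only [this, if_false]
  · intro r hr
    rw [Set.mem_singleton_iff.1 hr, bad_conj]
    set π : Λ → Equiv.Perm X.E :=
      fun s => if s = x then (if b then (X.ev v)⁻¹ else X.ev v) else X.act s with hπ
    have h1 : (X.withAct π).ev v = X.ev v :=
      ev_eq_of_words X π (S := {x}ᶜ) (fun a ha => by
        have : a ≠ x := ha
        simp only [hπ, this, if_false]) v hv
    have h2 : (X.withAct π).ev (FreeGroup.mk [(x, b)] * v) = 1 := by
      rw [map_mul, FSet.ev_mk_single, h1]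
      have h3 : (X.withAct π).act x = if b then (X.ev v)⁻¹ else X.ev v := by
        show π x = _
        simp only [hπ, if_true]
      rw [h3]
      cases b
      · simp only [Bool.false_eq_true, if_false]
        exact inv_mul_cancel (X.ev v)
      · simp only [if_true]
        exact inv_mul_cancel (X.ev v)
    have h3 : (X.withAct π).bad ((FreeGroup.mk [(x, b)] * v) ^ k) = 0 := by
      apply bad_eq_zero
      rw [map_pow, h2, one_pow]
    rw [h3]
    exact hδ.le

open Classical in
/-- the model of the free product of a free group and a cyclic group -/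
noncomputable def baseHom {Q : Type} [Group Q] (θ : FreeGroup Λ →* Q) (x : Λ) (k : ℕ) :
    FreeGroup Λ →* Q × Multiplicative (ZMod k) :=
  FreeGroup.lift (fun a => if a = x then (1, Multiplicative.ofAdd 1) else (θ (FreeGroup.of a), 1))

theorem baseHom_fst {Q : Type} [Group Q] (θ : FreeGroup Λ →* Q) (x : Λ) (k : ℕ) :
    ∀ u ∈ words ({x}ᶜ : Set Λ), (baseHom θ x k u).1 = θ u := by
  intro u hu
  have := hom_eq_of_words (S := {x}ᶜ)
    ((MonoidHom.fst Q (Multiplicative (ZMod k))).comp (baseHom θ x k)) θ (by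
      intro a ha
      have hax : a ≠ x := ha
      simp [baseHom, hax]) u hu
  exact this

theorem baseHom_x {Q : Type} [Group Q] (θ : FreeGroup Λ →* Q) (x : Λ) (k : ℕ) :
    baseHom θ x k (FreeGroup.of x) = (1, Multiplicative.ofAdd 1) := by
  simp [baseHom]

theorem compat_base (hF : StFree) (x : Λ) (k : ℕ) (hk : 0 < k) :
    Compat ∅ {(FreeGroup.of x) ^ k} ({x}ᶜ : Set Λ) {x} := by
  classical
  intro F ε hε
  obtain ⟨Q, _, _, θ, hθ⟩ := hF Λ (F.filter (fun u => u ≠ 1)) (by
    intro u hu; exact (Finset.mem_filter.1 hu).2)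
  have : NeZero k := ⟨hk.ne'⟩
  have : Finite (Multiplicative (ZMod k)) := inferInstanceAs (Finite (ZMod k))
  refine ⟨FSet.ofHom (baseHom θ x k), (FSet.ofHom (baseHom θ x k)).E, id, ?_, ?_, ?_, ?_⟩
  · intro r hr
    rw [Set.empty_union, Set.mem_singleton_iff] at hr
    subst hr
    have h1 : baseHom θ x k ((FreeGroup.of x) ^ k) = 1 := by
      rw [map_pow, baseHom_x, Prod.pow_mk, one_pow, ← ofAdd_nsmul]
      simp
    rw [bad_eq_zero _ (ev_ofHom_one _ h1)]
    exact hε.le
  · intro s hs1 hs2
    exfalso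
    exact hs1 hs2
  · intro u hu huw hun
    have hu1 : u ≠ 1 := by
      rintro rfl
      exact hun (Subgroup.one_mem _)
    rw [fr_eq_zero]
    · exact hε.le
    · intro e
      apply ev_ofHom_ne
      intro hc
      have h1 := baseHom_fst θ x k u huw
      rw [hc] at h1
      exact hθ u (Finset.mem_filter.2 ⟨hu, hu1⟩) h1.symm
  · intro u hu huw hun
    rw [fr_eq_zero]
    · exact hε.le
    · intro e
      apply ev_ofHom_ne
      intro hc
      apply hun
      rw [compl_compl] at huw
      have h1 : u ∈ Subgroup.zpowers (FreeGroup.of x) := by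
        unfold words at huw
        rw [Set.image_singleton] at huw
        rwa [Subgroup.zpowers_eq_closure]
      obtain ⟨n, rfl⟩ := Subgroup.mem_zpowers_iff.1 h1
      rw [map_zpow, baseHom_x] at hc
      have h2 : (Multiplicative.ofAdd (1 : ZMod k)) ^ n = 1 := congrArg Prod.snd hc
      rw [← ofAdd_zsmul, ofAdd_eq_one, zsmul_eq_mul, mul_one, ZMod.intCast_zmod_eq_zero_iff_dvd] at h2
      obtain ⟨m, hm⟩ := h2
      apply mem_mag.2
      refine ⟨1, Subgroup.one_mem _, (FreeGroup.of x) ^ n, ?_, one_mul _⟩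
      rw [hm, zpow_mul, zpow_natCast]
      exact Subgroup.zpow_mem _ (Subgroup.subset_normalClosure (Set.mem_singleton _)) m

theorem sep_pow (hK : StKey) (hF : StFree) (x : Λ) (k : ℕ) (hk : 0 < k) :
    Sep {(FreeGroup.of x) ^ k} ({x}ᶜ : Set Λ) := by
  have h := hK Λ ∅ {(FreeGroup.of x) ^ k} ({x}ᶜ : Set Λ) {x} disjoint_compl_left
    (Set.empty_subset _) (by
      rw [compl_compl]
      rintro _ rfl
      exact Subgroup.pow_mem _ (of_mem_words (Set.mem_singleton x)) k)
    (compat_base hF x k hk)
  rwa [Set.empty_union] at h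

open Classical in
/-- the substitution `x ↦ y`, other letters fixed -/
noncomputable def subst (x : Λ) (y : FreeGroup Λ) : FreeGroup Λ →* FreeGroup Λ :=
  FreeGroup.lift (fun a => if a = x then y else FreeGroup.of a)

theorem subst_x (x : Λ) (y : FreeGroup Λ) : subst x y (FreeGroup.of x) = y := by
  simp [subst]

theorem subst_ne {x a : Λ} (h : a ≠ x) (y : FreeGroup Λ) :
    subst x y (FreeGroup.of a) = FreeGroup.of a := by
  simp [subst, h]

theorem subst_words (x : Λ) (y : FreeGroup Λ) : ∀ u ∈ words ({x}ᶜ : Set Λ), subst x y u = u := by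
  intro u hu
  have := hom_eq_of_words (S := {x}ᶜ) (subst x y) (MonoidHom.id _) (by
    intro a ha
    exact subst_ne ha y) u hu
  exact this

/-- pull back of a letter set along an endomorphism of the free group -/
noncomputable def FSet.pull (X : FSet Λ) (φ : FreeGroup Λ →* FreeGroup Λ) : FSet Λ where
  E := X.E
  act a := X.ev (φ (FreeGroup.of a))

theorem ev_pull (X : FSet Λ) (φ : FreeGroup Λ →* FreeGroup Λ) :
    (X.pull φ).ev = X.ev.comp φ := by
  apply FreeGroup.ext_hom
  intro a
  rw [FSet.ev_of]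
  rfl

theorem bad_pull (X : FSet Λ) (φ : FreeGroup Λ →* FreeGroup Λ) (u : FreeGroup Λ) :
    (X.pull φ).bad u = X.bad (φ u) := by
  unfold FSet.bad
  rw [ev_pull]
  rfl

theorem sep_base (hK : StKey) (hF : StFree) {w : FreeGroup Λ} {x : Λ} (h : PowForm w x) :
    Sep {w} ({x}ᶜ : Set Λ) := by
  classical
  obtain ⟨g, v, b, k, hk, hv, hw⟩ := h
  have hS := sep_pow hK hF x k hk
  set y : FreeGroup Λ := if b then FreeGroup.of x * v⁻¹ else v * (FreeGroup.of x)⁻¹ with hy
  set z : FreeGroup Λ := FreeGroup.mk [(x, b)] * v with hz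
  set φ := subst x y with hφ
  set ψ := subst x z with hψ
  have hφv : φ v = v := subst_words x y v hv
  have hψv : ψ v = v := subst_words x z v hv
  have hmk : FreeGroup.mk [(x, b)] = if b then FreeGroup.of x else (FreeGroup.of x)⁻¹ := by
    cases b
    · simp [FreeGroup.of, FreeGroup.inv_mk, FreeGroup.invRev]
    · rfl
  have hφz : φ z = FreeGroup.of x := by
    rw [hz, map_mul, hφv, hmk]
    cases b
    · simp only [Bool.false_eq_true, if_false]
      rw [map_inv, hφ, subst_x, hy]
      simp
    · simp only [if_true]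
      rw [hφ, subst_x, hy]
      simp
  have hψφ : ∀ u, ψ (φ u) = u := by
    have : ψ.comp φ = MonoidHom.id _ := by
      apply FreeGroup.ext_hom
      intro a
      by_cases ha : a = x
      · subst ha
        rw [MonoidHom.comp_apply, hφ, subst_x, hy]
        cases b
        · simp only [Bool.false_eq_true, if_false]
          rw [map_mul, hψv, map_inv, hψ, subst_x, hz, hmk]
          simp
        · simp only [if_true]
          rw [map_mul, map_inv, hψv, hψ, subst_x, hz, hmk]
          simp
      · rw [MonoidHom.comp_apply, hφ, subst_ne ha, hψ, subst_ne ha]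
        rfl
    intro u
    exact DFunLike.congr_fun this u
  have hψN : ∀ ρ ∈ Subgroup.normalClosure ({(FreeGroup.of x) ^ k} : Set (FreeGroup Λ)),
      ψ ρ ∈ Subgroup.normalClosure ({w} : Set (FreeGroup Λ)) := by
    have h : Subgroup.normalClosure ({(FreeGroup.of x) ^ k} : Set (FreeGroup Λ)) ≤
        (Subgroup.normalClosure ({w} : Set (FreeGroup Λ))).comap ψ := by
      apply Subgroup.normalClosure_le_normal
      rintro _ rfl
      show ψ ((FreeGroup.of x) ^ k) ∈ Subgroup.normalClosure ({w} : Set (FreeGroup Λ))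
      rw [map_pow, hψ, subst_x]
      have h1 : z ^ k = g⁻¹ * w * (g⁻¹)⁻¹ := by
        rw [hw]; group
      rw [h1]
      exact Subgroup.Normal.conj_mem Subgroup.normalClosure_normal w
        (Subgroup.subset_normalClosure (Set.mem_singleton w)) g⁻¹
    exact fun ρ hρ => h hρ
  intro F ε hε
  obtain ⟨X, B, f, h1, h2, h3⟩ := hS (F.image φ) ε hε
  refine ⟨X.pull φ, B, f, ?_, ?_, ?_⟩
  · rintro _ rfl
    rw [bad_pull, hw, map_mul, map_mul, map_inv, bad_conj, map_pow, hφz]
    exact h1 _ (Set.mem_singleton _)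
  · intro t ht e
    have ht' : t ≠ x := ht
    have h4 : (X.pull φ).act t = X.act t := by
      show X.ev (φ (FreeGroup.of t)) = X.act t
      rw [hφ, subst_ne ht', FSet.ev_of]
    rw [h4]
    exact h2 t ht e
  · intro u hu hun
    have h4 : φ u ∉ mag {(FreeGroup.of x) ^ k} ({x}ᶜ : Set Λ) := by
      intro hc
      obtain ⟨v₁, hv₁, ρ, hρ, h5⟩ := mem_mag.1 hc
      apply hun
      apply mem_mag.2
      refine ⟨v₁, hv₁, ψ ρ, hψN ρ hρ, ?_⟩
      rw [← hψφ u, ← h5, map_mul]
      congr 1
      exact (subst_words x z v₁ hv₁).symm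
    have h5 := h3 (φ u) (Finset.mem_image_of_mem φ hu) h4
    rw [ev_pull]
    exact h5

theorem stBase (hK : StKey) (hF : StFree) : StBase := by
  intro Λ w x h
  exact ⟨ext_base h, sep_base hK hF h⟩

end Pool07903c
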