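import Pool.Agent.Lib.MP_07903c_al.Spec

/-!
# MP_07903c_al: lemmas on fractions and finite letter sets
-/

namespace Pool07903c

section fr

variable {E E' : Type} [Fintype E] [Fintype E']

theorem fr_nonneg (P : E → Prop) : 0 ≤ fr P := by
  unfold fr
  apply div_nonneg
  · exact Finset.sum_nonneg (fun e _ => by split_ifs <;> norm_num)
  · positivity

theorem fr_mono {P Q : E → Prop} (h : ∀ e, P e → Q e) : fr P ≤ fr Q := by
  unfold fr
  apply div_le_div_of_nonneg_right _ (by positivity)
  apply Finset.sum_le_sum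
  intro e _
  by_cases hp : P e
  · simp [hp, h e hp]
  · simp only [hp, if_false]
    split_ifs <;> norm_num

theorem fr_congr {P Q : E → Prop} (h : ∀ e, P e ↔ Q e) : fr P = fr Q :=
  le_antisymm (fr_mono fun e he => (h e).1 he) (fr_mono fun e he => (h e).2 he)

theorem fr_false : fr (fun _ : E => False) = 0 := by
  simp [fr]

theorem fr_eq_zero {P : E → Prop} (h : ∀ e, ¬ P e) : fr P = 0 := by
  rw [fr_congr (Q := fun _ => False) (fun e => by simp [h e]), fr_false]

theorem fr_true [Nonempty E] : fr (fun _ : E => True) = 1 := by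
  simp [fr]

theorem fr_le_one (P : E → Prop) : fr P ≤ 1 := by
  rcases isEmpty_or_nonempty E with h | h
  · simp [fr]
  · calc fr P ≤ fr (fun _ : E => True) := fr_mono (fun _ _ => trivial)
      _ = 1 := fr_true

theorem fr_or_le (P Q : E → Prop) : fr (fun e => P e ∨ Q e) ≤ fr P + fr Q := by
  unfold fr
  rw [← add_div, ← Finset.sum_add_distrib]
  apply div_le_div_of_nonneg_right _ (by positivity)
  apply Finset.sum_le_sum
  intro e _
  by_cases hp : P e <;> by_cases hq : Q e <;> simp [hp, hq]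

/-- union bound: if `P e` implies `Q e` or `R e` -/
theorem fr_le_add {P Q R : E → Prop} (h : ∀ e, P e → Q e ∨ R e) : fr P ≤ fr Q + fr R :=
  (fr_mono h).trans (fr_or_le Q R)

/-- finite union bound -/
theorem fr_exists_le {ι : Type*} (s : Finset ι) (P : ι → E → Prop) :
    fr (fun e => ∃ i ∈ s, P i e) ≤ ∑ i ∈ s, fr (P i) := by
  classical
  induction s using Finset.induction_on with
  | empty => simp [fr_false]
  | insert a s ha ih =>
    rw [Finset.sum_insert ha]
    refine (fr_le_add (Q := P a) (R := fun e => ∃ i ∈ s, P i e) ?_).trans (by linarith)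
    rintro e ⟨i, hi, h⟩
    rcases Finset.mem_insert.1 hi with rfl | hi
    · exact Or.inl h
    · exact Or.inr ⟨i, hi, h⟩

/-- finite union bound, uniform -/
theorem fr_exists_le_card {ι : Type*} (s : Finset ι) (P : ι → E → Prop) {c : ℝ}
    (h : ∀ i ∈ s, fr (P i) ≤ c) :
    fr (fun e => ∃ i ∈ s, P i e) ≤ s.card * c := by
  refine (fr_exists_le s P).trans ?_
  calc ∑ i ∈ s, fr (P i) ≤ ∑ _i ∈ s, c := Finset.sum_le_sum h
    _ = s.card * c := by rw [Finset.sum_const, nsmul_eq_mul]

/-- if `Q` has fraction `< 1` there is a point outside -/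
theorem exists_not_of_fr_lt_one [Nonempty E] {P : E → Prop} (h : fr P < 1) : ∃ e, ¬ P e := by
  by_contra hc
  push Not at hc
  rw [fr_congr (Q := fun _ => True) (fun e => by simp [hc e]), fr_true] at h
  exact lt_irrefl _ h

open Classical in
theorem fr_equiv (φ : E' ≃ E) (P : E → Prop) : fr (fun e => P (φ e)) = fr P := by
  unfold fr
  rw [Fintype.card_congr φ]
  congr 1
  exact φ.sum_comp (fun e => if P e then (1 : ℝ) else 0)

/-- invariance under a permutation -/
theorem fr_perm (g : Equiv.Perm E) (P : E → Prop) : fr (fun e => P (g e)) = fr P := fr_equiv g P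

open Classical in
theorem fr_fst [Nonempty E'] (P : E → Prop) : fr (fun x : E × E' => P x.1) = fr P := by
  unfold fr
  rw [Fintype.sum_prod_type, Fintype.card_prod]
  have h1 : (Fintype.card E' : ℝ) ≠ 0 := by
    exact_mod_cast Fintype.card_ne_zero
  have h2 : ∀ x : E, (∑ _y : E', if P x then (1 : ℝ) else 0) =
      (Fintype.card E' : ℝ) * (if P x then (1 : ℝ) else 0) := by
    intro x
    rw [Finset.sum_const, Finset.card_univ, nsmul_eq_mul]
  rw [Finset.sum_congr rfl (fun x _ => h2 x), ← Finset.mul_sum, Nat.cast_mul,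
    mul_comm (Fintype.card E : ℝ), mul_div_mul_left _ _ h1]

theorem fr_snd [Nonempty E'] (P : E → Prop) : fr (fun x : E' × E => P x.2) = fr P := by
  rw [← fr_fst (E' := E') P]
  exact fr_equiv (Equiv.prodComm E' E) (fun x : E × E' => P x.1)

/-- fibrewise bound over the second coordinate -/
theorem fr_le_of_fiber [Nonempty E'] {P : E × E' → Prop} {c : ℝ}
    (h : ∀ y, fr (fun x => P (x, y)) ≤ c) : fr P ≤ c := by
  have h1 : (Fintype.card E' : ℝ) ≠ 0 := by
    exact_mod_cast Fintype.card_ne_zero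
  have h1' : (0 : ℝ) < Fintype.card E' := by
    exact_mod_cast Fintype.card_pos
  have hkey : fr P = (∑ y, fr (fun x => P (x, y))) / Fintype.card E' := by
    unfold fr
    rw [Fintype.sum_prod_type_right, Fintype.card_prod, ← Finset.sum_div, div_div]
    push_cast
    ring
  rw [hkey, div_le_iff₀ h1']
  calc ∑ y, fr (fun x => P (x, y)) ≤ ∑ _y : E', c := Finset.sum_le_sum (fun y _ => h y)
    _ = c * Fintype.card E' := by simp [mul_comm]

/-- fibrewise bound over the second coordinate with a set of exceptional fibres -/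
theorem fr_le_of_fiber_add [Nonempty E'] {P : E × E' → Prop} {J : E' → Prop} {c : ℝ} (hc : 0 ≤ c)
    (h : ∀ y, ¬ J y → fr (fun x => P (x, y)) ≤ c) : fr P ≤ c + fr J := by
  classical
  rcases isEmpty_or_nonempty E with hE | hE
  · have : fr P = 0 := fr_eq_zero (fun e => (hE.false e.1).elim)
    rw [this]
    exact add_nonneg hc (fr_nonneg J)
  have h1 : fr P ≤ fr (fun x : E × E' => ¬ J x.2 ∧ P x) + fr (fun x : E × E' => J x.2) := by
    apply fr_le_add
    intro e he
    by_cases hJ : J e.2
    · exact Or.inr hJ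
    · exact Or.inl ⟨hJ, he⟩
  rw [fr_snd (E' := E) J] at h1
  have h2 : fr (fun x : E × E' => ¬ J x.2 ∧ P x) ≤ c := by
    apply fr_le_of_fiber
    intro y
    by_cases hJ : J y
    · rw [fr_eq_zero (fun e => by simp [hJ])]
      exact hc
    · exact (fr_mono fun e he => he.2).trans (h y hJ)
  linarith

/-- evaluation at a coordinate -/
theorem fr_eval {I : Type} [Fintype I] [DecidableEq I] [Nonempty E] (i : I) (P : E → Prop) :
    fr (fun x : I → E => P (x i)) = fr P := by
  rw [← fr_fst (E' := {j // j ≠ i} → E) P]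
  have := fr_equiv (Equiv.funSplitAt i E) (fun y : E × ({j // j ≠ i} → E) => P y.1)
  rw [← this]
  apply fr_congr
  intro x
  simp [Equiv.funSplitAt]

open Classical in
/-- the complement -/
theorem fr_not [Nonempty E] (P : E → Prop) : fr (fun e => ¬ P e) = 1 - fr P := by
  unfold fr
  have h1 : (Fintype.card E : ℝ) ≠ 0 := by
    exact_mod_cast Fintype.card_ne_zero
  rw [eq_sub_iff_add_eq, ← add_div, ← Finset.sum_add_distrib, div_eq_one_iff_eq h1]
  have h2 : (Fintype.card E : ℝ) = ∑ _e : E, (1 : ℝ) := by simp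
  rw [h2]
  apply Finset.sum_congr rfl
  intro e _
  by_cases hp : P e <;> simp [hp]

/-- `fr` as a cardinality of a filter -/
theorem fr_eq_card (P : E → Prop) [DecidablePred P] :
    fr P = ((Finset.univ.filter P).card : ℝ) / Fintype.card E := by
  unfold fr
  congr 1
  rw [Finset.card_filter]
  push_cast
  apply Finset.sum_congr rfl
  intro e _
  by_cases hp : P e <;> simp [hp]

end fr

section FSet

variable {Λ : Type}

theorem FSet.ev_of (X : FSet Λ) (a : Λ) : X.ev (FreeGroup.of a) = X.act a := by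
  simp [FSet.ev]

theorem FSet.ev_mk_single (X : FSet Λ) (a : Λ) (b : Bool) :
    X.ev (FreeGroup.mk [(a, b)]) = if b then X.act a else (X.act a)⁻¹ := by
  cases b
  · have : (FreeGroup.mk [(a, false)]) = (FreeGroup.of a)⁻¹ := by
      simp [FreeGroup.of, FreeGroup.inv_mk, FreeGroup.invRev]
    rw [this, map_inv, FSet.ev_of]
    simp
  · have : (FreeGroup.mk [(a, true)]) = FreeGroup.of a := rfl
    rw [this, FSet.ev_of]
    simp

theorem FSet.ev_cons (X : FSet Λ) (a : Λ) (b : Bool) (L : List (Λ × Bool)) :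
    X.ev (FreeGroup.mk ((a, b) :: L)) =
      (if b then X.act a else (X.act a)⁻¹) * X.ev (FreeGroup.mk L) := by
  have : FreeGroup.mk ((a, b) :: L) = FreeGroup.mk [(a, b)] * FreeGroup.mk L := by
    rw [FreeGroup.mul_mk]; rfl
  rw [this, map_mul, FSet.ev_mk_single]

/-- induction principle for words in the letters of `S` -/
theorem words_induction {S : Set Λ} {p : FreeGroup Λ → Prop} (h1 : p 1)
    (hof : ∀ a ∈ S, p (FreeGroup.of a)) (hmul : ∀ u v, p u → p v → p (u * v))
    (hinv : ∀ u, p u → p u⁻¹) : ∀ u ∈ words S, p u := by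
  intro u hu
  unfold words at hu
  induction hu using Subgroup.closure_induction with
  | mem x hx =>
    obtain ⟨a, ha, rfl⟩ := hx
    exact hof a ha
  | one => exact h1
  | mul x y _ _ hx hy => exact hmul x y hx hy
  | inv x _ hx => exact hinv x hx

/-- two homs which agree on the letters of `S` agree on the words in `S` -/
theorem hom_eq_of_words {G : Type*} [Group G] {S : Set Λ} (φ ψ : FreeGroup Λ →* G)
    (h : ∀ a ∈ S, φ (FreeGroup.of a) = ψ (FreeGroup.of a)) : ∀ u ∈ words S, φ u = ψ u :=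
  words_induction (by simp) h (fun u v hu hv => by simp [hu, hv]) (fun u hu => by simp [hu])

/-- actions which agree on the letters of `S` agree on the words in `S` -/
theorem ev_eq_of_words (X : FSet Λ) (π : Λ → Equiv.Perm X.E) {S : Set Λ}
    (h : ∀ a ∈ S, π a = X.act a) : ∀ u ∈ words S, (X.withAct π).ev u = X.ev u :=
  hom_eq_of_words (X.withAct π).ev X.ev (fun a ha => by
    rw [FSet.ev_of, FSet.ev_of]; exact h a ha)

theorem ev_prod (X Y : FSet Λ) (u : FreeGroup Λ) (x : X.E) (y : Y.E) :
    (X.prod Y).ev u (x, y) = (X.ev u x, Y.ev u y) := by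
  induction u using FreeGroup.induction_on generalizing x y with
  | C1 => simp
  | of a => rw [FSet.ev_of, FSet.ev_of, FSet.ev_of]; rfl
  | inv_of a ih =>
    rw [map_inv, map_inv, map_inv]
    rw [Equiv.Perm.inv_eq_iff_eq, ih]
    simp
  | mul u v hu hv =>
    rw [map_mul, map_mul, map_mul, Equiv.Perm.mul_apply, hv, hu]
    rfl

theorem ev_pow (X : FSet Λ) (I : Type) [Fintype I] (u : FreeGroup Λ) (x : I → X.E) :
    (X.pow I).ev u x = fun i => X.ev u (x i) := by
  induction u using FreeGroup.induction_on generalizing x with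
  | C1 => simp
  | of a => rw [FSet.ev_of, FSet.ev_of]; rfl
  | inv_of a ih =>
    rw [map_inv, map_inv]
    rw [Equiv.Perm.inv_eq_iff_eq, ih]
    simp
  | mul u v hu hv =>
    rw [map_mul, map_mul, Equiv.Perm.mul_apply, hv, hu]
    rfl

theorem bad_nonneg (X : FSet Λ) (u : FreeGroup Λ) : 0 ≤ X.bad u := fr_nonneg _

theorem bad_one (X : FSet Λ) : X.bad 1 = 0 := by
  unfold FSet.bad
  exact fr_eq_zero (fun e => by simp)

theorem bad_mul (X : FSet Λ) (u v : FreeGroup Λ) : X.bad (u * v) ≤ X.bad u + X.bad v := by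
  unfold FSet.bad
  refine (fr_le_add (Q := fun e => X.ev u e ≠ e) (R := fun e => X.ev v e ≠ e) ?_)
  intro e he
  by_contra hc
  push Not at hc
  apply he
  rw [map_mul, Equiv.Perm.mul_apply, hc.2, hc.1]

theorem bad_inv (X : FSet Λ) (u : FreeGroup Λ) : X.bad u⁻¹ = X.bad u := by
  unfold FSet.bad
  apply fr_congr
  intro e
  rw [map_inv, Ne, Ne, not_iff_not, Equiv.Perm.inv_eq_iff_eq, eq_comm]

theorem bad_conj (X : FSet Λ) (g u : FreeGroup Λ) : X.bad (g * u * g⁻¹) = X.bad u := by
  unfold FSet.bad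
  rw [← fr_perm (X.ev g)⁻¹ (fun e => X.ev u e ≠ e)]
  apply fr_congr
  intro e
  rw [map_mul, map_mul, map_inv, Ne, Ne, not_iff_not, Equiv.Perm.mul_apply, Equiv.Perm.mul_apply]
  constructor
  · intro h
    apply (X.ev g).injective
    rw [h]; simp
  · intro h
    rw [h]; simp

theorem bad_prod_le (X Y : FSet Λ) (u : FreeGroup Λ) :
    (X.prod Y).bad u ≤ X.bad u + Y.bad u := by
  unfold FSet.bad
  have h1 : fr (fun x : X.E × Y.E => X.ev u x.1 ≠ x.1) = fr (fun e : X.E => X.ev u e ≠ e) :=
    fr_fst (fun e : X.E => X.ev u e ≠ e)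
  have h2 : fr (fun x : X.E × Y.E => Y.ev u x.2 ≠ x.2) = fr (fun e : Y.E => Y.ev u e ≠ e) :=
    fr_snd (fun e : Y.E => Y.ev u e ≠ e)
  rw [← h1, ← h2]
  refine fr_le_add (E := X.E × Y.E) ?_
  rintro ⟨x, y⟩ he
  by_contra hc
  push Not at hc
  apply he
  have := ev_prod X Y u x y
  rw [this]
  exact Prod.ext hc.1 hc.2

theorem bad_pow_le (X : FSet Λ) (I : Type) [Fintype I] (u : FreeGroup Λ) :
    (X.pow I).bad u ≤ Fintype.card I * X.bad u := by
  classical
  have h1 : (X.pow I).bad u ≤ fr (E := (X.pow I).E)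
      (fun x => ∃ i ∈ (Finset.univ : Finset I), X.ev u (x i) ≠ x i) := by
    apply fr_mono
    intro x hx
    by_contra hc
    push Not at hc
    apply hx
    rw [ev_pow]
    funext i
    exact hc i (Finset.mem_univ i)
  refine h1.trans ?_
  refine (fr_exists_le_card (Finset.univ : Finset I)
    (fun i (x : (X.pow I).E) => X.ev u (x i) ≠ x i) (c := X.bad u) ?_).trans (by simp)
  intro i _
  have := fr_eval (E := X.E) (I := I) i (fun e => X.ev u e ≠ e)
  unfold FSet.bad
  rw [← this]

/-- the elements of the normal closure are bad on a controlled proportion of points: for `ρ` in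
`normalClosure R` there is a constant `n` with `bad ρ ≤ n ε` whenever `R` is `ε`-good -/
theorem bad_normalClosure {R : Set (FreeGroup Λ)} {ρ : FreeGroup Λ}
    (h : ρ ∈ Subgroup.normalClosure R) :
    ∃ n : ℕ, ∀ (X : FSet Λ) (ε : ℝ), 0 ≤ ε → (∀ r ∈ R, X.bad r ≤ ε) → X.bad ρ ≤ n * ε := by
  unfold Subgroup.normalClosure at h
  induction h using Subgroup.closure_induction with
  | mem x hx =>
    obtain ⟨r, hr, hconj⟩ := Group.mem_conjugatesOfSet_iff.1 hx
    obtain ⟨g, rfl⟩ := isConj_iff.1 hconj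
    refine ⟨1, fun X ε _ h => ?_⟩
    rw [bad_conj]
    simpa using h r hr
  | one => exact ⟨0, fun X ε _ _ => by rw [bad_one]; simp⟩
  | mul x y _ _ hx hy =>
    obtain ⟨n, hn⟩ := hx
    obtain ⟨m, hm⟩ := hy
    refine ⟨n + m, fun X ε hε h => ?_⟩
    have := hn X ε hε h
    have := hm X ε hε h
    have := bad_mul X x y
    push_cast
    linarith
  | inv x _ hx =>
    obtain ⟨n, hn⟩ := hx
    exact ⟨n, fun X ε hε h => by rw [bad_inv]; exact hn X ε hε h⟩

theorem mem_mag {R : Set (FreeGroup Λ)} {T : Set Λ} {u : FreeGroup Λ} :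
    u ∈ mag R T ↔ ∃ v ∈ words T, ∃ ρ ∈ Subgroup.normalClosure R, v * ρ = u := by
  unfold mag
  rw [Subgroup.mem_sup_of_normal_right]

theorem words_mono {S T : Set Λ} (h : S ⊆ T) : words S ≤ words T :=
  Subgroup.closure_mono (Set.image_mono h)

theorem words_univ : words (Set.univ : Set Λ) = ⊤ := by
  unfold words
  rw [Set.image_univ]
  exact FreeGroup.closure_range_of Λ

open Classical in
/-- the retraction killing the letters of `D` -/
noncomputable def kill (D : Set Λ) : FreeGroup Λ →* FreeGroup Λ :=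
  FreeGroup.lift (fun a => if a ∈ D then 1 else FreeGroup.of a)

theorem kill_of_mem {D : Set Λ} {a : Λ} (h : a ∈ D) : kill D (FreeGroup.of a) = 1 := by
  simp [kill, h]

theorem kill_of_notMem {D : Set Λ} {a : Λ} (h : a ∉ D) :
    kill D (FreeGroup.of a) = FreeGroup.of a := by
  simp [kill, h]

theorem kill_words {D S : Set Λ} (h : ∀ a ∈ S, a ∉ D) : ∀ u ∈ words S, kill D u = u :=
  words_induction (by simp) (fun a ha => kill_of_notMem (h a ha))
    (fun u v hu hv => by rw [map_mul, hu, hv]) (fun u hu => by rw [map_inv, hu])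

theorem kill_words_mem {D S : Set Λ} : ∀ u ∈ words S, kill D u ∈ words (S \ D) := by
  apply words_induction
  · simp
  · intro a ha
    by_cases h : a ∈ D
    · rw [kill_of_mem h]; exact Subgroup.one_mem _
    · rw [kill_of_notMem h]
      exact Subgroup.subset_closure ⟨a, ⟨ha, h⟩, rfl⟩
  · intro u v hu hv
    rw [map_mul]; exact Subgroup.mul_mem _ hu hv
  · intro u hu
    rw [map_inv]; exact Subgroup.inv_mem _ hu

theorem kill_normalClosure {D : Set Λ} {R : Set (FreeGroup Λ)} (hR : R ⊆ words Dᶜ) :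
    ∀ u ∈ Subgroup.normalClosure R, kill D u ∈ Subgroup.normalClosure R := by
  have h : Subgroup.normalClosure R ≤ (Subgroup.normalClosure R).comap (kill D) := by
    apply Subgroup.normalClosure_le_normal
    intro r hr
    have h1 : kill D r = r := kill_words (fun a ha => ha) r (hR hr)
    show kill D r ∈ Subgroup.normalClosure R
    rw [h1]
    exact Subgroup.subset_normalClosure hr
  exact fun u hu => h hu

/-- the basic retraction argument: `u` without letters of `D`, `R` without letters of `D`;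
if `u ∈ ⟨T⟩⟨⟨R⟩⟩` then `u ∈ ⟨T ∖ D⟩⟨⟨R⟩⟩` -/
theorem mem_mag_diff {D T : Set Λ} {R : Set (FreeGroup Λ)} (hR : R ⊆ words Dᶜ)
    {u : FreeGroup Λ} (hu : u ∈ words Dᶜ) (h : u ∈ mag R T) : u ∈ mag R (T \ D) := by
  obtain ⟨v, hv, ρ, hρ, rfl⟩ := mem_mag.1 h
  rw [← kill_words (D := D) (S := Dᶜ) (fun a ha => ha) _ hu, map_mul]
  exact mem_mag.2 ⟨kill D v, kill_words_mem v hv, kill D ρ, kill_normalClosure hR ρ hρ, rfl⟩

theorem mag_mono {R R' : Set (FreeGroup Λ)} {T T' : Set Λ} (hR : R ⊆ R') (hT : T ⊆ T') :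
    mag R T ≤ mag R' T' :=
  sup_le_sup (words_mono hT) (Subgroup.normalClosure_mono hR)

end FSet

end Pool07903c
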