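import Pool.Agent.Lib.MP_07903c_al.Spec

/-!
# MP_07903c_al, module Chain: amalgamation along a chain of relators
-/

set_option autoImplicit false

namespace Pool07903c

namespace Chain

/-! ## Fractions -/

section Fractions

variable {E E' : Type} [Fintype E] [Fintype E']

theorem fr_nonneg (P : E → Prop) : 0 ≤ fr P := by
  unfold fr
  refine div_nonneg (Finset.sum_nonneg fun e _ => ?_) (Nat.cast_nonneg _)
  split_ifs <;> norm_num

theorem fr_mono {P Q : E → Prop} (h : ∀ e, P e → Q e) : fr P ≤ fr Q := by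
  unfold fr
  refine div_le_div_of_nonneg_right (Finset.sum_le_sum fun e _ => ?_) (Nat.cast_nonneg _)
  by_cases hP : P e
  · rw [if_pos hP, if_pos (h e hP)]
  · rw [if_neg hP]
    split_ifs <;> norm_num

theorem fr_or (P Q : E → Prop) : fr (fun e => P e ∨ Q e) ≤ fr P + fr Q := by
  unfold fr
  rw [← add_div, ← Finset.sum_add_distrib]
  refine div_le_div_of_nonneg_right (Finset.sum_le_sum fun e _ => ?_) (Nat.cast_nonneg _)
  by_cases hP : P e <;> by_cases hQ : Q e <;> simp [hP, hQ]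

theorem fr_false : fr (fun _ : E => False) = 0 := by
  simp [fr]

theorem fr_exists {I : Type} (s : Finset I) (P : I → E → Prop) :
    fr (fun e => ∃ i ∈ s, P i e) ≤ ∑ i ∈ s, fr (P i) := by
  classical
  induction s using Finset.induction_on with
  | empty => simp [fr]
  | insert a s ha ih =>
    rw [Finset.sum_insert ha]
    refine le_trans (fr_mono (Q := fun e => P a e ∨ ∃ i ∈ s, P i e) ?_) ?_
    · rintro e ⟨i, hi, hP⟩
      rcases Finset.mem_insert.1 hi with rfl | hi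
      · exact Or.inl hP
      · exact Or.inr ⟨i, hi, hP⟩
    · exact le_trans (fr_or _ _) (by gcongr)

theorem fr_equiv (σ : E ≃ E') (P : E' → Prop) : fr (fun e => P (σ e)) = fr P := by
  unfold fr
  rw [Fintype.card_congr σ]
  congr 1
  exact Equiv.sum_comp σ (fun e => @ite ℝ (P e) (Classical.propDecidable (P e)) 1 0)

theorem fr_fst [Nonempty E'] (P : E → Prop) : fr (fun x : E × E' => P x.1) = fr P := by
  unfold fr
  rw [Fintype.sum_prod_type, Fintype.card_prod]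
  have h0 : (Fintype.card E' : ℝ) ≠ 0 := by
    exact_mod_cast Fintype.card_ne_zero
  have h1 : (∑ x : E, ∑ y : E', @ite ℝ (P (x, y).1) (Classical.propDecidable (P (x, y).1)) 1 0) =
      (Fintype.card E' : ℝ) * ∑ x : E, @ite ℝ (P x) (Classical.propDecidable (P x)) 1 0 := by
    rw [Finset.mul_sum]
    refine Finset.sum_congr rfl fun x _ => ?_
    rw [← nsmul_eq_mul, ← Finset.card_univ, ← Finset.sum_const]
  rw [h1, Nat.cast_mul, mul_comm (Fintype.card E : ℝ), mul_div_mul_left _ _ h0]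

theorem fr_snd [Nonempty E] (P : E' → Prop) : fr (fun x : E × E' => P x.2) = fr P := by
  rw [← fr_fst (E := E') (E' := E) P, ← fr_equiv (Equiv.prodComm E E')]
  rfl

omit [Fintype E] in
theorem fr_inst {P : E → Prop} (i1 i2 : Fintype E) : @fr E i1 P = @fr E i2 P := by
  have : i1 = i2 := Subsingleton.elim _ _
  rw [this]

theorem fr_pi {I : Type} [Fintype I] [Nonempty E] [Fintype (I → E)] (i : I) (P : E → Prop) :
    fr (fun x : I → E => P (x i)) = fr P := by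
  classical
  have h := fr_equiv (Equiv.funSplitAt i E) (fun x => P x.1)
  rw [fr_fst] at h
  rw [← h]
  rfl

end Fractions

/-! ## Evaluation of words -/

section Words

variable {Λ : Type}

theorem ev_of (X : FSet Λ) (a : Λ) : X.ev (FreeGroup.of a) = X.act a := by
  simp [FSet.ev]

theorem ev_mul_apply (X : FSet Λ) (u v : FreeGroup Λ) (e : X.E) :
    X.ev (u * v) e = X.ev u (X.ev v e) := by
  rw [map_mul]
  rfl

theorem ev_inv_apply (X : FSet Λ) (u : FreeGroup Λ) (e : X.E) :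
    X.ev u (X.ev u⁻¹ e) = e := by
  rw [← ev_mul_apply, mul_inv_cancel, map_one]
  rfl

theorem ev_inv_apply' (X : FSet Λ) (u : FreeGroup Λ) (e : X.E) :
    X.ev u⁻¹ (X.ev u e) = e := by
  rw [← ev_mul_apply, inv_mul_cancel, map_one]
  rfl

theorem ev_semiconj {S : Set Λ} (X Y : FSet Λ) (p : Y.E → X.E)
    (h : ∀ a ∈ S, ∀ y, p (Y.act a y) = X.act a (p y)) :
    ∀ u ∈ words S, ∀ y, p (Y.ev u y) = X.ev u (p y) := by
  intro u hu
  refine Subgroup.closure_induction (p := fun u _ => ∀ y, p (Y.ev u y) = X.ev u (p y))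
    ?_ ?_ ?_ ?_ hu
  · rintro _ ⟨a, ha, rfl⟩ y
    rw [ev_of, ev_of]
    exact h a ha y
  · intro y
    rw [map_one, map_one]
    rfl
  · intro u v _ _ hu hv y
    rw [ev_mul_apply, ev_mul_apply, hu, hv]
  · intro u _ hu y
    have h1 := hu (Y.ev u⁻¹ y)
    rw [ev_inv_apply] at h1
    rw [h1, ev_inv_apply']

theorem words_univ (u : FreeGroup Λ) : u ∈ words (Set.univ : Set Λ) := by
  unfold words
  rw [Set.image_univ, FreeGroup.closure_range_of]
  exact Subgroup.mem_top u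

theorem label_inv {B : Type} {S : Set Λ} (X : FSet Λ) (f : X.E → B)
    (h : ∀ a ∈ S, ∀ e, f (X.act a e) = f e) : ∀ u ∈ words S, ∀ e, f (X.ev u e) = f e := by
  intro u hu
  refine Subgroup.closure_induction (p := fun u _ => ∀ y, f (X.ev u y) = f y)
    ?_ ?_ ?_ ?_ hu
  · rintro _ ⟨a, ha, rfl⟩ y
    rw [ev_of]
    exact h a ha y
  · intro y
    rw [map_one]
    rfl
  · intro u v _ _ hu hv y
    rw [ev_mul_apply, hu, hv]
  · intro u _ hu y
    have h1 := hu (X.ev u⁻¹ y)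
    rw [ev_inv_apply] at h1
    exact h1.symm

/-! ## Moved points -/

theorem bad_nonneg (X : FSet Λ) (u : FreeGroup Λ) : 0 ≤ X.bad u := fr_nonneg _

theorem bad_one (X : FSet Λ) : X.bad 1 = 0 := by
  unfold FSet.bad
  rw [← fr_false (E := X.E)]
  congr 1
  funext e
  simp

theorem bad_mul (X : FSet Λ) (u v : FreeGroup Λ) : X.bad (u * v) ≤ X.bad u + X.bad v := by
  unfold FSet.bad
  refine le_trans (fr_mono (Q := fun e => X.ev u e ≠ e ∨ X.ev v e ≠ e) ?_) (fr_or _ _)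
  intro e he
  by_contra hc
  push Not at hc
  rw [ev_mul_apply, hc.2, hc.1] at he
  exact he rfl

theorem bad_inv (X : FSet Λ) (u : FreeGroup Λ) : X.bad u⁻¹ = X.bad u := by
  unfold FSet.bad
  congr 1
  funext e
  refine propext (not_congr ⟨fun h => ?_, fun h => ?_⟩)
  · have := congrArg (X.ev u) h
    rw [ev_inv_apply] at this
    exact this.symm
  · have := congrArg (X.ev u⁻¹) h
    rw [ev_inv_apply'] at this
    exact this.symm

theorem bad_conj (X : FSet Λ) (g u : FreeGroup Λ) : X.bad (g * u * g⁻¹) = X.bad u := by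
  unfold FSet.bad
  rw [← fr_equiv (X.ev g)]
  congr 1
  funext e
  rw [ev_mul_apply, ev_inv_apply', ev_mul_apply]
  exact propext (not_congr (X.ev g).injective.eq_iff)

theorem bad_normalClosure (R : Set (FreeGroup Λ)) (ρ : FreeGroup Λ)
    (hρ : ρ ∈ Subgroup.normalClosure R) :
    ∃ C : ℝ, 0 ≤ C ∧ ∀ (X : FSet Λ) (ε : ℝ), 0 ≤ ε → (∀ r ∈ R, X.bad r ≤ ε) →
      X.bad ρ ≤ C * ε := by
  refine Subgroup.closure_induction (p := fun ρ _ => ∃ C : ℝ, 0 ≤ C ∧ ∀ (X : FSet Λ) (ε : ℝ),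
    0 ≤ ε → (∀ r ∈ R, X.bad r ≤ ε) → X.bad ρ ≤ C * ε) ?_ ?_ ?_ ?_ hρ
  · intro x hx
    obtain ⟨r, hr, hc⟩ := Group.mem_conjugatesOfSet_iff.1 hx
    obtain ⟨g, rfl⟩ := isConj_iff.1 hc
    refine ⟨1, zero_le_one, fun X ε _ h => ?_⟩
    rw [bad_conj, one_mul]
    exact h r hr
  · refine ⟨0, le_refl _, fun X ε _ _ => ?_⟩
    rw [bad_one, zero_mul]
  · rintro u v _ _ ⟨C, hC, hu⟩ ⟨C', hC', hv⟩
    refine ⟨C + C', add_nonneg hC hC', fun X ε hε h => ?_⟩
    have h1 := bad_mul X u v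
    have h2 := hu X ε hε h
    have h3 := hv X ε hε h
    rw [add_mul]
    linarith
  · rintro u _ ⟨C, hC, hu⟩
    refine ⟨C, hC, fun X ε hε h => ?_⟩
    rw [bad_inv]
    exact hu X ε hε h

theorem bad_congr (X Y : FSet Λ) (Ψ : X.E ≃ Y.E)
    (h : ∀ a x, Ψ (X.act a x) = Y.act a (Ψ x)) (u : FreeGroup Λ) : X.bad u = Y.bad u := by
  have h1 : ∀ x, Ψ (X.ev u x) = Y.ev u (Ψ x) :=
    ev_semiconj (S := Set.univ) Y X Ψ (fun a _ x => h a x) u (words_univ u)
  unfold FSet.bad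
  rw [← fr_equiv Ψ]
  congr 1
  funext e
  rw [← h1]
  exact propext (not_congr Ψ.injective.eq_iff.symm)

theorem bad_prod (X Y : FSet Λ) (u : FreeGroup Λ) : (X.prod Y).bad u ≤ X.bad u + Y.bad u := by
  have h1 : ∀ z : (X.prod Y).E, ((X.prod Y).ev u z).1 = X.ev u z.1 :=
    ev_semiconj (S := Set.univ) X (X.prod Y) Prod.fst (fun a _ x => rfl) u (words_univ u)
  have h2 : ∀ z : (X.prod Y).E, ((X.prod Y).ev u z).2 = Y.ev u z.2 :=
    ev_semiconj (S := Set.univ) Y (X.prod Y) Prod.snd (fun a _ x => rfl) u (words_univ u)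
  have h3 : X.bad u = fr (fun z : X.E × Y.E => X.ev u z.1 ≠ z.1) :=
    (fr_fst (fun e : X.E => X.ev u e ≠ e)).symm
  have h4 : Y.bad u = fr (fun z : X.E × Y.E => Y.ev u z.2 ≠ z.2) :=
    (fr_snd (fun e : Y.E => Y.ev u e ≠ e)).symm
  rw [h3, h4]
  refine le_trans (fr_mono ?_) (fr_or _ _)
  intro z hz
  by_contra hc
  push Not at hc
  refine hz (Prod.ext ?_ ?_)
  · rw [h1]
    exact hc.1
  · rw [h2]
    exact hc.2

theorem bad_powprod (X Z : FSet Λ) (I : Type) [Fintype I] {S : Set Λ}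
    (π : Λ → Equiv.Perm ((X.pow I).prod Z).E)
    (hπ : ∀ s ∈ S, π s = ((X.pow I).prod Z).act s) (r : FreeGroup Λ) (hr : r ∈ words S) :
    (((X.pow I).prod Z).withAct π).bad r ≤ Fintype.card I * X.bad r + Z.bad r := by
  classical
  set Y : FSet Λ := ((X.pow I).prod Z).withAct π with hY
  have h1 : ∀ i : I, ∀ z : Y.E, (Y.ev r z).1 i = X.ev r (z.1 i) := fun i =>
    ev_semiconj (S := S) X Y (fun z : Y.E => z.1 i)
      (fun a ha z => by
        show (π a z).1 i = X.act a (z.1 i)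
        rw [hπ a ha]
        rfl) r hr
  have h2 : ∀ z : Y.E, (Y.ev r z).2 = Z.ev r z.2 :=
    ev_semiconj (S := S) Z Y (fun z : Y.E => z.2)
      (fun a ha z => by
        show (π a z).2 = Z.act a z.2
        rw [hπ a ha]
        rfl) r hr
  have h3 : ∀ i : I, X.bad r = fr (fun z : (X.pow I).E × Z.E => X.ev r (z.1 i) ≠ z.1 i) := by
    intro i
    refine Eq.trans ?_ (fr_fst (E := (X.pow I).E) (E' := Z.E)
      (fun x : (X.pow I).E => X.ev r (x i) ≠ x i)).symm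
    let _ : Fintype (I → X.E) := (X.pow I).ft
    exact (fr_pi (E := X.E) (I := I) i (fun e => X.ev r e ≠ e)).symm
  have h4 : Z.bad r = fr (fun z : (X.pow I).E × Z.E => Z.ev r z.2 ≠ z.2) :=
    (fr_snd (E := (X.pow I).E) (fun e : Z.E => Z.ev r e ≠ e)).symm
  have h5 : (Fintype.card I : ℝ) * X.bad r =
      ∑ i : I, fr (fun z : (X.pow I).E × Z.E => X.ev r (z.1 i) ≠ z.1 i) := by
    rw [← Finset.sum_congr rfl (fun i _ => h3 i), Finset.sum_const, Finset.card_univ,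
      nsmul_eq_mul]
  rw [h5, h4]
  refine le_trans (fr_mono (Q := fun z : (X.pow I).E × Z.E =>
    (∃ i ∈ (Finset.univ : Finset I), X.ev r (z.1 i) ≠ z.1 i) ∨ Z.ev r z.2 ≠ z.2) ?_)
    (le_trans (fr_or _ _) (add_le_add (fr_exists _ _) le_rfl))
  intro z hz
  by_contra hc
  push Not at hc
  refine hz (Prod.ext ?_ ?_)
  · funext i
    rw [h1]
    exact hc.1 i (Finset.mem_univ i)
  · rw [h2]
    exact hc.2

end Words

/-! ## The retraction onto the words in some letters -/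

section Retraction

variable {Λ : Type}

theorem words_mono {S T : Set Λ} (h : S ⊆ T) : words S ≤ words T :=
  Subgroup.closure_mono (Set.image_mono h)

open Classical in
/-- the letters outside `S` are killed -/
noncomputable def ret (S : Set Λ) : FreeGroup Λ →* FreeGroup Λ :=
  FreeGroup.lift (fun a => if a ∈ S then FreeGroup.of a else 1)

theorem ret_of (S : Set Λ) (a : Λ) (h : a ∈ S) : ret S (FreeGroup.of a) = FreeGroup.of a := by
  simp [ret, h]

theorem ret_of' (S : Set Λ) (a : Λ) (h : a ∉ S) : ret S (FreeGroup.of a) = 1 := by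
  simp [ret, h]

theorem ret_fix (S : Set Λ) (u : FreeGroup Λ) (hu : u ∈ words S) : ret S u = u := by
  refine Subgroup.closure_induction (p := fun u _ => ret S u = u) ?_ ?_ ?_ ?_ hu
  · rintro _ ⟨a, ha, rfl⟩
    exact ret_of S a ha
  · exact map_one _
  · intro u v _ _ hu hv
    rw [map_mul, hu, hv]
  · intro u _ hu
    rw [map_inv, hu]

theorem ret_words (S T : Set Λ) (u : FreeGroup Λ) (hu : u ∈ words T) :
    ret S u ∈ words (T ∩ S) := by
  refine Subgroup.closure_induction (p := fun u _ => ret S u ∈ words (T ∩ S)) ?_ ?_ ?_ ?_ hu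
  · rintro _ ⟨a, ha, rfl⟩
    by_cases h : a ∈ S
    · rw [ret_of S a h]
      exact Subgroup.subset_closure ⟨a, ⟨ha, h⟩, rfl⟩
    · rw [ret_of' S a h]
      exact Subgroup.one_mem _
  · rw [map_one]
    exact Subgroup.one_mem _
  · intro u v _ _ hu hv
    rw [map_mul]
    exact Subgroup.mul_mem _ hu hv
  · intro u _ hu
    rw [map_inv]
    exact Subgroup.inv_mem _ hu

theorem words_inter (S T : Set Λ) (u : FreeGroup Λ) (hS : u ∈ words S) (hT : u ∈ words T) :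
    u ∈ words (T ∩ S) := by
  rw [← ret_fix S u hS]
  exact ret_words S T u hT

theorem mem_mag {R : Set (FreeGroup Λ)} {T : Set Λ} {u : FreeGroup Λ} :
    u ∈ mag R T ↔ ∃ v ∈ words T, ∃ ρ ∈ Subgroup.normalClosure R, v * ρ = u :=
  Subgroup.mem_sup_of_normal_right

theorem mag_mono {R R' : Set (FreeGroup Λ)} {T T' : Set Λ} (hR : R ⊆ R') (hT : T ⊆ T') :
    mag R T ≤ mag R' T' :=
  sup_le_sup (words_mono hT) (Subgroup.normalClosure_mono hR)

theorem ret_normalClosure (S : Set Λ) (R : Set (FreeGroup Λ)) (hR : R ⊆ words S)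
    (ρ : FreeGroup Λ) (hρ : ρ ∈ Subgroup.normalClosure R) :
    ret S ρ ∈ Subgroup.normalClosure R := by
  refine Subgroup.closure_induction (p := fun ρ _ => ret S ρ ∈ Subgroup.normalClosure R)
    ?_ ?_ ?_ ?_ hρ
  · intro x hx
    obtain ⟨r, hr, hc⟩ := Group.mem_conjugatesOfSet_iff.1 hx
    obtain ⟨g, rfl⟩ := isConj_iff.1 hc
    rw [map_mul, map_mul, map_inv, ret_fix S r (hR hr)]
    exact Subgroup.normalClosure_normal.conj_mem _ (Subgroup.subset_normalClosure hr) _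
  · rw [map_one]
    exact Subgroup.one_mem _
  · intro u v _ _ hu hv
    rw [map_mul]
    exact Subgroup.mul_mem _ hu hv
  · intro u _ hu
    rw [map_inv]
    exact Subgroup.inv_mem _ hu

theorem ret_mag (S T : Set Λ) (R : Set (FreeGroup Λ)) (hR : R ⊆ words S)
    (u : FreeGroup Λ) (hu : u ∈ words S) (h : u ∈ mag R T) : u ∈ mag R (T ∩ S) := by
  obtain ⟨v, hv, ρ, hρ, rfl⟩ := mem_mag.1 h
  rw [← ret_fix S _ hu, map_mul]
  exact mem_mag.2 ⟨_, ret_words S T v hv, _, ret_normalClosure S R hR ρ hρ, rfl⟩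

theorem words_finite {η : ℕ → Λ} {u : FreeGroup Λ} (N : ℕ)
    (h : ∀ i, i < N → u ∈ words {η i}ᶜ) : u ∈ words (η '' Set.Iio N)ᶜ := by
  induction N with
  | zero =>
    have h0 : (η '' Set.Iio 0)ᶜ = Set.univ := by
      simp
    rw [h0]
    exact words_univ u
  | succ N ih =>
    refine words_mono ?_ (words_inter _ _ u (h N (Nat.lt_succ_self N))
      (ih fun i hi => h i (Nat.lt_succ_of_lt hi)))
    rintro a ⟨ha, hb⟩ ⟨i, hi, rfl⟩
    rcases Nat.lt_succ_iff_lt_or_eq.1 hi with hi | rfl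
    · exact ha ⟨i, hi, rfl⟩
    · exact hb rfl

end Retraction

/-! ## Extension of models -/

section Steps

variable {Λ : Type}

theorem extend_model {R₁ R₂ : Set (FreeGroup Λ)} {D₂ : Set Λ}
    (hR₁ : R₁ ⊆ words D₂ᶜ) (hE : ExtTo R₁ R₂ D₂) (ε : ℝ) (hε : 0 < ε) :
    ∃ δ : ℝ, 0 < δ ∧ ∀ X : FSet Λ, (∀ r ∈ R₁, X.bad r ≤ δ) →
      ∃ (Y : FSet Λ) (p : Y.E → X.E), (∀ r ∈ R₁ ∪ R₂, Y.bad r ≤ ε) ∧
        (∀ s, s ∉ D₂ → ∀ y, p (Y.act s y) = X.act s (p y)) ∧
        ∀ P : X.E → Prop, fr (fun y => P (p y)) = fr P := by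
  classical
  obtain ⟨I, hI, hI', Z, hZ, hπ⟩ := hE (ε / 2) (half_pos hε)
  have hc : (0 : ℝ) < Fintype.card I := by
    exact_mod_cast Fintype.card_pos
  refine ⟨ε / (2 * Fintype.card I), div_pos hε (mul_pos two_pos hc), fun X hX => ?_⟩
  obtain ⟨π, hπ1, hπ2⟩ := hπ X
  obtain ⟨i₀⟩ := hI'
  refine ⟨((X.pow I).prod Z).withAct π, fun y => y.1 i₀, ?_, ?_, ?_⟩
  · rintro r (hr | hr)
    · refine le_trans (bad_powprod X Z I (S := D₂ᶜ) π (fun s hs => hπ1 s hs) r (hR₁ hr)) ?_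
      have h1 := hX r hr
      have h2 := hZ r hr
      have h3 : (Fintype.card I : ℝ) * X.bad r ≤ ε / 2 := by
        calc (Fintype.card I : ℝ) * X.bad r
            ≤ (Fintype.card I : ℝ) * (ε / (2 * Fintype.card I)) := by gcongr
          _ = ε / 2 := by field_simp
      linarith
    · have := hπ2 r hr
      linarith
  · intro s hs y
    show (π s y).1 i₀ = X.act s (y.1 i₀)
    rw [hπ1 s hs]
    rfl
  · intro P
    refine Eq.trans (fr_fst (E := (X.pow I).E) (E' := Z.E)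
      (fun x : (X.pow I).E => P (x i₀))) ?_
    let _ : Fintype (I → X.E) := (X.pow I).ft
    exact fr_pi (E := X.E) (I := I) i₀ P

/-- a power of a power times a set -/
def assocEquiv (I₁ I₂ E Z₁ Z₂ : Type) :
    (I₂ → ((I₁ → E) × Z₁)) × Z₂ ≃ (I₂ × I₁ → E) × ((I₂ → Z₁) × Z₂) where
  toFun y := (fun ij => (y.1 ij.1).1 ij.2, (fun i => (y.1 i).2, y.2))
  invFun x := (fun i => (fun j => x.1 (i, j), x.2.1 i), x.2.2)
  left_inv _ := rfl
  right_inv _ := rfl

theorem ext_step {R₁ R₂ : Set (FreeGroup Λ)} {D₂ T : Set Λ}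
    (hR₁ : R₁ ⊆ words D₂ᶜ) (h1 : Ext R₁ T) (hE : ExtTo R₁ R₂ D₂) :
    Ext (R₁ ∪ R₂) (T \ D₂) := by
  intro δ hδ
  obtain ⟨I₂, hI₂, hI₂', Z₂, hZ₂, hπ₂⟩ := hE (δ / 2) (half_pos hδ)
  have hc : (0 : ℝ) < Fintype.card I₂ := by
    exact_mod_cast Fintype.card_pos
  obtain ⟨I₁, hI₁, hI₁', Z₁, hπ₁⟩ := h1 (δ / (2 * Fintype.card I₂))
    (div_pos hδ (mul_pos two_pos hc))
  refine ⟨I₂ × I₁, inferInstance, inferInstance, (Z₁.pow I₂).prod Z₂, fun E => ?_⟩
  obtain ⟨π₁, hπ₁a, hπ₁b⟩ := hπ₁ E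
  set E' : FSet Λ := ((E.pow I₁).prod Z₁).withAct π₁ with hE'
  obtain ⟨π₂, hπ₂a, hπ₂b⟩ := hπ₂ E'
  let Ψ : (((E'.pow I₂).prod Z₂).withAct π₂).E ≃
      ((E.pow (I₂ × I₁)).prod ((Z₁.pow I₂).prod Z₂)).E :=
    assocEquiv I₁ I₂ E.E Z₁.E Z₂.E
  refine ⟨fun a => Ψ.permCongr (π₂ a), ?_, ?_⟩
  · rintro s ⟨hs1, hs2⟩
    refine Equiv.ext fun x => ?_
    obtain ⟨y, rfl⟩ := Ψ.surjective x
    rw [Equiv.permCongr_apply, Equiv.symm_apply_apply, hπ₂a s hs2]
    have h2 : E'.act s = ((E.pow I₁).prod Z₁).act s := hπ₁a s hs1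
    refine Prod.ext ?_ (Prod.ext ?_ ?_)
    · funext ij
      show (E'.act s (y.1 ij.1)).1 ij.2 = E.act s ((y.1 ij.1).1 ij.2)
      rw [h2]
      rfl
    · funext i
      show (E'.act s (y.1 i)).2 = Z₁.act s ((y.1 i).2)
      rw [h2]
      rfl
    · rfl
  · intro r hr
    rw [← bad_congr (((E'.pow I₂).prod Z₂).withAct π₂)
      (((E.pow (I₂ × I₁)).prod ((Z₁.pow I₂).prod Z₂)).withAct fun a => Ψ.permCongr (π₂ a))
      Ψ (fun a x => by
        show Ψ (π₂ a x) = Ψ.permCongr (π₂ a) (Ψ x)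
        rw [Equiv.permCongr_apply, Equiv.symm_apply_apply]) r]
    rcases hr with hr | hr
    · refine le_trans (bad_powprod E' Z₂ I₂ (S := D₂ᶜ) π₂ (fun s hs => hπ₂a s hs) r (hR₁ hr)) ?_
      have h1 := hπ₁b r hr
      have h2 := hZ₂ r hr
      have h3 : (Fintype.card I₂ : ℝ) * E'.bad r ≤ δ / 2 := by
        calc (Fintype.card I₂ : ℝ) * E'.bad r
            ≤ (Fintype.card I₂ : ℝ) * (δ / (2 * Fintype.card I₂)) := by gcongr
          _ = δ / 2 := by field_simp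
      linarith
    · have := hπ₂b r hr
      linarith

theorem compat {R₁ R₂ : Set (FreeGroup Λ)} {D₁ D₂ : Set Λ}
    (hR₁ : R₁ ⊆ words D₂ᶜ) (hR₂ : R₂ ⊆ words D₁ᶜ)
    (hS₁ : Sep R₁ D₁ᶜ) (hS₂ : Sep R₂ D₂ᶜ)
    (hE₁ : ExtTo R₁ R₂ D₂) (hE₂ : ExtTo R₂ R₁ D₁) : Compat R₁ R₂ D₁ D₂ := by
  intro F ε hε
  obtain ⟨δ₁, hδ₁, hm₁⟩ := extend_model hR₁ hE₁ (ε / 2) (half_pos hε)
  obtain ⟨δ₂, hδ₂, hm₂⟩ := extend_model hR₂ hE₂ (ε / 2) (half_pos hε)
  obtain ⟨X₁, B₁, f₁, hX₁a, hX₁b, hX₁c⟩ := hS₁ F (min δ₁ ε) (lt_min hδ₁ hε)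
  obtain ⟨X₂, B₂, f₂, hX₂a, hX₂b, hX₂c⟩ := hS₂ F (min δ₂ ε) (lt_min hδ₂ hε)
  obtain ⟨Y₁, p₁, hY₁a, hY₁b, hY₁c⟩ := hm₁ X₁ (fun r hr => le_trans (hX₁a r hr) (min_le_left _ _))
  obtain ⟨Y₂, p₂, hY₂a, hY₂b, hY₂c⟩ := hm₂ X₂ (fun r hr => le_trans (hX₂a r hr) (min_le_left _ _))
  have hc : (D₁ ∪ D₂)ᶜ = D₁ᶜ ∩ D₂ᶜ := Set.compl_union _ _
  have hc' : (D₁ ∪ D₂)ᶜ = D₂ᶜ ∩ D₁ᶜ := by
    rw [Set.compl_union, Set.inter_comm]
  refine ⟨Y₁.prod Y₂, B₁ × B₂, fun y => (f₁ (p₁ y.1), f₂ (p₂ y.2)), ?_, ?_, ?_, ?_⟩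
  · intro r hr
    have h1 := bad_prod Y₁ Y₂ r
    have h2 := hY₁a r hr
    have h3 := hY₂a r (Or.comm.1 hr)
    linarith
  · intro s hs1 hs2 e
    refine Prod.ext ?_ ?_
    · show f₁ (p₁ (Y₁.act s e.1)) = f₁ (p₁ e.1)
      rw [hY₁b s hs2, hX₁b s hs1]
    · show f₂ (p₂ (Y₂.act s e.2)) = f₂ (p₂ e.2)
      rw [hY₂b s hs1, hX₂b s hs2]
  · intro u hu huw hum
    have hu' : u ∉ mag R₁ D₁ᶜ := fun h => hum (by
      rw [hc]
      exact ret_mag D₂ᶜ D₁ᶜ R₁ hR₁ u huw h)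
    have h1 := hX₁c u hu hu'
    have h2 : ∀ y, p₁ (Y₁.ev u y) = X₁.ev u (p₁ y) :=
      ev_semiconj (S := D₂ᶜ) X₁ Y₁ p₁ (fun a ha => hY₁b a ha) u huw
    have h3 : ∀ z : (Y₁.prod Y₂).E, ((Y₁.prod Y₂).ev u z).1 = Y₁.ev u z.1 :=
      ev_semiconj (S := Set.univ) Y₁ (Y₁.prod Y₂) Prod.fst (fun a _ x => rfl) u (words_univ u)
    calc fr (fun e : (Y₁.prod Y₂).E =>
          (f₁ (p₁ ((Y₁.prod Y₂).ev u e).1), f₂ (p₂ ((Y₁.prod Y₂).ev u e).2)) =
            (f₁ (p₁ e.1), f₂ (p₂ e.2)))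
        ≤ fr (fun e : Y₁.E × Y₂.E => f₁ (X₁.ev u (p₁ e.1)) = f₁ (p₁ e.1)) := by
          refine fr_mono fun e he => ?_
          have h4 := congrArg Prod.fst he
          change f₁ (p₁ ((Y₁.prod Y₂).ev u e).1) = f₁ (p₁ e.1) at h4
          rw [h3, h2] at h4
          exact h4
      _ = fr (fun y : Y₁.E => f₁ (X₁.ev u (p₁ y)) = f₁ (p₁ y)) :=
          fr_fst (E := Y₁.E) (E' := Y₂.E) (fun y : Y₁.E => f₁ (X₁.ev u (p₁ y)) = f₁ (p₁ y))
      _ = fr (fun x : X₁.E => f₁ (X₁.ev u x) = f₁ x) :=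
          hY₁c (fun x => f₁ (X₁.ev u x) = f₁ x)
      _ ≤ ε := le_trans h1 (min_le_right _ _)
  · intro u hu huw hum
    have hu' : u ∉ mag R₂ D₂ᶜ := fun h => hum (by
      rw [hc']
      exact ret_mag D₁ᶜ D₂ᶜ R₂ hR₂ u huw h)
    have h1 := hX₂c u hu hu'
    have h2 : ∀ y, p₂ (Y₂.ev u y) = X₂.ev u (p₂ y) :=
      ev_semiconj (S := D₁ᶜ) X₂ Y₂ p₂ (fun a ha => hY₂b a ha) u huw
    have h3 : ∀ z : (Y₁.prod Y₂).E, ((Y₁.prod Y₂).ev u z).2 = Y₂.ev u z.2 :=
      ev_semiconj (S := Set.univ) Y₂ (Y₁.prod Y₂) Prod.snd (fun a _ x => rfl) u (words_univ u)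
    calc fr (fun e : (Y₁.prod Y₂).E =>
          (f₁ (p₁ ((Y₁.prod Y₂).ev u e).1), f₂ (p₂ ((Y₁.prod Y₂).ev u e).2)) =
            (f₁ (p₁ e.1), f₂ (p₂ e.2)))
        ≤ fr (fun e : Y₁.E × Y₂.E => f₂ (X₂.ev u (p₂ e.2)) = f₂ (p₂ e.2)) := by
          refine fr_mono fun e he => ?_
          have h4 := congrArg Prod.snd he
          change f₂ (p₂ ((Y₁.prod Y₂).ev u e).2) = f₂ (p₂ e.2) at h4
          rw [h3, h2] at h4
          exact h4
      _ = fr (fun y : Y₂.E => f₂ (X₂.ev u (p₂ y)) = f₂ (p₂ y)) :=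
          fr_snd (E := Y₁.E) (E' := Y₂.E) (fun y : Y₂.E => f₂ (X₂.ev u (p₂ y)) = f₂ (p₂ y))
      _ = fr (fun x : X₂.E => f₂ (X₂.ev u x) = f₂ x) :=
          hY₂c (fun x => f₂ (X₂.ev u x) = f₂ x)
      _ ≤ ε := le_trans h1 (min_le_right _ _)

theorem sep_step {R₁ R₂ : Set (FreeGroup Λ)} {D₂ T : Set Λ}
    (hR₁ : R₁ ⊆ words D₂ᶜ) (hS₁ : Sep R₁ T) (hE : ExtTo R₁ R₂ D₂)
    (hS : Sep (R₁ ∪ R₂) D₂ᶜ) : Sep (R₁ ∪ R₂) (T \ D₂) := by
  classical
  intro F ε hε
  have hch : ∀ u : FreeGroup Λ, ∃ (v : FreeGroup Λ) (C : ℝ), 0 ≤ C ∧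
      (u ∈ mag (R₁ ∪ R₂) D₂ᶜ → v ∈ words D₂ᶜ ∧ v⁻¹ * u ∈ Subgroup.normalClosure (R₁ ∪ R₂) ∧
        ∀ (X : FSet Λ) (ε : ℝ), 0 ≤ ε → (∀ r ∈ R₁ ∪ R₂, X.bad r ≤ ε) →
          X.bad (v⁻¹ * u) ≤ C * ε) := by
    intro u
    by_cases h : u ∈ mag (R₁ ∪ R₂) D₂ᶜ
    · obtain ⟨v, hv, ρ, hρ, rfl⟩ := mem_mag.1 h
      obtain ⟨C, hC, hC'⟩ := bad_normalClosure (R₁ ∪ R₂) ρ hρ
      refine ⟨v, C, hC, fun _ => ⟨hv, ?_, ?_⟩⟩
      · rw [inv_mul_cancel_left]
        exact hρ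
      · rw [inv_mul_cancel_left]
        exact hC'
    · exact ⟨1, 0, le_refl _, fun h' => absurd h' h⟩
  choose v C hC0 hvC using hch
  set K : ℝ := ∑ u ∈ F, C u with hK
  have hK0 : 0 ≤ K := Finset.sum_nonneg fun u _ => hC0 u
  have hKle : ∀ u ∈ F, C u ≤ K := fun u hu =>
    Finset.single_le_sum (f := C) (fun w _ => hC0 w) hu
  set ε' : ℝ := min (ε / 2) (ε / (2 * (K + 1))) with hε'
  have hε'0 : 0 < ε' := lt_min (half_pos hε) (div_pos hε (by linarith))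
  obtain ⟨δ, hδ, hm⟩ := extend_model hR₁ hE ε' hε'0
  obtain ⟨A, B₁, f₁, hAa, hAb, hAc⟩ := hS F (ε / 2) (half_pos hε)
  obtain ⟨X, B₂, f₂, hXa, hXb, hXc⟩ := hS₁ (F.image v) (min δ (ε / 2))
    (lt_min hδ (half_pos hε))
  obtain ⟨Y, p, hYa, hYb, hYc⟩ := hm X (fun r hr => le_trans (hXa r hr) (min_le_left _ _))
  refine ⟨A.prod Y, B₁ × B₂, fun y => (f₁ y.1, f₂ (p y.2)), ?_, ?_, ?_⟩
  · intro r hr
    have h1 := bad_prod A Y r
    have h2 := hAa r hr
    have h3 := hYa r hr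
    have h4 : ε' ≤ ε / 2 := min_le_left _ _
    linarith
  · rintro t ⟨ht1, ht2⟩ e
    refine Prod.ext ?_ ?_
    · show f₁ (A.act t e.1) = f₁ e.1
      exact hAb t ht2 e.1
    · show f₂ (p (Y.act t e.2)) = f₂ (p e.2)
      rw [hYb t ht2, hXb t ht1]
  · intro u hu hum
    by_cases hmag : u ∈ mag (R₁ ∪ R₂) D₂ᶜ
    · obtain ⟨hv1, hv2, hv3⟩ := hvC u hmag
      have hvm : v u ∉ mag R₁ T := by
        intro h
        have h1 : v u ∈ mag R₁ (T ∩ D₂ᶜ) := ret_mag D₂ᶜ T R₁ hR₁ (v u) hv1 h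
        have h2 : v u ∈ mag (R₁ ∪ R₂) (T \ D₂) :=
          mag_mono Set.subset_union_left (le_of_eq (Set.sdiff_eq T D₂).symm) h1
        have h3 : (v u)⁻¹ * u ∈ mag (R₁ ∪ R₂) (T \ D₂) :=
          (le_sup_right : Subgroup.normalClosure (R₁ ∪ R₂) ≤ mag (R₁ ∪ R₂) (T \ D₂)) hv2
        have h4 := Subgroup.mul_mem _ h2 h3
        rw [mul_inv_cancel_left] at h4
        exact hum h4
      have h1 := hXc (v u) (Finset.mem_image_of_mem v hu) hvm
      have h2 : ∀ y, p (Y.ev (v u) y) = X.ev (v u) (p y) :=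
        ev_semiconj (S := D₂ᶜ) X Y p (fun a ha => hYb a ha) (v u) hv1
      have h3 : ∀ z : (A.prod Y).E, ((A.prod Y).ev u z).2 = Y.ev u z.2 :=
        ev_semiconj (S := Set.univ) Y (A.prod Y) Prod.snd (fun a _ x => rfl) u (words_univ u)
      have h5 : Y.bad ((v u)⁻¹ * u) ≤ ε / 2 := by
        have h6 := hv3 Y ε' hε'0.le hYa
        have h7 : C u * ε' ≤ K * (ε / (2 * (K + 1))) := by
          have h8 : ε' ≤ ε / (2 * (K + 1)) := min_le_right _ _
          exact mul_le_mul (hKle u hu) h8 hε'0.le hK0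
        have h9 : K * (ε / (2 * (K + 1))) ≤ ε / 2 := by
          have hK1 : 0 < K + 1 := by linarith
          rw [mul_div_assoc', div_le_div_iff₀ (mul_pos two_pos hK1) two_pos]
          nlinarith
        linarith
      calc fr (fun e : (A.prod Y).E =>
            (f₁ ((A.prod Y).ev u e).1, f₂ (p ((A.prod Y).ev u e).2)) = (f₁ e.1, f₂ (p e.2)))
          ≤ fr (fun e : A.E × Y.E => Y.ev ((v u)⁻¹ * u) e.2 ≠ e.2 ∨
              f₂ (X.ev (v u) (p e.2)) = f₂ (p e.2)) := by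
            refine fr_mono fun e he => ?_
            by_cases hq : Y.ev ((v u)⁻¹ * u) e.2 = e.2
            · right
              have h4 := congrArg Prod.snd he
              change f₂ (p ((A.prod Y).ev u e).2) = f₂ (p e.2) at h4
              rw [h3] at h4
              have h10 : Y.ev u e.2 = Y.ev (v u) e.2 := by
                conv_rhs => rw [← hq]
                rw [← ev_mul_apply, mul_inv_cancel_left]
              rw [h10, h2] at h4
              exact h4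
            · exact Or.inl hq
        _ = fr (fun y : Y.E => Y.ev ((v u)⁻¹ * u) y ≠ y ∨
              f₂ (X.ev (v u) (p y)) = f₂ (p y)) :=
            fr_snd (E := A.E) (E' := Y.E) (fun y : Y.E => Y.ev ((v u)⁻¹ * u) y ≠ y ∨
              f₂ (X.ev (v u) (p y)) = f₂ (p y))
        _ ≤ Y.bad ((v u)⁻¹ * u) + fr (fun y : Y.E => f₂ (X.ev (v u) (p y)) = f₂ (p y)) :=
            fr_or _ _
        _ = Y.bad ((v u)⁻¹ * u) + fr (fun x : X.E => f₂ (X.ev (v u) x) = f₂ x) := by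
            rw [hYc (fun x => f₂ (X.ev (v u) x) = f₂ x)]
        _ ≤ ε := by
            have h11 : min δ (ε / 2) ≤ ε / 2 := min_le_right _ _
            linarith
    · have h1 := hAc u hu hmag
      have h3 : ∀ z : (A.prod Y).E, ((A.prod Y).ev u z).1 = A.ev u z.1 :=
        ev_semiconj (S := Set.univ) A (A.prod Y) Prod.fst (fun a _ x => rfl) u (words_univ u)
      calc fr (fun e : (A.prod Y).E =>
            (f₁ ((A.prod Y).ev u e).1, f₂ (p ((A.prod Y).ev u e).2)) = (f₁ e.1, f₂ (p e.2)))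
          ≤ fr (fun e : A.E × Y.E => f₁ (A.ev u e.1) = f₁ e.1) := by
            refine fr_mono fun e he => ?_
            have h4 := congrArg Prod.fst he
            change f₁ ((A.prod Y).ev u e).1 = f₁ e.1 at h4
            rw [h3] at h4
            exact h4
        _ = fr (fun y : A.E => f₁ (A.ev u y) = f₁ y) :=
            fr_fst (E := A.E) (E' := Y.E) (fun y : A.E => f₁ (A.ev u y) = f₁ y)
        _ ≤ ε := by linarith

/-! ## The start -/

theorem ext_empty (T : Set Λ) : Ext (∅ : Set (FreeGroup Λ)) T := by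
  intro δ _
  refine ⟨Unit, inferInstance, inferInstance, ⟨Unit, fun _ => 1⟩, fun E => ?_⟩
  exact ⟨((E.pow Unit).prod ⟨Unit, fun _ => 1⟩).act, fun s _ => rfl, fun r hr => absurd hr (by simp)⟩

theorem sep_empty (hK : StKey) (hF : StFree) (T : Set Λ) : Sep (∅ : Set (FreeGroup Λ)) T := by
  classical
  have h := hK Λ ∅ ∅ T Tᶜ disjoint_compl_right (Set.empty_subset _) (Set.empty_subset _) ?_
  · rw [Set.empty_union, compl_compl] at h
    exact h
  · intro F ε hε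
    obtain ⟨Q, hQ, hQf, θ, hθ⟩ := hF Λ (F.filter (fun u => u ≠ 1))
      (fun u hu => (Finset.mem_filter.1 hu).2)
    have : Fintype Q := Fintype.ofFinite Q
    set X : FSet Λ := ⟨Q, fun a => Equiv.mulLeft (θ (FreeGroup.of a))⟩ with hX
    have hev : ∀ u : FreeGroup Λ, ∀ q : Q, X.ev u q = θ u * q := by
      intro u q
      refine Subgroup.closure_induction (p := fun u _ => ∀ q : Q, X.ev u q = θ u * q)
        ?_ ?_ ?_ ?_ (words_univ u) q
      · rintro _ ⟨a, _, rfl⟩ q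
        rw [ev_of]
        rfl
      · intro q
        rw [map_one, map_one, one_mul]
        rfl
      · intro u v _ _ hu hv q
        rw [ev_mul_apply, hv, hu, map_mul, mul_assoc]
      · intro u _ hu q
        have h1 := hu (X.ev u⁻¹ q)
        rw [ev_inv_apply] at h1
        rw [map_inv θ, eq_inv_mul_iff_mul_eq]
        exact h1.symm
    have key : ∀ u ∈ F, u ≠ 1 → fr (fun e : X.E => X.ev u e = e) ≤ ε := by
      intro u hu hu1
      have h1 := hθ u (Finset.mem_filter.2 ⟨hu, hu1⟩)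
      have h2 : fr (fun e : X.E => X.ev u e = e) ≤ fr (fun _ : X.E => False) := by
        refine fr_mono fun e he => ?_
        rw [hev u e] at he
        exact h1 (mul_eq_right.1 he)
      rw [fr_false] at h2
      linarith
    refine ⟨X, X.E, id, ?_, ?_, ?_, ?_⟩
    · intro r hr
      simp at hr
    · intro s hs1 hs2
      exact absurd hs1 hs2
    · intro u hu _ hum
      exact key u hu fun h => hum (h ▸ Subgroup.one_mem _)
    · intro u hu _ hum
      exact key u hu fun h => hum (h ▸ Subgroup.one_mem _)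

end Steps

end Chain

/-- module Chain -/
theorem stChain (hK : StKey) (hA : StAmalg) (hF : StFree) : StChain := by
  intro Λ N w ξ η h1 h2 h3 hξ hη
  -- both statements together
  have key : ∀ N : ℕ, (∀ T : Set Λ, (∀ j, j < N → ξ j ∉ T) →
      Ext (w '' Set.Iio N) T ∧ Sep (w '' Set.Iio N) T) ∧
      (Ext (w '' Set.Iio N) (η '' Set.Iio N)ᶜ ∧ Sep (w '' Set.Iio N) (η '' Set.Iio N)ᶜ) := by
    intro N
    induction N with
    | zero =>
      have h0 : w '' Set.Iio 0 = ∅ := by simp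
      rw [h0]
      exact ⟨fun T _ => ⟨Chain.ext_empty T, Chain.sep_empty hK hF T⟩,
        Chain.ext_empty _, Chain.sep_empty hK hF _⟩
    | succ N ih =>
      obtain ⟨ihP, ihE, ihS⟩ := ih
      have hU : w '' Set.Iio (N + 1) = w '' Set.Iio N ∪ {w N} := by
        rw [← Set.image_singleton, ← Set.image_union]
        congr 1
        ext i
        simp only [Set.mem_Iio, Set.mem_union, Set.mem_singleton_iff]
        omega
      have hD : (η '' Set.Iio (N + 1))ᶜ = {η N}ᶜ \ (η '' Set.Iio N) := by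
        ext a
        constructor
        · intro ha
          refine ⟨fun h => ha ⟨N, Nat.lt_succ_self N, ?_⟩, fun h => ha ?_⟩
          · exact (Set.mem_singleton_iff.1 h).symm
          · obtain ⟨i, hi, rfl⟩ := h
            exact ⟨i, Nat.lt_succ_of_lt hi, rfl⟩
        · rintro ⟨ha1, ha2⟩ ⟨i, hi, rfl⟩
          rcases Nat.lt_succ_iff_lt_or_eq.1 hi with hi | rfl
          · exact ha2 ⟨i, hi, rfl⟩
          · exact ha1 rfl
      have hdis : Disjoint (η '' Set.Iio N) ({ξ N} : Set Λ) := by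
        rw [Set.disjoint_singleton_right]
        rintro ⟨i, hi, h⟩
        exact h3 i N hi h
      have hR₁ : w '' Set.Iio N ⊆ words ({ξ N} : Set Λ)ᶜ := by
        rintro _ ⟨i, hi, rfl⟩
        exact h1 i N hi
      have hR₂ : ({w N} : Set (FreeGroup Λ)) ⊆ words (η '' Set.Iio N)ᶜ := by
        rintro _ rfl
        exact Chain.words_finite N fun i hi => h2 i N hi
      obtain ⟨hξE, hξS⟩ := hξ N
      obtain ⟨hηE, hηS⟩ := hη N
      have hT₁ : ExtTo (w '' Set.Iio N) {w N} {ξ N} :=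
        hA Λ _ _ _ _ hdis hR₁ hR₂ ihE hξE
      have hT₂ : ExtTo {w N} (w '' Set.Iio N) (η '' Set.Iio N) :=
        hA Λ _ _ _ _ hdis.symm hR₂ hR₁ hξE ihE
      have hSep₁ : Sep (w '' Set.Iio N ∪ {w N}) ({ξ N} : Set Λ)ᶜ :=
        hK Λ _ _ _ _ hdis hR₁ hR₂ (Chain.compat hR₁ hR₂ ihS hξS hT₁ hT₂)
      have hSep₂ : Sep ({w N} ∪ w '' Set.Iio N) (η '' Set.Iio N)ᶜ :=
        hK Λ _ _ _ _ hdis.symm hR₂ hR₁ (Chain.compat hR₂ hR₁ hξS ihS hT₂ hT₁)
      refine ⟨fun T hT => ?_, ?_, ?_⟩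
      · obtain ⟨hPE, hPS⟩ := ihP T fun j hj => hT j (Nat.lt_succ_of_lt hj)
        have hT' : T \ {ξ N} = T := Set.sdiff_singleton_eq_self (hT N (Nat.lt_succ_self N))
        rw [hU]
        constructor
        · have := Chain.ext_step hR₁ hPE hT₁
          rwa [hT'] at this
        · have := Chain.sep_step hR₁ hPS hT₁ hSep₁
          rwa [hT'] at this
      · rw [hU, hD, Set.union_comm]
        exact Chain.ext_step hR₂ hηE hT₂
      · rw [hU, hD, Set.union_comm]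
        exact Chain.sep_step hR₂ hηS hT₂ hSep₂
  intro T hT
  exact (key N).1 T fun j _ => hT j

end Pool07903c
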