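import Mathlib

/-!
# MP_07903c_al: every one-relator group is sofic (definitions and module statements)

`Λ` is an alphabet.  An `FSet Λ` is a finite nonempty set with one permutation for each letter
(no relations).  `Ext R S`: for every `δ` there are a finite index set `I` and a finite set `Z`
such that on `E^I × Z` (for EVERY `E`) the letters outside `S` can be re-chosen so that the
relators of `R` act trivially up to `δ`, the letters of `S` acting as in the product.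
`Sep R T`: there are almost-models of `⟨Λ | R⟩` with a labelling preserved by the letters of `T`
and changed almost everywhere by given words outside `⟨T⟩ ⟨⟨R⟩⟩`.
-/

namespace Pool07903c

open FreeGroup

/-! ## Fractions -/

open Classical in
/-- the proportion of the points of the finite set `E` which satisfy `P` -/
noncomputable def fr {E : Type} [Fintype E] (P : E → Prop) : ℝ :=
  (∑ e : E, if P e then (1 : ℝ) else 0) / (Fintype.card E : ℝ)

/-! ## Finite sets with one permutation for each letter -/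

/-- a finite nonempty set with a permutation for each letter of `Λ` -/
structure FSet (Λ : Type) where
  /-- the points -/
  E : Type
  /-- finiteness -/
  [ft : Fintype E]
  /-- nonempty -/
  [ne : Nonempty E]
  /-- the permutations -/
  act : Λ → Equiv.Perm E

attribute [instance] FSet.ft FSet.ne

variable {Λ : Type}

/-- the action of all words -/
noncomputable def FSet.ev (X : FSet Λ) : FreeGroup Λ →* Equiv.Perm X.E := FreeGroup.lift X.act

/-- the proportion of points moved by a word -/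
noncomputable def FSet.bad (X : FSet Λ) (u : FreeGroup Λ) : ℝ := fr (fun e : X.E => X.ev u e ≠ e)

/-- product, diagonal action -/
@[reducible] def FSet.prod (X Y : FSet Λ) : FSet Λ where
  E := X.E × Y.E
  act a := Equiv.prodCongr (X.act a) (Y.act a)

open Classical in
/-- power, diagonal action -/
@[reducible] noncomputable def FSet.pow (X : FSet Λ) (I : Type) [Fintype I] : FSet Λ where
  E := I → X.E
  act a := Equiv.piCongrRight (fun _ => X.act a)

/-- the same set, other permutations -/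
@[reducible] def FSet.withAct (X : FSet Λ) (π : Λ → Equiv.Perm X.E) : FSet Λ where
  E := X.E
  act := π

/-! ## Words, extension property, separation -/

/-- the words in the letters of `S` -/
def words (S : Set Λ) : Subgroup (FreeGroup Λ) := Subgroup.closure (FreeGroup.of '' S)

/-- the words which modulo `R` are words in the letters of `T` -/
def mag (R : Set (FreeGroup Λ)) (T : Set Λ) : Subgroup (FreeGroup Λ) :=
  words T ⊔ Subgroup.normalClosure R

/-- extension property: `EXT(R, S)` -/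
def Ext (R : Set (FreeGroup Λ)) (S : Set Λ) : Prop :=
  ∀ δ : ℝ, 0 < δ → ∃ (I : Type) (_ : Fintype I) (_ : Nonempty I) (Z : FSet Λ), ∀ E : FSet Λ,
    ∃ π : Λ → Equiv.Perm ((E.pow I).prod Z).E,
      (∀ s ∈ S, π s = ((E.pow I).prod Z).act s) ∧
      ∀ r ∈ R, (((E.pow I).prod Z).withAct π).bad r ≤ δ

/-- relative extension property: every `E` has a power times `Z` on which the letters of `D₂` can
be re-chosen so that `R₂` holds up to `δ`; `Z` satisfies `R₁` up to `δ` -/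
def ExtTo (R₁ R₂ : Set (FreeGroup Λ)) (D₂ : Set Λ) : Prop :=
  ∀ δ : ℝ, 0 < δ → ∃ (I : Type) (_ : Fintype I) (_ : Nonempty I) (Z : FSet Λ),
    (∀ r ∈ R₁, Z.bad r ≤ δ) ∧ ∀ E : FSet Λ,
    ∃ π : Λ → Equiv.Perm ((E.pow I).prod Z).E,
      (∀ s, s ∉ D₂ → π s = ((E.pow I).prod Z).act s) ∧
      ∀ r ∈ R₂, (((E.pow I).prod Z).withAct π).bad r ≤ δ

/-- separation: `SEP(R, T)` -/
def Sep (R : Set (FreeGroup Λ)) (T : Set Λ) : Prop :=
  ∀ (F : Finset (FreeGroup Λ)) (ε : ℝ), 0 < ε → ∃ (X : FSet Λ) (B : Type) (f : X.E → B),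
    (∀ r ∈ R, X.bad r ≤ ε) ∧ (∀ t ∈ T, ∀ e, f (X.act t e) = f e) ∧
    ∀ u ∈ F, u ∉ mag R T → fr (fun e : X.E => f (X.ev u e) = f e) ≤ ε

/-- `CL(w, x)` -/
def CL (w : FreeGroup Λ) (x : Λ) : Prop := Ext {w} {x}ᶜ ∧ Sep {w} {x}ᶜ

/-- the hypothesis of the doubling lemma -/
def Compat (R₁ R₂ : Set (FreeGroup Λ)) (D₁ D₂ : Set Λ) : Prop :=
  ∀ (F : Finset (FreeGroup Λ)) (ε : ℝ), 0 < ε → ∃ (X : FSet Λ) (B : Type) (f : X.E → B),
    (∀ r ∈ R₁ ∪ R₂, X.bad r ≤ ε) ∧
    (∀ s, s ∉ D₁ → s ∉ D₂ → ∀ e, f (X.act s e) = f e) ∧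
    (∀ u ∈ F, u ∈ words D₂ᶜ → u ∉ mag R₁ (D₁ ∪ D₂)ᶜ →
      fr (fun e : X.E => f (X.ev u e) = f e) ≤ ε) ∧
    (∀ u ∈ F, u ∈ words D₁ᶜ → u ∉ mag R₂ (D₁ ∪ D₂)ᶜ →
      fr (fun e : X.E => f (X.ev u e) = f e) ≤ ε)

/-! ## Heights and refinement of a word -/

/-- the total height of a word -/
def ht (χ : Λ → ℤ) : List (Λ × Bool) → ℤ
  | [] => 0
  | (a, b) :: L => (if b then χ a else - χ a) + ht χ L

/-- refinement of a word: the letter `a` which is applied at level `i` becomes `(a, i)`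
(words act from the right end; an inverse letter gets the level of its target) -/
def rw (χ : Λ → ℤ) : List (Λ × Bool) → ℤ → List ((Λ × ℤ) × Bool)
  | [], _ => []
  | (a, b) :: L, j =>
    ((a, if b then j + ht χ L else j + ht χ L - χ a), b) :: rw χ L j

open Classical in
/-- length minus number of different letters -/
noncomputable def cpx (L : List (Λ × Bool)) : ℕ := L.length - (L.map Prod.fst).toFinset.card

/-- some letter occurs at two different levels -/
def Splits (χ : Λ → ℤ) (L : List (Λ × Bool)) : Prop :=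
  ∃ p ∈ (rw χ L 0).map Prod.fst, ∃ q ∈ (rw χ L 0).map Prod.fst, p.1 = q.1 ∧ p.2 ≠ q.2

/-- `w` is a conjugate of a power of `x^{±1} v`, `v` a word without `x` -/
def PowForm (w : FreeGroup Λ) (x : Λ) : Prop :=
  ∃ (g v : FreeGroup Λ) (b : Bool) (k : ℕ), 0 < k ∧ v ∈ words {x}ᶜ ∧
    w = g * (FreeGroup.mk [(x, b)] * v) ^ k * g⁻¹

/-! ## Soficity and hyperlinearity as in the problem file -/

/-- normalised Hamming distance -/
noncomputable def dH {n : ℕ} (σ τ : Equiv.Perm (Fin n)) : ℝ :=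
  ((Finset.univ.filter (fun i => σ i ≠ τ i)).card : ℝ) / n

/-- soficity -/
def IsSofic (Γ : Type) [Group Γ] : Prop :=
  ∀ (F : Finset Γ) (ε : ℝ), 0 < ε → ∃ (n : ℕ) (σ : Γ → Equiv.Perm (Fin n)), 0 < n ∧
    (∀ g ∈ F, ∀ h ∈ F, dH (σ (g * h)) (σ g * σ h) < ε) ∧
    ∀ g ∈ F, g ≠ 1 → 1 - ε < dH (σ g) 1

/-- normalised trace -/
noncomputable def ntr {k : ℕ} (a : Matrix (Fin k) (Fin k) ℂ) : ℂ := a.trace / k

/-- normalised 2-norm -/
noncomputable def norm2 {k : ℕ} (a : Matrix (Fin k) (Fin k) ℂ) : ℝ :=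
  Real.sqrt ((ntr (a.conjTranspose * a)).re)

/-- hyperlinearity -/
def IsHyperlinear (Γ : Type) [Group Γ] : Prop :=
  ∀ (F : Finset Γ) (ε : ℝ), 0 < ε → ∃ (k : ℕ) (Φ : Γ → Matrix.unitaryGroup (Fin k) ℂ), 0 < k ∧
    (∀ g ∈ F, ∀ h ∈ F,
      norm2 ((Φ (g * h) : Matrix (Fin k) (Fin k) ℂ) -
        (Φ g : Matrix (Fin k) (Fin k) ℂ) * (Φ h : Matrix (Fin k) (Fin k) ℂ)) < ε) ∧
    ∀ g ∈ F, g ≠ 1 → ‖ntr (Φ g : Matrix (Fin k) (Fin k) ℂ)‖ < ε

/-! ## Module statements -/

/-- free groups: finitely many nontrivial words survive in a finite group -/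
def StFree : Prop :=
  ∀ (Λ : Type) (F : Finset (FreeGroup Λ)), (∀ u ∈ F, u ≠ 1) →
    ∃ (Q : Type) (_ : Group Q) (_ : Finite Q) (θ : FreeGroup Λ →* Q), ∀ u ∈ F, θ u ≠ 1

/-- the doubling lemma -/
def StKey : Prop :=
  ∀ (Λ : Type) (R₁ R₂ : Set (FreeGroup Λ)) (D₁ D₂ : Set Λ), Disjoint D₁ D₂ →
    R₁ ⊆ words D₂ᶜ → R₂ ⊆ words D₁ᶜ → Compat R₁ R₂ D₁ D₂ → Sep (R₁ ∪ R₂) D₂ᶜ

/-- amalgamation of extension properties -/
def StAmalg : Prop :=
  ∀ (Λ : Type) (R₁ R₂ : Set (FreeGroup Λ)) (D₁ D₂ : Set Λ), Disjoint D₁ D₂ →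
    R₁ ⊆ words D₂ᶜ → R₂ ⊆ words D₁ᶜ → Ext R₁ D₁ᶜ → Ext R₂ D₂ᶜ → ExtTo R₁ R₂ D₂

/-- the chain: `w 0, …, w (N-1)`, top letters `ξ j`, bottom letters `η j` -/
def StChain : Prop :=
  ∀ (Λ : Type) (N : ℕ) (w : ℕ → FreeGroup Λ) (ξ η : ℕ → Λ),
    (∀ i j, i < j → w i ∈ words {ξ j}ᶜ) → (∀ i j, i < j → w j ∈ words {η i}ᶜ) →
    (∀ i j, i < j → η i ≠ ξ j) →
    (∀ j, CL (w j) (ξ j)) → (∀ j, CL (w j) (η j)) →
    ∀ T : Set Λ, (∀ j, ξ j ∉ T) → Ext (w '' Set.Iio N) T ∧ Sep (w '' Set.Iio N) T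

/-- transfer of the extension property from the infinite cyclic cover -/
def StTransExt : Prop :=
  ∀ (Λ : Type) (L : List (Λ × Bool)) (χ : Λ → ℤ) (x : Λ), ht χ L = 0 →
    (∀ N : ℕ, Ext ((fun j : ℕ => FreeGroup.mk (rw χ L j)) '' Set.Iio N) {p : Λ × ℤ | p.1 ≠ x}) →
    Ext {FreeGroup.mk L} {x}ᶜ

/-- transfer of separation from the infinite cyclic cover -/
def StTransSep : Prop :=
  ∀ (Λ : Type) (L : List (Λ × Bool)) (χ : Λ → ℤ) (x : Λ), ht χ L = 0 →
    (∀ N : ℕ, Sep ((fun j : ℕ => FreeGroup.mk (rw χ L j)) '' Set.Iio N) {p : Λ × ℤ | p.1 ≠ x}) →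
    Sep {FreeGroup.mk L} {x}ᶜ

/-- the base case -/
def StBase : Prop := ∀ (Λ : Type) (w : FreeGroup Λ) (x : Λ), PowForm w x → CL w x

/-- the combinatorial lemma -/
def StComb : Prop :=
  ∀ (Λ : Type) (L : List (Λ × Bool)) (x : Λ), FreeGroup.IsCyclicallyReduced L →
    x ∈ L.map Prod.fst →
    PowForm (FreeGroup.mk L) x ∨ ∃ χ : Λ → ℤ, ht χ L = 0 ∧ Splits χ L

/-- the main induction -/
def StMain : Prop :=
  ∀ (Λ : Type) (L : List (Λ × Bool)) (x : Λ), FreeGroup.IsCyclicallyReduced L →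
    x ∈ L.map Prod.fst → CL (FreeGroup.mk L) x

/-- from `CL` to soficity -/
def StSofic : Prop :=
  ∀ (Λ : Type) (w : FreeGroup Λ), (w = 1 ∨ ∃ x, CL w x) → IsSofic (PresentedGroup ({w} : Set (FreeGroup Λ)))

/-- sofic groups are hyperlinear -/
def StHyper : Prop := ∀ (Γ : Type) [Group Γ], IsSofic Γ → IsHyperlinear Γ

end Pool07903c
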