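import Mathlib
import Pool.Agent.Lib.MP_07903c_al.Spec

/-!
# MP_07903c_al: the combinatorial lemma (module Comb)
-/

namespace Pool07903c

open FreeGroup

namespace Comb

variable {Λ : Type}

/-- sign -/
def sg (b : Bool) : ℤ := if b then 1 else -1

/-- height of the first `i` letters -/
def HH (c : ℕ → Λ × Bool) (χ : Λ → ℤ) (i : ℕ) : ℤ := ∑ k ∈ Finset.range i, sg (c k).2 * χ (c k).1

open Classical in
/-- coordinate function -/
noncomputable def dl (a : Λ) : Λ → ℤ := fun b => if b = a then 1 else 0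

/-- prefix vectors -/
noncomputable def PP (c : ℕ → Λ × Bool) (i : ℕ) (a : Λ) : ℤ := HH c (dl a) i

/-- start vertex of an edge -/
def st (c : ℕ → Λ × Bool) (i : ℕ) : ℕ := if (c i).2 then i + 1 else i

/-- vectors killed by everything orthogonal to `σ` -/
def VV (σ v : Λ → ℤ) : Prop := (∀ a, σ a = 0 → v a = 0) ∧ ∀ a b, σ b * v a = σ a * v b

theorem VV.supp {σ v : Λ → ℤ} (h : VV σ v) {b : Λ} (hb : v b ≠ 0) (a : Λ) (ha : σ a ≠ 0) :
    v a ≠ 0 := by
  intro h0
  have := h.2 a b
  rw [h0, mul_zero] at this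
  exact (mul_ne_zero ha hb) this.symm

theorem VV.sub {σ v w : Λ → ℤ} (h : VV σ v) (h' : VV σ w) : VV σ (v - w) := by
  refine ⟨fun a ha => ?_, fun a b => ?_⟩
  · simp [h.1 a ha, h'.1 a ha]
  · simp only [Pi.sub_apply, mul_sub, h.2 a b, h'.2 a b]

theorem VV.add {σ v w : Λ → ℤ} (h : VV σ v) (h' : VV σ w) : VV σ (v + w) := by
  refine ⟨fun a ha => ?_, fun a b => ?_⟩
  · simp [h.1 a ha, h'.1 a ha]
  · simp only [Pi.add_apply, mul_add, h.2 a b, h'.2 a b]

theorem VV.neg {σ v : Λ → ℤ} (h : VV σ v) : VV σ (-v) := by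
  refine ⟨fun a ha => ?_, fun a b => ?_⟩
  · simp [h.1 a ha]
  · simp only [Pi.neg_apply, mul_neg, h.2 a b]

theorem VV.self (σ : Λ → ℤ) : VV σ σ := ⟨fun _ h => h, fun _ _ => mul_comm _ _⟩

variable (c : ℕ → Λ × Bool)

theorem HH_succ (χ : Λ → ℤ) (i : ℕ) : HH c χ (i + 1) = HH c χ i + sg (c i).2 * χ (c i).1 := by
  simp [HH, Finset.sum_range_succ]

theorem PP_succ (i : ℕ) (a : Λ) :
    PP c (i + 1) a = PP c i a + sg (c i).2 * dl a (c i).1 := HH_succ c _ i

theorem PP_succ_ne (i : ℕ) (a : Λ) (h : (c i).1 ≠ a) : PP c (i + 1) a = PP c i a := by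
  rw [PP_succ]; simp [dl, h]

theorem PP_succ_eq (i : ℕ) (a : Λ) (h : (c i).1 = a) : PP c (i + 1) a = PP c i a + sg (c i).2 := by
  rw [PP_succ]; simp [dl, h]

theorem PP_const (a : Λ) (i j : ℕ) (hij : i ≤ j) (h : ∀ k, i ≤ k → k < j → (c k).1 ≠ a) :
    PP c j a = PP c i a := by
  induction j, hij using Nat.le_induction with
  | base => rfl
  | succ m hm ih =>
    rw [PP_succ_ne c m a (h m hm (Nat.lt_succ_self m)),
      ih (fun k hk hk' => h k hk (hk'.trans (Nat.lt_succ_self m)))]

theorem sg_mul_self (b : Bool) : sg b * sg b = 1 := by cases b <;> simp [sg]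

theorem sg_ne_zero (b : Bool) : sg b ≠ 0 := by cases b <;> simp [sg]

theorem PP_mono (a : Λ) (b : Bool) (i j : ℕ) (hij : i ≤ j)
    (h : ∀ k, i ≤ k → k < j → (c k).1 = a → (c k).2 = b) :
    sg b * PP c i a ≤ sg b * PP c j a := by
  induction j, hij using Nat.le_induction with
  | base => exact le_rfl
  | succ m hm ih =>
    refine (ih (fun k hk hk' => h k hk (hk'.trans (Nat.lt_succ_self m)))).trans ?_
    by_cases hc : (c m).1 = a
    · rw [PP_succ_eq c m a hc, h m hm (Nat.lt_succ_self m) hc, mul_add, sg_mul_self]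
      omega
    · rw [PP_succ_ne c m a hc]

theorem PP_ne (a : Λ) (b : Bool) (i j m : ℕ) (him : i ≤ m) (hmj : m < j) (hm : (c m).1 = a)
    (h : ∀ k, i ≤ k → k < j → (c k).1 = a → (c k).2 = b) :
    PP c j a - PP c i a ≠ 0 := by
  have h1 := PP_mono c a b i m him (fun k hk hk' => h k hk (hk'.trans hmj))
  have h2 := PP_mono c a b (m + 1) j hmj (fun k hk hk' => h k (by omega) hk')
  rw [PP_succ_eq c m a hm, h m him hmj hm, mul_add, sg_mul_self] at h2
  intro h0
  have : PP c j a = PP c i a := by omega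
  rw [this] at h2
  omega

/-- opposite pair -/
def Opp (i j : ℕ) : Prop := i < j ∧ (c i).1 = (c j).1 ∧ (c i).2 ≠ (c j).2

theorem exists_min : ∀ (N i j : ℕ), j - i ≤ N → Opp c i j →
    ∃ i' j', i ≤ i' ∧ j' ≤ j ∧ Opp c i' j' ∧
      ∀ k l, i' ≤ k → l ≤ j' → Opp c k l → k = i' ∧ l = j' := by
  intro N
  induction N with
  | zero => intro i j h ho; have := ho.1; omega
  | succ N ih =>
    intro i j h ho
    by_cases hc : ∀ k l, i ≤ k → l ≤ j → Opp c k l → k = i ∧ l = j
    · exact ⟨i, j, le_rfl, le_rfl, ho, hc⟩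
    · push Not at hc
      obtain ⟨k, l, hk, hl, hkl, hne⟩ := hc
      have hlt : l - k ≤ N := by
        have := hkl.1
        by_cases h1 : k = i
        · have := hne h1; omega
        · omega
      obtain ⟨i', j', h1, h2, h3, h4⟩ := ih k l hlt hkl
      exact ⟨i', j', hk.trans h1, h2.trans hl, h3, h4⟩

variable {c}

theorem bool_of_ne {a b d : Bool} (h : a ≠ b) (h' : d ≠ a) : d = b := by
  cases a <;> cases b <;> cases d <;> simp_all

/-- properties of minimal opposite pairs -/
theorem min_props {σ : Λ → ℤ}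
    (hred : ∀ i, (c i).1 = (c (i + 1)).1 → (c i).2 = (c (i + 1)).2)
    (hV : ∀ i j, (c i).1 = (c j).1 → VV σ (PP c (st c i) - PP c (st c j)))
    {i j : ℕ} (ho : Opp c i j) (hmin : ∀ k l, i ≤ k → l ≤ j → Opp c k l → k = i ∧ l = j) :
    (∀ k, i < k → k < j → (c k).1 ≠ (c i).1) ∧ σ (c i).1 = 0 ∧ (∃ d, σ d ≠ 0) ∧
      ∀ d, σ d ≠ 0 → ∃ k, i < k ∧ k < j ∧ (c k).1 = d := by
  obtain ⟨hij, hl, hs⟩ := ho
  have h1 : ∀ k, i < k → k < j → (c k).1 ≠ (c i).1 := by
    intro k hk hk' he
    by_cases hb : (c k).2 = (c i).2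
    · have := hmin k j hk.le le_rfl ⟨hk', he.trans hl, by rw [hb]; exact hs⟩
      omega
    · have := hmin i k le_rfl hk'.le ⟨hk, he.symm, fun h => hb h.symm⟩
      omega
  have h2 : i + 1 < j := by
    rcases Nat.lt_or_ge (i + 1) j with h | h
    · exact h
    · exfalso
      have : j = i + 1 := by omega
      subst this
      exact hs (hred i hl)
  have h3 : VV σ (PP c j - PP c (i + 1)) := by
    have hv := hV j i hl.symm
    have he : PP c (st c j) - PP c (st c i) = PP c j - PP c (i + 1) := by
      funext b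
      simp only [Pi.sub_apply]
      rcases hbi : (c i).2 with _ | _ <;> rcases hbj : (c j).2 with _ | _
      · exact absurd (hbi.trans hbj.symm) hs
      · simp only [st, hbi, hbj, if_true, Bool.false_eq_true, if_false]
        rw [PP_succ, PP_succ, hbi, hbj, hl]
        simp [sg]; ring
      · simp only [st, hbi, hbj, if_true, Bool.false_eq_true, if_false]
      · exact absurd (hbi.trans hbj.symm) hs
    rw [← he]; exact hv
  have h4 : (PP c j - PP c (i + 1)) (c (i + 1)).1 ≠ 0 := by
    refine PP_ne c _ (c (i + 1)).2 (i + 1) j (i + 1) le_rfl h2 rfl ?_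
    intro k hk hk' he
    by_contra hne
    have hlt : i + 1 < k := by
      rcases Nat.lt_or_ge (i + 1) k with h | h
      · exact h
      · have : k = i + 1 := by omega
        subst this
        exact absurd rfl hne
    have := hmin (i + 1) k (by omega) hk'.le ⟨hlt, he.symm, fun h => hne h.symm⟩
    omega
  have h5 : ∀ d, σ d ≠ 0 → (PP c j - PP c (i + 1)) d ≠ 0 := fun d hd => h3.supp h4 d hd
  have h6 : ∀ d, σ d ≠ 0 → ∃ k, i < k ∧ k < j ∧ (c k).1 = d := by
    intro d hd
    by_contra hcon
    push Not at hcon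
    apply h5 d hd
    simp only [Pi.sub_apply]
    rw [PP_const c d (i + 1) j h2.le (fun k hk hk' => hcon k (by omega) hk'), sub_self]
  refine ⟨h1, ?_, ?_, h6⟩
  · by_contra hne
    obtain ⟨k, hk, hk', he⟩ := h6 _ hne
    exact h1 k hk hk' he
  · by_contra hcon
    push Not at hcon
    exact h4 (h3.1 _ (hcon _))

/-- every letter has only one sign -/
theorem one_sign {σ : Λ → ℤ} {n : ℕ} (hn : 0 < n) (hper : ∀ i, c (i + n) = c i)
    (hred : ∀ i, (c i).1 = (c (i + 1)).1 → (c i).2 = (c (i + 1)).2)
    (hV : ∀ i j, (c i).1 = (c j).1 → VV σ (PP c (st c i) - PP c (st c j))) :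
    ∀ i j, ¬ Opp c i j := by
  intro i₀ j₀ ho₀
  obtain ⟨i, j, -, -, ho, hmin⟩ := exists_min c (j₀ - i₀) i₀ j₀ le_rfl ho₀
  obtain ⟨h1, h2, -, h4⟩ := min_props hred hV ho hmin
  obtain ⟨hij, hl, hs⟩ := ho
  -- next occurrence
  have hex : ∃ k, j < k ∧ (c k).1 = (c i).1 := ⟨j + n, by omega, by rw [hper]; exact hl.symm⟩
  classical
  obtain ⟨hj1, hj2⟩ := Nat.find_spec hex
  have hj3 : ∀ k, j < k → k < Nat.find hex → (c k).1 ≠ (c i).1 := by
    intro k hk hk' he
    exact Nat.find_min hex hk' ⟨hk, he⟩
  set j' := Nat.find hex with hj'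
  have hlev : ∀ k, j + 1 ≤ k → k ≤ j' → PP c k (c i).1 = PP c (j + 1) (c i).1 := by
    intro k hk hk'
    exact PP_const c _ (j + 1) k hk (fun m hm hm' => hj3 m (by omega) (by omega))
  have hlevij : ∀ k, i + 1 ≤ k → k ≤ j → PP c k (c i).1 = PP c (i + 1) (c i).1 := by
    intro k hk hk'
    exact PP_const c _ (i + 1) k hk (fun m hm hm' => h1 m (by omega) (by omega))
  have hstep : PP c (j + 1) (c i).1 = PP c j (c i).1 + sg (c j).2 := PP_succ_eq c j _ hl.symm
  have hstep' : PP c (j' + 1) (c i).1 = PP c j' (c i).1 + sg (c j').2 := PP_succ_eq c j' _ hj2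
  have heq : PP c (st c j') (c i).1 = PP c (st c j) (c i).1 := by
    have := (hV j' j (hj2.trans hl)).1 _ h2
    simp only [Pi.sub_apply] at this
    omega
  have hs' : (c j).2 ≠ (c j').2 := by
    intro he
    have hl' := hlev j' (by omega) le_rfl
    rcases hbj : (c j).2 with _ | _
    · have hbj' : (c j').2 = false := he ▸ hbj
      simp only [st, hbj, hbj', Bool.false_eq_true, if_false] at heq
      rw [hbj] at hstep
      simp only [sg, Bool.false_eq_true, if_false] at hstep
      omega
    · have hbj' : (c j').2 = true := he ▸ hbj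
      simp only [st, hbj, hbj', if_true] at heq
      rw [hbj'] at hstep'
      simp only [sg, if_true] at hstep'
      omega
  have ho' : Opp c j j' := ⟨hj1, hl.symm.trans hj2.symm, hs'⟩
  obtain ⟨i₁, j₁, hi1, hj1', ho1, hmin1⟩ := exists_min c (j' - j) j j' le_rfl ho'
  obtain ⟨-, -, ⟨d, hd⟩, h4'⟩ := min_props hred hV ho1 hmin1
  obtain ⟨k, hk, hk', hkd⟩ := h4' d hd
  obtain ⟨k₀, hk0, hk0', hkd0⟩ := h4 d hd
  have hda : d ≠ (c i).1 := fun h => hd (h ▸ h2)
  have hst : ∀ m, (c m).1 = d → PP c (st c m) (c i).1 = PP c m (c i).1 := by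
    intro m hm
    unfold st
    split_ifs with hb
    · exact PP_succ_ne c m _ (by rw [hm]; exact hda)
    · rfl
  have heq2 : PP c (st c k) (c i).1 = PP c (st c k₀) (c i).1 := by
    have := (hV k k₀ (hkd.trans hkd0.symm)).1 _ h2
    simp only [Pi.sub_apply] at this
    omega
  rw [hst k hkd, hst k₀ hkd0, hlev k (by omega) (by omega), hlevij k₀ (by omega) (by omega),
    ← hlevij j (by omega) le_rfl, hstep] at heq2
  have := sg_ne_zero (c j).2
  omega

/-- the sequence is determined by the class of the vertex -/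
theorem same_of_VV {σ : Λ → ℤ} {n : ℕ} (hn : 0 < n) (hper : ∀ i, c (i + n) = c i)
    (hsig : ∀ a, σ a = PP c n a)
    (hred : ∀ i, (c i).1 = (c (i + 1)).1 → (c i).2 = (c (i + 1)).2)
    (hV : ∀ i j, (c i).1 = (c j).1 → VV σ (PP c (st c i) - PP c (st c j))) :
    ∀ i j, VV σ (PP c i - PP c j) → c i = c j := by
  have hO := one_sign hn hper hred hV
  have hs : ∀ i j, (c i).1 = (c j).1 → (c i).2 = (c j).2 := by
    intro i j h
    by_contra hne
    rcases lt_trichotomy i j with h' | h' | h'
    · exact hO i j ⟨h', h, hne⟩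
    · subst h'; exact hne rfl
    · exact hO j i ⟨h', h.symm, fun e => hne e.symm⟩
  have hE : ∀ i j, (c i).1 = (c j).1 → VV σ (PP c i - PP c j) := by
    intro i j h
    have hb := hs i j h
    have hv := hV i j h
    have : PP c (st c i) - PP c (st c j) = PP c i - PP c j := by
      funext a
      simp only [Pi.sub_apply, st]
      rcases hbj : (c j).2 with _ | _
      · rw [hbj] at hb
        simp [hb]
      · rw [hbj] at hb
        simp only [hb, if_true]
        rw [PP_succ, PP_succ, h, hb, hbj]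
        ring
    rw [← this]; exact hv
  have hmod : ∀ i, c (i % n) = c i := by
    intro i
    have key : ∀ q r, c (r + n * q) = c r := by
      intro q
      induction q with
      | zero => intro r; simp
      | succ q ih =>
        intro r
        rw [Nat.mul_succ, ← Nat.add_assoc, hper, ih]
    conv_rhs => rw [← Nat.mod_add_div i n]
    rw [key]
  have hD : ∀ i, σ (c i).1 ≠ 0 := by
    intro i
    have := PP_ne c (c i).1 (c i).2 0 n (i % n) (Nat.zero_le _) (Nat.mod_lt _ hn)
      (by rw [hmod]) (fun k _ _ h => hs _ _ h)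
    rw [hsig]
    intro h0
    apply this
    rw [h0]
    simp [PP, HH]
  intro i j hij
  by_contra hne
  have hab : (c i).1 ≠ (c j).1 := by
    intro h
    exact hne (Prod.ext h (hs i j h))
  classical
  have hex : ∃ k, j < k ∧ (c k).1 = (c i).1 := by
    refine ⟨i + n * (j + 1), ?_, ?_⟩
    · nlinarith
    · rw [← hmod (i + n * (j + 1)), Nat.add_mul_mod_self_left, hmod]
  obtain ⟨hl1, hl2⟩ := Nat.find_spec hex
  have hl3 : ∀ k, j < k → k < Nat.find hex → (c k).1 ≠ (c i).1 := by
    intro k hk hk' he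
    exact Nat.find_min hex hk' ⟨hk, he⟩
  set l := Nat.find hex with hl
  have hv : VV σ (PP c l - PP c j) := by
    have h1 := (hE l i hl2).add hij
    have : PP c l - PP c i + (PP c i - PP c j) = PP c l - PP c j := by abel
    rwa [this] at h1
  have h5 : (PP c l - PP c j) (c j).1 ≠ 0 :=
    PP_ne c _ (c j).2 j l j le_rfl hl1 rfl (fun k _ _ h => hs _ _ h)
  apply hv.supp h5 (c i).1 (hD i)
  simp only [Pi.sub_apply]
  rw [PP_const c _ j l hl1.le, sub_self]
  intro k hk hk'
  rcases Nat.lt_or_ge j k with h | h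
  · exact hl3 k h hk'
  · have : k = j := by omega
    subst this
    exact fun e => hab e.symm

/-- product of a segment -/
def WW (c : ℕ → Λ × Bool) (m : ℕ) : ℕ → FreeGroup Λ
  | 0 => 1
  | l + 1 => WW c m l * FreeGroup.mk [c (m + l)]

theorem WW_add (m l l' : ℕ) : WW c m (l + l') = WW c m l * WW c (m + l) l' := by
  induction l' with
  | zero => simp [WW]
  | succ l' ih => rw [← Nat.add_assoc, WW, WW, ih, mul_assoc, Nat.add_assoc]

theorem WW_congr (m m' l : ℕ) (h : ∀ d, d < l → c (m + d) = c (m' + d)) :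
    WW c m l = WW c m' l := by
  induction l with
  | zero => rfl
  | succ l ih => rw [WW, WW, ih (fun d hd => h d (by omega)), h l (by omega)]

theorem WW_mem (x : Λ) (m l : ℕ) (h : ∀ d, d < l → (c (m + d)).1 ≠ x) :
    WW c m l ∈ words {x}ᶜ := by
  induction l with
  | zero => exact one_mem _
  | succ l ih =>
    rw [WW]
    refine mul_mem (ih (fun d hd => h d (by omega))) ?_
    have hx := h l (by omega)
    rcases hc : c (m + l) with ⟨a, b⟩
    rw [hc] at hx
    have hof : FreeGroup.of a ∈ words ({x}ᶜ : Set Λ) := Subgroup.subset_closure ⟨a, hx, rfl⟩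
    rcases b with _ | _
    · have : FreeGroup.mk [(a, false)] = (FreeGroup.of a)⁻¹ := by
        simp [FreeGroup.of, FreeGroup.inv_mk, FreeGroup.invRev]
      rw [this]
      exact inv_mem hof
    · exact hof

theorem powForm_of_seq {σ : Λ → ℤ} {n : ℕ} (hn : 0 < n) (hper : ∀ i, c (i + n) = c i)
    (hsig : ∀ a, σ a = PP c n a)
    (hred : ∀ i, (c i).1 = (c (i + 1)).1 → (c i).2 = (c (i + 1)).2)
    (hV : ∀ i j, (c i).1 = (c j).1 → VV σ (PP c (st c i) - PP c (st c j)))
    (x : Λ) (hx : ∃ i, (c i).1 = x) : PowForm (WW c 0 n) x := by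
  classical
  have hS := same_of_VV hn hper hsig hred hV
  have hO := one_sign hn hper hred hV
  have hs : ∀ i j, (c i).1 = (c j).1 → (c i).2 = (c j).2 := by
    intro i j h
    by_contra hne
    rcases lt_trichotomy i j with h' | h' | h'
    · exact hO i j ⟨h', h, hne⟩
    · subst h'; exact hne rfl
    · exact hO j i ⟨h', h.symm, fun e => hne e.symm⟩
  have hstep : ∀ i j, VV σ (PP c i - PP c j) → VV σ (PP c (i + 1) - PP c (j + 1)) := by
    intro i j h
    have he := hS i j h
    have : PP c (i + 1) - PP c (j + 1) = PP c i - PP c j := by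
      funext a
      simp only [Pi.sub_apply]
      rw [PP_succ, PP_succ, he]; ring
    rw [this]; exact h
  have hall : ∀ i j, VV σ (PP c i - PP c j) → ∀ d, VV σ (PP c (i + d) - PP c (j + d)) := by
    intro i j h d
    induction d with
    | zero => exact h
    | succ d ih => exact hstep _ _ ih
  have hE : ∀ i j, (c i).1 = (c j).1 → ∀ d, c (i + d) = c (j + d) := by
    intro i j h d
    have hb := hs i j h
    have hv := hV i j h
    have : PP c (st c i) - PP c (st c j) = PP c i - PP c j := by
      funext a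
      simp only [Pi.sub_apply, st]
      rcases hbj : (c j).2 with _ | _
      · rw [hbj] at hb
        simp [hb]
      · rw [hbj] at hb
        simp only [hb, if_true]
        rw [PP_succ, PP_succ, h, hb, hbj]
        ring
    rw [this] at hv
    exact hS _ _ (hall i j hv d)
  -- first and second occurrence
  have hp := Nat.find_spec hx
  have hpm : ∀ k, k < Nat.find hx → (c k).1 ≠ x := fun k hk => Nat.find_min hx hk
  set p := Nat.find hx with hpdef
  have hpn : p < n := by
    by_contra hcon
    have h1 : (c (p - n)).1 = x := by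
      rw [← hper (p - n), Nat.sub_add_cancel (by omega)]; exact hp
    exact hpm (p - n) (by omega) h1
  have hex : ∃ q, 0 < q ∧ (c (p + q)).1 = x := ⟨n, hn, by rw [hper]; exact hp⟩
  obtain ⟨hq1, hq2⟩ := Nat.find_spec hex
  have hq3 : ∀ k, 0 < k → k < Nat.find hex → (c (p + k)).1 ≠ x := by
    intro k hk hk' he
    exact Nat.find_min hex hk' ⟨hk, he⟩
  set q := Nat.find hex with hqdef
  have hqper : ∀ d, c (p + q + d) = c (p + d) := hE (p + q) p (hq2.trans hp.symm)
  have hqper' : ∀ k d, c (p + (d + q * k)) = c (p + d) := by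
    intro k
    induction k with
    | zero => intro d; simp
    | succ k ih =>
      intro d
      have : p + (d + q * (k + 1)) = p + q + (d + q * k) := by ring
      rw [this, hqper, ih]
  have hdvd : n % q = 0 := by
    by_contra hne
    have h1 : (c (p + n % q)).1 = x := by
      rw [← hqper' (n / q) (n % q), Nat.mod_add_div, hper]; exact hp
    exact hq3 (n % q) (Nat.pos_of_ne_zero hne) (Nat.mod_lt _ hq1) h1
  have hnq : n = q * (n / q) := by
    have := Nat.mod_add_div n q
    omega
  have hpow : ∀ k, WW c p (q * k) = (WW c p q) ^ k := by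
    intro k
    induction k with
    | zero => simp [WW]
    | succ k ih =>
      rw [Nat.mul_succ, WW_add, ih, pow_succ]
      congr 1
      apply WW_congr
      intro d _
      have : p + q * k + d = p + (d + q * k) := by ring
      rw [this, hqper']
  refine ⟨WW c 0 p, WW c (p + 1) (q - 1), (c p).2, n / q, ?_, ?_, ?_⟩
  · rcases Nat.eq_zero_or_pos (n / q) with h | h
    · rw [h] at hnq; omega
    · exact h
  · apply WW_mem
    intro d hd
    have := hq3 (d + 1) (by omega) (by omega)
    have he : p + 1 + d = p + (d + 1) := by ring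
    rw [he]; exact this
  · have hW : WW c p q = FreeGroup.mk [(x, (c p).2)] * WW c (p + 1) (q - 1) := by
      have h1 : q = 1 + (q - 1) := by omega
      conv_lhs => rw [h1]
      rw [WW_add]
      congr 1
      simp only [WW, one_mul, Nat.add_zero]
      rw [← hp]
    rw [← hW, ← hpow, ← hnq]
    have h1 : WW c 0 n = WW c 0 p * WW c p (n - p) := by
      conv_lhs => rw [show n = p + (n - p) by omega]
      rw [WW_add, Nat.zero_add]
    have h2 : WW c p n = WW c p (n - p) * WW c 0 p := by
      conv_lhs => rw [show n = (n - p) + p by omega]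
      rw [WW_add]
      congr 1
      apply WW_congr
      intro d _
      rw [show p + (n - p) + d = (0 + d) + n by omega, hper]
    rw [h1, h2]
    group

/-! ### the periodic sequence of a word -/

/-- the periodic sequence of a word -/
def sq (L : List (Λ × Bool)) (x : Λ) (i : ℕ) : Λ × Bool := L.getD (i % L.length) (x, true)

theorem sq_lt (L : List (Λ × Bool)) (x : Λ) (i : ℕ) (h : i < L.length) : sq L x i = L[i] := by
  unfold sq
  rw [Nat.mod_eq_of_lt h, List.getD_eq_getElem _ _ h]

theorem sq_per (L : List (Λ × Bool)) (x : Λ) (i : ℕ) : sq L x (i + L.length) = sq L x i := by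
  unfold sq
  rw [Nat.add_mod_right]

theorem ht_append (χ : Λ → ℤ) (L M : List (Λ × Bool)) : ht χ (L ++ M) = ht χ L + ht χ M := by
  induction L with
  | nil => simp [ht]
  | cons a L ih =>
    rcases a with ⟨a, b⟩
    simp only [List.cons_append, ht, ih]; ring

theorem ht_single (χ : Λ → ℤ) (y : Λ × Bool) : ht χ [y] = sg y.2 * χ y.1 := by
  rcases y with ⟨a, b⟩
  rcases b with _ | _ <;> simp [ht, sg]

theorem ht_take (χ : Λ → ℤ) (L : List (Λ × Bool)) (x : Λ) (i : ℕ) (h : i ≤ L.length) :
    ht χ (L.take i) = HH (sq L x) χ i := by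
  induction i with
  | zero => simp [ht, HH]
  | succ i ih =>
    rw [HH_succ, ← ih (by omega), sq_lt L x i (by omega), ← List.take_append_getElem (by omega),
      ht_append, ht_single]

theorem mk_take (L : List (Λ × Bool)) (x : Λ) (i : ℕ) (h : i ≤ L.length) :
    FreeGroup.mk (L.take i) = WW (sq L x) 0 i := by
  induction i with
  | zero => simp [WW, FreeGroup.one_eq_mk]
  | succ i ih =>
    rw [WW, ← ih (by omega), Nat.zero_add, sq_lt L x i (by omega),
      ← List.take_append_getElem (by omega), FreeGroup.mul_mk]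

theorem rw_mem (χ : Λ → ℤ) (j : ℤ) (A B : List (Λ × Bool)) (a : Λ) (b : Bool) :
    ((a, if b then j + ht χ B else j + ht χ B - χ a), b) ∈ rw χ (A ++ (a, b) :: B) j := by
  induction A with
  | nil => simp [rw]
  | cons y A ih =>
    rcases y with ⟨a', b'⟩
    simp only [List.cons_append, rw]
    exact List.mem_cons_of_mem _ ih

theorem level_mem (χ : Λ → ℤ) (L : List (Λ × Bool)) (x : Λ) (h0 : ht χ L = 0) (i : ℕ)
    (h : i < L.length) :
    ((sq L x i).1, - HH (sq L x) χ (st (sq L x) i)) ∈ (rw χ L 0).map Prod.fst := by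
  have hL : L = L.take i ++ ((L[i]).1, (L[i]).2) :: L.drop (i + 1) := by
    conv_lhs => rw [← List.take_append_drop i L, List.drop_eq_getElem_cons h]
  have hm := rw_mem χ 0 (L.take i) (L.drop (i + 1)) (L[i]).1 (L[i]).2
  rw [← hL] at hm
  have hd : ht χ (L.drop (i + 1)) = - HH (sq L x) χ (i + 1) := by
    have h1 := ht_append χ (L.take (i + 1)) (L.drop (i + 1))
    rw [List.take_append_drop, h0, ht_take χ L x (i + 1) (by omega)] at h1
    omega
  have hsucc := HH_succ (sq L x) χ i
  refine List.mem_map.2 ⟨_, hm, ?_⟩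
  have hsq := sq_lt L x i h
  refine Prod.ext ?_ ?_
  · simp [hsq]
  · simp only [st, hsq, hd, zero_add]
    rcases hb : (L[i]).2 with _ | _
    · simp only [Bool.false_eq_true, if_false]
      rw [hsucc, hsq, hb]
      simp [sg]
    · simp only [if_true]

theorem PP_add_n {n : ℕ} (hper : ∀ i, c (i + n) = c i) (m : ℕ) (a : Λ) :
    PP c (m + n) a = PP c m a + PP c n a := by
  induction m with
  | zero => simp [PP, HH]
  | succ m ih =>
    rw [show m + 1 + n = (m + n) + 1 by ring, PP_succ, PP_succ, ih, hper]; ring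

theorem PP_add_mul {n : ℕ} (hper : ∀ i, c (i + n) = c i) (m q : ℕ) (a : Λ) :
    PP c (m + n * q) a = PP c m a + q * PP c n a := by
  induction q with
  | zero => simp
  | succ q ih =>
    rw [Nat.mul_succ, ← Nat.add_assoc, PP_add_n hper, ih]; push_cast; ring

theorem c_add_mul {n : ℕ} (hper : ∀ i, c (i + n) = c i) (m q : ℕ) : c (m + n * q) = c m := by
  induction q with
  | zero => simp
  | succ q ih => rw [Nat.mul_succ, ← Nat.add_assoc, hper, ih]

theorem HH_comb (χ χ' : Λ → ℤ) (s t : ℤ) (k : ℕ) :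
    HH c (fun d => s * χ d - t * χ' d) k = s * HH c χ k - t * HH c χ' k := by
  induction k with
  | zero => simp [HH]
  | succ k ih => rw [HH_succ, HH_succ, HH_succ, ih]; ring

theorem red_sq (L : List (Λ × Bool)) (x : Λ) (hL : FreeGroup.IsCyclicallyReduced L)
    (hn : 0 < L.length) (i : ℕ) (h : (sq L x i).1 = (sq L x (i + 1)).1) :
    (sq L x i).2 = (sq L x (i + 1)).2 := by
  have hlt : i % L.length < L.length := Nat.mod_lt _ hn
  have h1 : sq L x i = L[i % L.length] := by
    unfold sq; rw [List.getD_eq_getElem _ _ hlt]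
  rcases Nat.lt_or_ge (i % L.length + 1) L.length with hc | hc
  · have hmod : (i + 1) % L.length = i % L.length + 1 := by
      rw [Nat.add_mod, Nat.mod_eq_of_lt (show 1 < L.length by omega), Nat.mod_eq_of_lt hc]
    have h2 : sq L x (i + 1) = L[i % L.length + 1] := by
      unfold sq; rw [hmod, List.getD_eq_getElem _ _ hc]
    rw [h1, h2] at h ⊢
    exact List.isChain_iff_getElem.1 hL.1 _ hc h
  · have heq : i % L.length = L.length - 1 := by omega
    have hmod : (i + 1) % L.length = 0 := by
      rw [Nat.add_mod, heq]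
      rcases Nat.lt_or_ge 1 L.length with h1 | h1
      · rw [Nat.mod_eq_of_lt h1, Nat.sub_add_cancel hn, Nat.mod_self]
      · have : L.length = 1 := by omega
        rw [this]
    have h2 : sq L x (i + 1) = L[0] := by
      unfold sq; rw [hmod, List.getD_eq_getElem _ _ hn]
    rw [h1, h2] at h ⊢
    have hne : L ≠ [] := List.length_pos_iff.1 hn
    refine hL.2 _ ?_ _ ?_ h
    · rw [List.getLast?_eq_some_getLast hne, List.getLast_eq_getElem]
      simp [heq]
    · rw [List.head?_eq_some_head hne, List.head_eq_getElem]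
      simp

end Comb

/-- the combinatorial lemma -/
theorem stComb : StComb := by
  intro Λ L x hL hx
  by_cases hsp : ∃ χ : Λ → ℤ, ht χ L = 0 ∧ Splits χ L
  · exact Or.inr hsp
  left
  push Not at hsp
  have hn : 0 < L.length := by
    rcases L with _ | ⟨y, L⟩
    · simp at hx
    · simp
  have hper := Comb.sq_per L x
  have hfull : ∀ χ, ht χ L = Comb.HH (Comb.sq L x) χ L.length := by
    intro χ
    rw [← Comb.ht_take χ L x L.length le_rfl, List.take_length]
  have hlev : ∀ χ : Λ → ℤ, Comb.HH (Comb.sq L x) χ L.length = 0 → ∀ i j, i < L.length →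
      j < L.length → (Comb.sq L x i).1 = (Comb.sq L x j).1 →
      Comb.HH (Comb.sq L x) χ (Comb.st (Comb.sq L x) i) =
        Comb.HH (Comb.sq L x) χ (Comb.st (Comb.sq L x) j) := by
    intro χ h0 i j hi hj hij
    by_contra hne
    apply hsp χ ((hfull χ).trans h0)
    exact ⟨_, Comb.level_mem χ L x ((hfull χ).trans h0) i hi, _,
      Comb.level_mem χ L x ((hfull χ).trans h0) j hj, hij, fun h => hne (neg_injective h)⟩
  set c := Comb.sq L x with hc
  set σ : Λ → ℤ := Comb.PP c L.length with hσ
  have hV0 : ∀ i j, i < L.length → j < L.length → (c i).1 = (c j).1 →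
      Comb.VV σ (Comb.PP c (Comb.st c i) - Comb.PP c (Comb.st c j)) := by
    intro i j hi hj hij
    refine ⟨fun a ha => ?_, fun a b => ?_⟩
    · have := hlev (Comb.dl a) ha i j hi hj hij
      simp only [Pi.sub_apply, Comb.PP]
      rw [this, sub_self]
    · have h0 : Comb.HH c (fun d => σ b * Comb.dl a d - σ a * Comb.dl b d) L.length = 0 := by
        rw [Comb.HH_comb]
        change σ b * σ a - σ a * σ b = 0
        ring
      have := hlev _ h0 i j hi hj hij
      rw [Comb.HH_comb, Comb.HH_comb] at this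
      simp only [Pi.sub_apply, Comb.PP]
      linarith
  have hmodst : ∀ i, Comb.VV σ (Comb.PP c (Comb.st c i) - Comb.PP c (Comb.st c (i % L.length))) := by
    intro i
    have h1 : c i = c (i % L.length) := by
      conv_lhs => rw [← Nat.mod_add_div i L.length]
      rw [Comb.c_add_mul hper]
    have h2 : Comb.st c i = Comb.st c (i % L.length) + L.length * (i / L.length) := by
      have := Nat.mod_add_div i L.length
      unfold Comb.st
      rw [h1]
      split_ifs <;> omega
    have h3 : Comb.PP c (Comb.st c i) - Comb.PP c (Comb.st c (i % L.length)) =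
        fun a => ((i / L.length : ℕ) : ℤ) * σ a := by
      funext a
      simp only [Pi.sub_apply]
      rw [h2, Comb.PP_add_mul hper]
      ring
    rw [h3]
    refine ⟨fun a ha => by simp [ha], fun a b => by ring⟩
  have hV : ∀ i j, (c i).1 = (c j).1 →
      Comb.VV σ (Comb.PP c (Comb.st c i) - Comb.PP c (Comb.st c j)) := by
    intro i j hij
    have hmod : ∀ i, c (i % L.length) = c i := by
      intro i
      conv_rhs => rw [← Nat.mod_add_div i L.length]
      rw [Comb.c_add_mul hper]
    have h1 := hV0 (i % L.length) (j % L.length) (Nat.mod_lt _ hn) (Nat.mod_lt _ hn)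
      (by rw [hmod, hmod]; exact hij)
    have h2 := ((hmodst i).add h1).sub (hmodst j)
    convert h2 using 1
    abel
  have hex : ∃ i, (c i).1 = x := by
    obtain ⟨y, hy, hyx⟩ := List.mem_map.1 hx
    obtain ⟨i, hi, hiy⟩ := List.getElem_of_mem hy
    exact ⟨i, by rw [hc, Comb.sq_lt L x i hi, hiy, hyx]⟩
  have hfin := Comb.powForm_of_seq hn hper (fun a => rfl) (Comb.red_sq L x hL hn) hV x hex
  rw [← Comb.mk_take L x L.length le_rfl, List.take_length] at hfin
  exact hfin

end Pool07903c

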