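import Pool.Agent.Lib.MP_07903c_al.Spec

/-!
# MP_07903c_al: finitely many nontrivial words survive in a finite group (StFree)

A reduced word of length `n` is read as a path through the points `0, …, n`; by reducedness every
letter acts there as an injective relation, which extends to a permutation of `Fin (n+1)`.
-/

namespace Pool07903c

open FreeGroup

/-- an injective functional relation on a finite set extends to a permutation -/
theorem exists_perm_of_rel {α : Type} [Finite α] (r : α → α → Prop)
    (h1 : ∀ x y z, r x y → r x z → y = z) (h2 : ∀ x y z, r x z → r y z → x = y) :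
    ∃ π : Equiv.Perm α, ∀ x y, r x y → π x = y := by
  classical
  have := Fintype.ofFinite α
  let s : Set α := {x | ∃ y, r x y}
  let f : α → α := fun x => if h : ∃ y, r x y then h.choose else x
  have hf : ∀ x y, r x y → f x = y := by
    intro x y hxy
    have h : ∃ y, r x y := ⟨y, hxy⟩
    have : f x = h.choose := by simp only [f]; rw [dif_pos h]
    rw [this]
    exact h1 _ _ _ h.choose_spec hxy
  have hinj : Set.InjOn f s := by
    rintro x ⟨y, hy⟩ x' ⟨y', hy'⟩ hxx
    rw [hf _ _ hy, hf _ _ hy'] at hxx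
    subst hxx
    exact h2 _ _ _ hy hy'
  let e : {x // x ∈ s} ≃ {x // x ∈ f '' s} := Equiv.Set.imageOfInjOn f s hinj
  refine ⟨e.extendSubtype, fun x y hxy => ?_⟩
  have hx : x ∈ s := ⟨y, hxy⟩
  rw [Equiv.extendSubtype_apply_of_mem e x hx]
  exact hf _ _ hxy

/-- reading a word along a path of points -/
theorem lift_mk_path {Λ E : Type} (π : Λ → Equiv.Perm E) (L : List (Λ × Bool)) (p : ℕ → E)
    (h1 : ∀ i a, L[i]? = some (a, true) → π a (p (i + 1)) = p i)
    (h2 : ∀ i a, L[i]? = some (a, false) → π a (p i) = p (i + 1)) :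
    FreeGroup.lift π (FreeGroup.mk L) (p L.length) = p 0 := by
  induction L generalizing p with
  | nil => simp
  | cons q L ih =>
    obtain ⟨a, b⟩ := q
    have ih' := ih (fun i => p (i + 1)) (fun i c hc => h1 (i + 1) c (by simpa using hc))
      (fun i c hc => h2 (i + 1) c (by simpa using hc))
    simp only [FreeGroup.lift_mk, List.map_cons, List.prod_cons, Equiv.Perm.mul_apply,
      List.length_cons] at ih' ⊢
    rw [ih']
    cases b with
    | true =>
      have := h1 0 a (by simp)
      simpa using this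
    | false =>
      have := h2 0 a (by simp)
      simp only [cond_false]
      rw [Equiv.Perm.inv_eq_iff_eq]
      simpa using this.symm

/-- a nontrivial word survives in a finite symmetric group -/
theorem exists_perm_ne_one {Λ : Type} (u : FreeGroup Λ) (hu : u ≠ 1) :
    ∃ (n : ℕ) (θ : FreeGroup Λ →* Equiv.Perm (Fin n)), θ u ≠ 1 := by
  classical
  have hred : FreeGroup.IsReduced u.toWord := FreeGroup.isReduced_toWord
  have hmk : FreeGroup.mk u.toWord = u := FreeGroup.mk_toWord
  set L := u.toWord with hL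
  have hpos : 0 < L.length := by
    rcases Nat.eq_zero_or_pos L.length with h | h
    · exfalso
      apply hu
      rw [← hmk, List.length_eq_zero_iff.1 h]
      rfl
    · exact h
  have key : ∀ i a b b', L[i]? = some (a, b) → L[i + 1]? = some (a, b') → b = b' := by
    intro i a b b' hi hi'
    obtain ⟨hlt, e1⟩ := List.getElem?_eq_some_iff.1 hi
    obtain ⟨hlt', e2⟩ := List.getElem?_eq_some_iff.1 hi'
    have := (List.isChain_iff_getElem.1 hred) i hlt'
    rw [e1, e2] at this
    exact this rfl
  let r : Λ → Fin (L.length + 1) → Fin (L.length + 1) → Prop := fun a x y =>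
    ∃ i : ℕ, (L[i]? = some (a, true) ∧ (x : ℕ) = i + 1 ∧ (y : ℕ) = i) ∨
      (L[i]? = some (a, false) ∧ (x : ℕ) = i ∧ (y : ℕ) = i + 1)
  have hr : ∀ a, ∃ π : Equiv.Perm (Fin (L.length + 1)), ∀ x y, r a x y → π x = y := by
    intro a
    apply exists_perm_of_rel
    · rintro x y z ⟨i, h⟩ ⟨j, h'⟩
      rcases h with ⟨hi, hx, hy⟩ | ⟨hi, hx, hy⟩ <;> rcases h' with ⟨hj, hx', hz⟩ | ⟨hj, hx', hz⟩
      · apply Fin.ext; omega
      · exfalso
        obtain rfl : j = i + 1 := by omega
        exact absurd (key i a _ _ hi hj) (by simp)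
      · exfalso
        obtain rfl : i = j + 1 := by omega
        exact absurd (key j a _ _ hj hi) (by simp)
      · apply Fin.ext; omega
    · rintro x y z ⟨i, h⟩ ⟨j, h'⟩
      rcases h with ⟨hi, hx, hy⟩ | ⟨hi, hx, hy⟩ <;> rcases h' with ⟨hj, hx', hz⟩ | ⟨hj, hx', hz⟩
      · apply Fin.ext; omega
      · exfalso
        obtain rfl : i = j + 1 := by omega
        exact absurd (key j a _ _ hj hi) (by simp)
      · exfalso
        obtain rfl : j = i + 1 := by omega
        exact absurd (key i a _ _ hi hj) (by simp)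
      · apply Fin.ext; omega
  choose π hπ using hr
  refine ⟨L.length + 1, FreeGroup.lift π, fun h => ?_⟩
  have hval : ∀ i, i ≤ L.length → ((Fin.ofNat (L.length + 1) i : Fin (L.length + 1)) : ℕ) = i := by
    intro i hi
    simp only [Fin.ofNat]
    exact Nat.mod_eq_of_lt (by omega)
  have hp := lift_mk_path π L (fun i => Fin.ofNat (L.length + 1) i)
    (fun i a hi => hπ a _ _ ⟨i, Or.inl ⟨hi, by
      obtain ⟨hlt, -⟩ := List.getElem?_eq_some_iff.1 hi
      exact ⟨hval _ (by omega), hval _ (by omega)⟩⟩⟩)
    (fun i a hi => hπ a _ _ ⟨i, Or.inr ⟨hi, by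
      obtain ⟨hlt, -⟩ := List.getElem?_eq_some_iff.1 hi
      exact ⟨hval _ (by omega), hval _ (by omega)⟩⟩⟩)
  rw [hmk, h] at hp
  have := congrArg Fin.val hp
  rw [Equiv.Perm.one_apply, hval _ le_rfl, hval _ (Nat.zero_le _)] at this
  omega

theorem stFree : StFree := by
  classical
  intro Λ F hF
  have h : ∀ u : F, ∃ (n : ℕ) (θ : FreeGroup Λ →* Equiv.Perm (Fin n)), θ u ≠ 1 :=
    fun u => exists_perm_ne_one u.1 (hF u.1 u.2)
  choose n θ hθ using h
  refine ⟨(u : F) → Equiv.Perm (Fin (n u)), inferInstance, inferInstance,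
    MonoidHom.pi θ, fun u hu hone => hθ ⟨u, hu⟩ ?_⟩
  exact congrFun hone ⟨u, hu⟩

end Pool07903c
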