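import Pool.Agent.Lib.MP_07903c_al.Spec

/-!
# MP_07903c_al, module Key: the doubling lemma
-/

namespace Pool07903c

namespace KeyAux

variable {Λ : Type}

/-! ## Fractions -/

theorem fr_mono {E : Type} [Fintype E] {P Q : E → Prop} (h : ∀ e, P e → Q e) : fr P ≤ fr Q := by
  unfold fr
  apply div_le_div_of_nonneg_right _ (Nat.cast_nonneg _)
  apply Finset.sum_le_sum
  intro e _
  by_cases hp : P e
  · simp [hp, h e hp]
  · simp only [hp, if_false]
    split_ifs <;> norm_num

theorem fr_or {E : Type} [Fintype E] (P Q : E → Prop) :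
    fr (fun e => P e ∨ Q e) ≤ fr P + fr Q := by
  unfold fr
  rw [← add_div, ← Finset.sum_add_distrib]
  apply div_le_div_of_nonneg_right _ (Nat.cast_nonneg _)
  apply Finset.sum_le_sum
  intro e _
  by_cases hp : P e <;> by_cases hq : Q e <;> simp [hp, hq]

theorem fr_false {E : Type} [Fintype E] : fr (fun _ : E => False) = 0 := by
  unfold fr
  simp

theorem fr_equiv {E E' : Type} [Fintype E] [Fintype E'] (σ : E ≃ E') (P : E' → Prop) :
    fr (fun e => P (σ e)) = fr P := by
  unfold fr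
  rw [Fintype.card_congr σ]
  congr 1
  exact Equiv.sum_comp σ (fun e => by classical exact if P e then (1 : ℝ) else 0)

theorem fr_fst {E Q : Type} [Fintype E] [Fintype Q] [Nonempty Q] (P : E → Prop) :
    fr (fun p : E × Q => P p.1) = fr P := by
  unfold fr
  rw [Fintype.sum_prod_type]
  have h1 : ∀ x : E, (∑ _y : Q, (by classical exact if P x then (1 : ℝ) else 0)) =
      (Fintype.card Q : ℝ) * (by classical exact if P x then (1 : ℝ) else 0) := by
    intro x
    rw [Finset.sum_const, Finset.card_univ, nsmul_eq_mul]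
  rw [Finset.sum_congr rfl (fun x _ => h1 x), ← Finset.mul_sum, Fintype.card_prod, Nat.cast_mul,
    mul_comm (Fintype.card E : ℝ)]
  have hQ : (Fintype.card Q : ℝ) ≠ 0 := by
    have := Fintype.card_pos (α := Q)
    positivity
  rw [mul_div_mul_left _ _ hQ]

theorem perm_inv_app {α : Type} (σ : Equiv.Perm α) (x : α) : σ⁻¹ (σ x) = x := σ.symm_apply_apply x

theorem perm_app_inv {α : Type} (σ : Equiv.Perm α) (x : α) : σ (σ⁻¹ x) = x := σ.apply_symm_apply x

/-! ## Bad points -/

theorem bad_one (X : FSet Λ) : X.bad 1 = 0 := by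
  unfold FSet.bad
  rw [← fr_false (E := X.E)]
  congr 1
  funext e
  simp

theorem bad_mul (X : FSet Λ) (u v : FreeGroup Λ) : X.bad (u * v) ≤ X.bad u + X.bad v := by
  unfold FSet.bad
  refine le_trans (fr_mono ?_) (fr_or _ _)
  intro e he
  by_cases hv : X.ev v e = e
  · left
    intro hu
    apply he
    rw [map_mul, Equiv.Perm.mul_apply, hv, hu]
  · right; exact hv

theorem bad_inv (X : FSet Λ) (u : FreeGroup Λ) : X.bad u⁻¹ = X.bad u := by
  unfold FSet.bad
  congr 1
  funext e
  rw [map_inv, ne_eq, ne_eq, Equiv.Perm.inv_eq_iff_eq]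
  apply propext
  constructor
  · intro h h'; exact h h'.symm
  · intro h h'; exact h h'.symm

theorem bad_conj (X : FSet Λ) (g u : FreeGroup Λ) : X.bad (g * u * g⁻¹) = X.bad u := by
  unfold FSet.bad
  rw [← fr_equiv (X.ev g⁻¹) (fun e : X.E => X.ev u e ≠ e)]
  congr 1
  funext e
  rw [map_mul, map_mul, Equiv.Perm.mul_apply, Equiv.Perm.mul_apply]
  apply propext
  rw [not_iff_not]
  constructor
  · intro h
    conv_rhs => rw [← h]
    rw [map_inv, perm_inv_app]
  · intro h
    rw [h, map_inv, perm_app_inv]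

theorem bad_normal (R : Set (FreeGroup Λ)) (n : FreeGroup Λ)
    (hn : n ∈ Subgroup.normalClosure R) :
    ∃ k : ℕ, ∀ (X : FSet Λ) (ε : ℝ), 0 ≤ ε → (∀ r ∈ R, X.bad r ≤ ε) → X.bad n ≤ k * ε := by
  unfold Subgroup.normalClosure at hn
  induction hn using Subgroup.closure_induction with
  | mem x hx =>
    obtain ⟨a, ha, hc⟩ := Group.mem_conjugatesOfSet_iff.1 hx
    obtain ⟨c, rfl⟩ := isConj_iff.1 hc
    refine ⟨1, fun X ε _ h => ?_⟩
    rw [bad_conj]
    simpa using h a ha
  | one => exact ⟨0, fun X ε _ _ => by simp [bad_one]⟩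
  | mul x y _ _ hx hy =>
    obtain ⟨k, hk⟩ := hx
    obtain ⟨m, hm⟩ := hy
    refine ⟨k + m, fun X ε h0 h => ?_⟩
    have h1 := bad_mul X x y
    have h2 := hk X ε h0 h
    have h3 := hm X ε h0 h
    push_cast
    linarith
  | inv x _ hx =>
    obtain ⟨k, hk⟩ := hx
    refine ⟨k, fun X ε h0 h => ?_⟩
    rw [bad_inv]
    exact hk X ε h0 h

/-! ## Alternating products -/

/-- the value of a list of syllables -/
def val (l : List (Bool × FreeGroup Λ)) : FreeGroup Λ := (l.map Prod.snd).prod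

theorem val_nil : val ([] : List (Bool × FreeGroup Λ)) = 1 := rfl

theorem val_cons (p : Bool × FreeGroup Λ) (l : List (Bool × FreeGroup Λ)) :
    val (p :: l) = p.2 * val l := by simp [val]

theorem val_append (l m : List (Bool × FreeGroup Λ)) : val (l ++ m) = val l * val m := by
  simp [val]

/-- the two types of syllables -/
def Wd (D₁ D₂ : Set Λ) (b : Bool) : Subgroup (FreeGroup Λ) := if b then words D₁ᶜ else words D₂ᶜ

/-- the relators belonging to the two types -/
def Rr (R₁ R₂ : Set (FreeGroup Λ)) (b : Bool) : Set (FreeGroup Λ) := if b then R₂ else R₁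

theorem words_mono {S T : Set Λ} (h : S ⊆ T) : words S ≤ words T :=
  Subgroup.closure_mono (Set.image_mono h)

theorem words_le_Wd (D₁ D₂ : Set Λ) (b : Bool) : words (D₁ ∪ D₂)ᶜ ≤ Wd D₁ D₂ b := by
  unfold Wd
  split_ifs
  · exact words_mono (Set.compl_subset_compl.2 Set.subset_union_left)
  · exact words_mono (Set.compl_subset_compl.2 Set.subset_union_right)

theorem Rr_sub (R₁ R₂ : Set (FreeGroup Λ)) (b : Bool) : Rr R₁ R₂ b ⊆ R₁ ∪ R₂ := by
  unfold Rr
  split_ifs
  · exact Set.subset_union_right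
  · exact Set.subset_union_left

theorem exists_syl {D₁ D₂ : Set Λ} (hD : Disjoint D₁ D₂) (u : FreeGroup Λ) :
    ∃ l : List (Bool × FreeGroup Λ), (∀ p ∈ l, p.2 ∈ Wd D₁ D₂ p.1) ∧ val l = u := by
  have hx : ∀ x : Λ, ∃ b : Bool, FreeGroup.of x ∈ Wd D₁ D₂ b := by
    intro x
    by_cases h : x ∈ D₁
    · refine ⟨false, ?_⟩
      have h2 : x ∈ D₂ᶜ := fun h' => Set.disjoint_left.1 hD h h'
      have h3 : FreeGroup.of x ∈ words D₂ᶜ :=
        Subgroup.subset_closure (Set.mem_image_of_mem _ h2)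
      simpa [Wd] using h3
    · refine ⟨true, ?_⟩
      have h2 : x ∈ D₁ᶜ := h
      have h3 : FreeGroup.of x ∈ words D₁ᶜ :=
        Subgroup.subset_closure (Set.mem_image_of_mem _ h2)
      simpa [Wd] using h3
  induction u using FreeGroup.induction_on with
  | C1 => exact ⟨[], by simp, rfl⟩
  | of x =>
    obtain ⟨b, hb⟩ := hx x
    exact ⟨[(b, FreeGroup.of x)], by simpa using hb, by simp [val]⟩
  | inv_of x _ =>
    obtain ⟨b, hb⟩ := hx x
    refine ⟨[(b, (FreeGroup.of x)⁻¹)], ?_, by simp [val]⟩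
    simpa using hb
  | mul x y h1 h2 =>
    obtain ⟨l, hl, rfl⟩ := h1
    obtain ⟨m, hm, rfl⟩ := h2
    refine ⟨l ++ m, ?_, val_append _ _⟩
    intro p hp
    rcases List.mem_append.1 hp with h | h
    · exact hl p h
    · exact hm p h

theorem decomp {D₁ D₂ : Set Λ} (hD : Disjoint D₁ D₂) (R₁ R₂ : Set (FreeGroup Λ))
    (u : FreeGroup Λ) (hu : u ∉ mag (R₁ ∪ R₂) D₂ᶜ) :
    ∃ (l : List (Bool × FreeGroup Λ)) (n : FreeGroup Λ),
      n ∈ Subgroup.normalClosure (R₁ ∪ R₂) ∧ u = val l * n ∧
      (∀ p ∈ l, p.2 ∈ Wd D₁ D₂ p.1) ∧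
      (∀ p ∈ l, p.2 ∉ mag (Rr R₁ R₂ p.1) (D₁ ∪ D₂)ᶜ) ∧
      l.IsChain (fun p q => p.1 ≠ q.1) ∧ ∃ p ∈ l, p.1 = true := by
  classical
  set N := Subgroup.normalClosure (R₁ ∪ R₂) with hN
  have hex : ∃ m : ℕ, ∃ l : List (Bool × FreeGroup Λ), l.length = m ∧
      (∀ p ∈ l, p.2 ∈ Wd D₁ D₂ p.1) ∧ (val l)⁻¹ * u ∈ N := by
    obtain ⟨l, hl, hv⟩ := exists_syl hD u
    exact ⟨l.length, l, rfl, hl, by rw [hv, inv_mul_cancel]; exact N.one_mem⟩
  obtain ⟨l, hlen, hval, hmem⟩ := Nat.find_spec hex
  have hmin : ∀ l' : List (Bool × FreeGroup Λ), (∀ p ∈ l', p.2 ∈ Wd D₁ D₂ p.1) →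
      (val l')⁻¹ * u ∈ N → l.length ≤ l'.length := by
    intro l' h1 h2
    rw [hlen]
    exact Nat.find_min' hex ⟨l', rfl, h1, h2⟩
  have hmagN : ∀ (s : FreeGroup Λ), s ∈ words D₂ᶜ → s⁻¹ * u ∈ N → False := by
    intro s hs h
    apply hu
    have : u = s * (s⁻¹ * u) := by group
    rw [this]
    exact Subgroup.mul_mem _ (Subgroup.mem_sup_left hs) (Subgroup.mem_sup_right h)
  refine ⟨l, (val l)⁻¹ * u, hmem, by group, hval, ?_, ?_, ?_⟩
  · -- no syllable is equivalent to a word in the common letters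
    intro p hp hmag
    obtain ⟨l₁, l₂, rfl⟩ := List.append_of_mem hp
    unfold mag at hmag
    obtain ⟨s, hs, n, hn, hsn⟩ := Subgroup.mem_sup_of_normal_right.1 hmag
    have hnN : n ∈ N := Subgroup.normalClosure_mono (Rr_sub R₁ R₂ p.1) hn
    have hkey : (val l₁ * s * val l₂)⁻¹ * u ∈ N := by
      have e1 : (val l₁ * s * val l₂)⁻¹ * u =
          ((val l₂)⁻¹ * n * ((val l₂)⁻¹)⁻¹) * ((val (l₁ ++ p :: l₂))⁻¹ * u) := by
        rw [val_append, val_cons, ← hsn]
        group
      rw [e1]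
      exact N.mul_mem (Subgroup.normalClosure_normal.conj_mem n hnN _) hmem
    rcases l₂ with _ | ⟨q, l₂⟩
    · rcases List.eq_nil_or_concat l₁ with h | ⟨l₁', q, h⟩
      · subst h
        apply hmagN s _ (by simpa [val_nil] using hkey)
        have := words_le_Wd D₁ D₂ false hs
        simpa [Wd] using this
      · subst h
        have := hmin (l₁' ++ [(q.1, q.2 * s)]) ?_ ?_
        · simp at this
        · intro p' hp'
          rcases List.mem_append.1 hp' with h | h
          · exact hval p' (by simp [h])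
          · rw [List.mem_singleton] at h
            subst h
            exact Subgroup.mul_mem _ (hval q (by simp)) (words_le_Wd D₁ D₂ _ hs)
        · have e2 : val (l₁' ++ [(q.1, q.2 * s)]) = val (l₁'.concat q) * s * val [] := by
            simp [val, mul_assoc]
          rw [e2]
          exact hkey
    · have := hmin (l₁ ++ (q.1, s * q.2) :: l₂) ?_ ?_
      · simp at this
      · intro p' hp'
        rcases List.mem_append.1 hp' with h | h
        · exact hval p' (by simp [h])
        · rcases List.mem_cons.1 h with h | h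
          · subst h
            exact Subgroup.mul_mem _ (words_le_Wd D₁ D₂ _ hs) (hval q (by simp))
          · exact hval p' (by simp [h])
      · have e2 : val (l₁ ++ (q.1, s * q.2) :: l₂) = val l₁ * s * val (q :: l₂) := by
          simp [val, mul_assoc]
        rw [e2]
        exact hkey
  · -- neighbours have different types
    rw [List.isChain_iff_forall_rel_of_append_cons_cons]
    intro p q l₁ l₂ hl hpq
    have := hmin (l₁ ++ (p.1, p.2 * q.2) :: l₂) ?_ ?_
    · rw [hl] at this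
      simp at this
    · intro p' hp'
      rcases List.mem_append.1 hp' with h | h
      · exact hval p' (by simp [hl, h])
      · rcases List.mem_cons.1 h with h | h
        · subst h
          have h1 := hval p (by simp [hl])
          have h2 := hval q (by simp [hl])
          rw [← hpq] at h2
          exact Subgroup.mul_mem _ h1 h2
        · exact hval p' (by simp [hl, h])
    · have e2 : val (l₁ ++ (p.1, p.2 * q.2) :: l₂) = val l := by
        rw [hl]
        simp [val, mul_assoc]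
      rw [e2]
      exact hmem
  · -- some syllable has the second type
    by_contra hno
    push Not at hno
    apply hmagN (val l) _ hmem
    unfold val
    apply Subgroup.list_prod_mem
    intro x hx
    obtain ⟨p, hp, rfl⟩ := List.mem_map.1 hx
    have h1 := hval p hp
    have h2 := hno p hp
    have h3 : p.1 = false := by simpa using h2
    rw [h3] at h1
    simpa [Wd] using h1

/-! ## The path of labels -/

variable {B : Type}

/-- every syllable changes the label along the path of `e` -/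
def Chg (X : FSet Λ) (f : X.E → B) : List (Bool × FreeGroup Λ) → X.E → Prop
  | [], _ => True
  | p :: l, e => f (X.ev p.2 (X.ev (val l) e)) ≠ f (X.ev (val l) e) ∧ Chg X f l e

/-- the word in the labels which is picked up along the path of `e` -/
noncomputable def pw (X : FSet Λ) (f : X.E → B) :
    List (Bool × FreeGroup Λ) → X.E → List (B × Bool)
  | [], _ => []
  | p :: l, e =>
    if p.1 then (f (X.ev p.2 (X.ev (val l) e)), true) :: (f (X.ev (val l) e), false) :: pw X f l e
    else pw X f l e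

theorem pw_true (X : FSet Λ) (f : X.E → B) (x : FreeGroup Λ) (l : List (Bool × FreeGroup Λ))
    (e : X.E) : pw X f ((true, x) :: l) e =
      (f (X.ev x (X.ev (val l) e)), true) :: (f (X.ev (val l) e), false) :: pw X f l e := by
  simp [pw]

theorem pw_false (X : FSet Λ) (f : X.E → B) (x : FreeGroup Λ) (l : List (Bool × FreeGroup Λ))
    (e : X.E) : pw X f ((false, x) :: l) e = pw X f l e := by
  simp [pw]

theorem pw_red (X : FSet Λ) (f : X.E → B) (e : X.E) :
    ∀ l : List (Bool × FreeGroup Λ), Chg X f l e → l.IsChain (fun p q => p.1 ≠ q.1) →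
      FreeGroup.IsReduced (pw X f l e) ∧
      ∀ a ∈ (pw X f l e).head?, a.2 = true ∧
        ((∃ p ∈ l.head?, p.1 = true) → a.1 = f (X.ev (val l) e)) ∧
        ((∃ p ∈ l.head?, p.1 = false) → a.1 ≠ f (X.ev (val l) e)) := by
  intro l
  induction l with
  | nil =>
    intro _ _
    exact ⟨by simp [pw], by simp [pw]⟩
  | cons p l ih =>
    intro hC hchain
    obtain ⟨b, x⟩ := p
    obtain ⟨hne, hC'⟩ := hC
    rw [List.isChain_cons] at hchain
    obtain ⟨hhead, hchain'⟩ := hchain
    obtain ⟨ih1, ih2⟩ := ih hC' hchain'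
    have hv : X.ev (val ((b, x) :: l)) e = X.ev x (X.ev (val l) e) := by
      rw [val_cons, map_mul, Equiv.Perm.mul_apply]
    cases b with
    | false =>
      rw [pw_false]
      refine ⟨ih1, ?_⟩
      intro a ha
      obtain ⟨h1, h2, h3⟩ := ih2 a ha
      refine ⟨h1, by simp, ?_⟩
      intro _
      rw [hv]
      cases l with
      | nil => simp [pw] at ha
      | cons q l' =>
        have hq : q.1 = true := by
          have := hhead q (by simp)
          simpa using this
        rw [h2 ⟨q, by simp, hq⟩]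
        exact hne.symm
    | true =>
      rw [pw_true]
      refine ⟨?_, ?_⟩
      · unfold FreeGroup.IsReduced
        rw [List.isChain_cons_cons, List.isChain_cons]
        refine ⟨fun h => absurd h hne, ?_, ih1⟩
        intro a ha h
        obtain ⟨h1, h2, h3⟩ := ih2 a ha
        exfalso
        cases l with
        | nil => simp [pw] at ha
        | cons q l' =>
          have hq : q.1 = false := by
            have := hhead q (by simp)
            simpa using this
          exact h3 ⟨q, by simp, hq⟩ h.symm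
      · intro a ha
        simp only [List.head?_cons, Option.mem_def, Option.some.injEq] at ha
        subst ha
        refine ⟨rfl, ?_, by simp⟩
        intro _
        rw [hv]

theorem pw_ne_nil (X : FSet Λ) (f : X.E → B) (e : X.E) (l : List (Bool × FreeGroup Λ))
    (h : ∃ p ∈ l, p.1 = true) : pw X f l e ≠ [] := by
  induction l with
  | nil => simp at h
  | cons p l ih =>
    obtain ⟨b, x⟩ := p
    cases b with
    | true => rw [pw_true]; simp
    | false =>
      rw [pw_false]
      apply ih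
      obtain ⟨q, hq, hq1⟩ := h
      rcases List.mem_cons.1 hq with h | h
      · subst h; simp at hq1
      · exact ⟨q, h, hq1⟩

theorem pw_ne_one (X : FSet Λ) (f : X.E → B) (e : X.E) (l : List (Bool × FreeGroup Λ))
    (hC : Chg X f l e) (hch : l.IsChain (fun p q => p.1 ≠ q.1)) (h : ∃ p ∈ l, p.1 = true) :
    FreeGroup.mk (pw X f l e) ≠ 1 := by
  classical
  intro h1
  have hred := (pw_red X f e l hC hch).1
  have h2 := FreeGroup.IsReduced.reduce_eq hred
  have h3 : (FreeGroup.mk (pw X f l e)).toWord = [] := by rw [h1]; simp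
  rw [FreeGroup.toWord_mk, h2] at h3
  exact pw_ne_nil X f e l h h3

theorem fr_not_Chg (X : FSet Λ) (f : X.E → B) (ε : ℝ) (l : List (Bool × FreeGroup Λ))
    (h : ∀ p ∈ l, fr (fun e : X.E => f (X.ev p.2 e) = f e) ≤ ε) :
    fr (fun e : X.E => ¬ Chg X f l e) ≤ l.length * ε := by
  induction l with
  | nil =>
    have : (fun e : X.E => ¬ Chg X f [] e) = fun _ => False := by
      funext e
      simp [Chg]
    rw [this, fr_false]
    simp
  | cons p l ih =>
    have h1 := ih (fun q hq => h q (List.mem_cons_of_mem _ hq))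
    have h2 := h p (by simp)
    rw [← fr_equiv (X.ev (val l)) (fun e : X.E => f (X.ev p.2 e) = f e)] at h2
    have h3 : fr (fun e : X.E => ¬ Chg X f (p :: l) e) ≤
        fr (fun e : X.E => f (X.ev p.2 (X.ev (val l) e)) = f (X.ev (val l) e)) +
        fr (fun e : X.E => ¬ Chg X f l e) := by
      refine le_trans (fr_mono ?_) (fr_or _ _)
      intro e he
      by_contra hcon
      push Not at hcon
      exact he ⟨hcon.1, hcon.2⟩
    have h4 : ((p :: l).length : ℝ) = l.length + 1 := by simp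
    rw [h4]
    linarith

/-! ## The doubled set -/

section Dbl

variable (X : FSet Λ) (f : X.E → B) (D₂ : Set Λ) (Q : Type) [Group Q]
  (θ : FreeGroup B →* Q)

/-- the twist -/
def tw : Equiv.Perm (X.E × Q) where
  toFun p := (p.1, θ (FreeGroup.of (f p.1)) * p.2)
  invFun p := (p.1, (θ (FreeGroup.of (f p.1)))⁻¹ * p.2)
  left_inv p := by simp
  right_inv p := by simp

theorem tw_apply (p : X.E × Q) : tw X f Q θ p = (p.1, θ (FreeGroup.of (f p.1)) * p.2) := rfl

theorem tw_inv_apply (p : X.E × Q) :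
    (tw X f Q θ)⁻¹ p = (p.1, (θ (FreeGroup.of (f p.1)))⁻¹ * p.2) := rfl

omit [Group Q] in
/-- permutations of the first factor -/
def inc : Equiv.Perm X.E →* Equiv.Perm (X.E × Q) where
  toFun σ := Equiv.prodCongr σ (Equiv.refl Q)
  map_one' := by ext p <;> rfl
  map_mul' σ τ := by ext p <;> rfl

omit [Group Q] in
theorem inc_apply (σ : Equiv.Perm X.E) (p : X.E × Q) : inc X Q σ p = (σ p.1, p.2) := rfl

open Classical in
/-- the permutations of the doubled set -/
noncomputable def dact (a : Λ) : Equiv.Perm (X.E × Q) :=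
  if a ∈ D₂ then tw X f Q θ * inc X Q (X.act a) * (tw X f Q θ)⁻¹ else inc X Q (X.act a)

theorem dact_pos {a : Λ} (h : a ∈ D₂) : dact X f D₂ Q θ a =
    tw X f Q θ * inc X Q (X.act a) * (tw X f Q θ)⁻¹ := if_pos h

theorem dact_neg {a : Λ} (h : a ∉ D₂) : dact X f D₂ Q θ a = inc X Q (X.act a) := if_neg h

/-- the words on the doubled set -/
noncomputable def dev : FreeGroup Λ →* Equiv.Perm (X.E × Q) := FreeGroup.lift (dact X f D₂ Q θ)

theorem dev_of (a : Λ) : dev X f D₂ Q θ (FreeGroup.of a) = dact X f D₂ Q θ a :=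
  FreeGroup.lift_apply_of

theorem ev_of (a : Λ) : X.ev (FreeGroup.of a) = X.act a := FreeGroup.lift_apply_of

theorem ev_low (g : FreeGroup Λ) (hg : g ∈ words D₂ᶜ) :
    dev X f D₂ Q θ g = inc X Q (X.ev g) := by
  have h : Set.EqOn (dev X f D₂ Q θ) ((inc X Q).comp X.ev) (words D₂ᶜ) := by
    apply MonoidHom.eqOn_closure
    rintro _ ⟨a, ha, rfl⟩
    rw [dev_of, dact_neg X f D₂ Q θ ha, MonoidHom.comp_apply, ev_of]
  exact h hg

theorem ev_high (D₁ : Set Λ) (hf : ∀ s, s ∉ D₁ → s ∉ D₂ → ∀ e, f (X.act s e) = f e)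
    (g : FreeGroup Λ) (hg : g ∈ words D₁ᶜ) :
    dev X f D₂ Q θ g = tw X f Q θ * inc X Q (X.ev g) * (tw X f Q θ)⁻¹ := by
  have h : Set.EqOn (dev X f D₂ Q θ)
      ((MulAut.conj (tw X f Q θ)).toMonoidHom.comp ((inc X Q).comp X.ev)) (words D₁ᶜ) := by
    apply MonoidHom.eqOn_closure
    rintro _ ⟨a, ha, rfl⟩
    have ha' : a ∉ D₁ := ha
    have e1 : ((MulAut.conj (tw X f Q θ)).toMonoidHom.comp ((inc X Q).comp X.ev))
        (FreeGroup.of a) = tw X f Q θ * inc X Q (X.act a) * (tw X f Q θ)⁻¹ := by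
      rw [MonoidHom.comp_apply, MonoidHom.comp_apply, ev_of]
      rfl
    rw [e1, dev_of]
    by_cases h2 : a ∈ D₂
    · rw [dact_pos X f D₂ Q θ h2]
    · rw [dact_neg X f D₂ Q θ h2, eq_mul_inv_iff_mul_eq]
      apply Equiv.ext
      intro p
      rw [Equiv.Perm.mul_apply, Equiv.Perm.mul_apply, inc_apply, tw_apply, tw_apply, inc_apply]
      simp only [hf a ha' h2]
  exact h hg

variable [Fintype Q]

/-- the doubled set -/
noncomputable def dbl : FSet Λ where
  E := X.E × Q
  act := dact X f D₂ Q θ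

theorem dbl_ev (g : FreeGroup Λ) : (dbl X f D₂ Q θ).ev g = dev X f D₂ Q θ g := rfl

theorem bad_low (g : FreeGroup Λ) (hg : g ∈ words D₂ᶜ) :
    (dbl X f D₂ Q θ).bad g = X.bad g := by
  show fr (fun p : X.E × Q => dev X f D₂ Q θ g p ≠ p) = fr (fun e : X.E => X.ev g e ≠ e)
  rw [ev_low X f D₂ Q θ g hg]
  rw [← fr_fst (Q := Q) (fun e : X.E => X.ev g e ≠ e)]
  congr 1
  funext p
  rw [inc_apply]
  simp [Prod.ext_iff]

theorem bad_high (D₁ : Set Λ) (hf : ∀ s, s ∉ D₁ → s ∉ D₂ → ∀ e, f (X.act s e) = f e)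
    (g : FreeGroup Λ) (hg : g ∈ words D₁ᶜ) :
    (dbl X f D₂ Q θ).bad g = X.bad g := by
  show fr (fun p : X.E × Q => dev X f D₂ Q θ g p ≠ p) = fr (fun e : X.E => X.ev g e ≠ e)
  rw [ev_high X f D₂ Q θ D₁ hf g hg]
  rw [← fr_fst (Q := Q) (fun e : X.E => X.ev g e ≠ e)]
  congr 1
  funext p
  apply propext
  rw [not_iff_not]
  rw [Equiv.Perm.mul_apply, Equiv.Perm.mul_apply, inc_apply]
  constructor
  · intro h
    have h1 := congrArg (fun q => (tw X f Q θ)⁻¹ q) h
    simp only [perm_inv_app] at h1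
    exact congrArg Prod.fst h1
  · intro h
    have h0 : ((tw X f Q θ)⁻¹ p).1 = p.1 := rfl
    rw [h0, h]
    show (tw X f Q θ) ((tw X f Q θ)⁻¹ p) = p
    rw [perm_app_inv]

omit [Fintype Q] in
theorem ev_val (D₁ : Set Λ) (hf : ∀ s, s ∉ D₁ → s ∉ D₂ → ∀ e, f (X.act s e) = f e)
    (l : List (Bool × FreeGroup Λ)) (hl : ∀ p ∈ l, p.2 ∈ Wd D₁ D₂ p.1) (e : X.E) (y : Q) :
    dev X f D₂ Q θ (val l) (e, y) =
      (X.ev (val l) e, θ (FreeGroup.mk (pw X f l e)) * y) := by
  induction l with
  | nil =>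
    have h1 : (FreeGroup.mk (pw X f [] e)) = 1 := rfl
    rw [h1, val_nil]
    simp
  | cons p l ih =>
    obtain ⟨b, x⟩ := p
    have ih' := ih (fun q hq => hl q (List.mem_cons_of_mem _ hq))
    have hx := hl (b, x) (by simp)
    rw [val_cons, map_mul, Equiv.Perm.mul_apply, ih', map_mul, Equiv.Perm.mul_apply]
    cases b with
    | false =>
      have hx' : x ∈ words D₂ᶜ := by simpa [Wd] using hx
      rw [ev_low X f D₂ Q θ x hx', pw_false, inc_apply]
    | true =>
      have hx' : x ∈ words D₁ᶜ := by simpa [Wd] using hx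
      rw [ev_high X f D₂ Q θ D₁ hf x hx', pw_true]
      have e1 : FreeGroup.mk ((f (X.ev x (X.ev (val l) e)), true) ::
          (f (X.ev (val l) e), false) :: pw X f l e) =
          FreeGroup.of (f (X.ev x (X.ev (val l) e))) * (FreeGroup.of (f (X.ev (val l) e)))⁻¹ *
            FreeGroup.mk (pw X f l e) := by
        simp [FreeGroup.of, FreeGroup.inv_mk, FreeGroup.mul_mk, FreeGroup.invRev]
      rw [e1, map_mul, map_mul, map_inv]
      rw [Equiv.Perm.mul_apply, Equiv.Perm.mul_apply, tw_inv_apply, inc_apply, tw_apply]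
      simp only [mul_assoc]

end Dbl

end KeyAux

open KeyAux in
/-- the doubling lemma -/
theorem stKey (hF : StFree) : StKey := by
  classical
  intro Λ R₁ R₂ D₁ D₂ hD hR₁ hR₂ hC F ε hε
  have hdec : ∀ u : FreeGroup Λ, u ∉ mag (R₁ ∪ R₂) D₂ᶜ →
    ∃ (l : List (Bool × FreeGroup Λ)) (k : ℕ),
      (∃ n : FreeGroup Λ, u = val l * n ∧ ∀ (X : FSet Λ) (ε : ℝ), 0 ≤ ε →
        (∀ r ∈ R₁ ∪ R₂, X.bad r ≤ ε) → X.bad n ≤ k * ε) ∧
      (∀ p ∈ l, p.2 ∈ Wd D₁ D₂ p.1) ∧
      (∀ p ∈ l, p.2 ∉ mag (Rr R₁ R₂ p.1) (D₁ ∪ D₂)ᶜ) ∧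
      l.IsChain (fun p q => p.1 ≠ q.1) ∧ ∃ p ∈ l, p.1 = true := by
    intro u hu
    obtain ⟨l, n, hn, h1, h2, h3, h4, h5⟩ := decomp hD R₁ R₂ u hu
    obtain ⟨k, hk⟩ := bad_normal (R₁ ∪ R₂) n hn
    exact ⟨l, k, ⟨n, h1, hk⟩, h2, h3, h4, h5⟩
  choose! l k hlk hW hM hch htr using hdec
  set K : ℕ := ∑ u ∈ F, (k u + (l u).length) with hK
  have hKle : ∀ u ∈ F, k u + (l u).length ≤ K := fun u hu =>
    Finset.single_le_sum (f := fun u => k u + (l u).length) (fun _ _ => Nat.zero_le _) hu
  set ε' : ℝ := ε / (K + 1) with hε'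
  have hε'pos : 0 < ε' := by positivity
  have hKε : ∀ m : ℕ, m ≤ K → (m : ℝ) * ε' ≤ ε := by
    intro m hm
    have h1 : (m : ℝ) ≤ K + 1 := by
      have : (m : ℝ) ≤ K := by exact_mod_cast hm
      linarith
    calc (m : ℝ) * ε' ≤ (K + 1) * ε' := mul_le_mul_of_nonneg_right h1 hε'pos.le
      _ = ε := by rw [hε']; field_simp
  have h1K : ε' ≤ ε := by
    rw [hε']
    apply div_le_self hε.le
    have : (0 : ℝ) ≤ K := Nat.cast_nonneg _
    linarith
  set F' : Finset (FreeGroup Λ) := F.biUnion (fun u => ((l u).map Prod.snd).toFinset) with hF'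
  obtain ⟨X, B, f, hbad, hf, hlow, hhigh⟩ := hC F' ε' hε'pos
  -- the words which must survive
  set FW : Finset (FreeGroup B) :=
    ((F ×ˢ (Finset.univ : Finset X.E)).image
      (fun p => FreeGroup.mk (pw X f (l p.1) p.2))).filter (fun w => w ≠ 1) with hFW
  obtain ⟨Q, hQg, hQf, θ, hθ⟩ := hF B FW (by intro u hu; exact (Finset.mem_filter.1 hu).2)
  let _ : Fintype Q := Fintype.ofFinite Q
  have hbad' : ∀ r ∈ R₁ ∪ R₂, (dbl X f D₂ Q θ).bad r ≤ ε' := by
    intro r hr
    rcases hr with hr | hr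
    · rw [bad_low X f D₂ Q θ r (hR₁ hr)]
      exact hbad r (Or.inl hr)
    · rw [bad_high X f D₂ Q θ D₁ hf r (hR₂ hr)]
      exact hbad r (Or.inr hr)
  refine ⟨dbl X f D₂ Q θ, Q, fun p => p.2, fun r hr => (hbad' r hr).trans h1K, ?_, ?_⟩
  · intro t ht p
    have ht' : t ∉ D₂ := ht
    show (dact X f D₂ Q θ t p).2 = p.2
    rw [dact_neg X f D₂ Q θ ht']
    rfl
  · intro u huF hu
    obtain ⟨n, hun, hn⟩ := hlk u hu
    have hn' := hn (dbl X f D₂ Q θ) ε' hε'pos.le hbad'
    have hfr := fr_not_Chg X f ε' (l u) (by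
      intro p hp
      have hpF' : p.2 ∈ F' := by
        rw [hF', Finset.mem_biUnion]
        exact ⟨u, huF, List.mem_toFinset.2 (List.mem_map_of_mem hp)⟩
      have h1 := hW u hu p hp
      have h2 := hM u hu p hp
      obtain ⟨b, x⟩ := p
      cases b with
      | false => exact hlow x hpF' (by simpa [Wd] using h1) (by simpa [Rr] using h2)
      | true => exact hhigh x hpF' (by simpa [Wd] using h1) (by simpa [Rr] using h2))
    show fr (fun p : X.E × Q => (dev X f D₂ Q θ u p).2 = p.2) ≤ ε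
    have hn'' : fr (fun p : X.E × Q => dev X f D₂ Q θ n p ≠ p) ≤ k u * ε' := hn'
    have hstep : fr (fun p : X.E × Q => (dev X f D₂ Q θ u p).2 = p.2) ≤
        fr (fun p : X.E × Q => dev X f D₂ Q θ n p ≠ p) +
        fr (fun p : X.E × Q => ¬ Chg X f (l u) p.1) := by
      refine le_trans (fr_mono ?_) (fr_or _ _)
      intro p hp
      by_cases hnp : dev X f D₂ Q θ n p = p
      · right
        intro hChg
        rw [hun, map_mul, Equiv.Perm.mul_apply, hnp] at hp
        have hw1 := pw_ne_one X f p.1 (l u) hChg (hch u hu) (htr u hu)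
        have hwmem : FreeGroup.mk (pw X f (l u) p.1) ∈ FW := by
          rw [hFW, Finset.mem_filter]
          refine ⟨Finset.mem_image.2 ⟨(u, p.1), ?_, rfl⟩, hw1⟩
          exact Finset.mem_product.2 ⟨huF, Finset.mem_univ _⟩
        have hθ1 := hθ _ hwmem
        have hev := ev_val X f D₂ Q θ D₁ hf (l u) (hW u hu) p.1 p.2
        have hp2 : (dev X f D₂ Q θ (val (l u)) (p.1, p.2)).2 = p.2 := hp
        rw [hev] at hp2
        apply hθ1
        have : θ (FreeGroup.mk (pw X f (l u) p.1)) * p.2 = p.2 := hp2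
        exact mul_eq_right.1 this
      · left; exact hnp
    have hfst := fr_fst (Q := Q) (fun e : X.E => ¬ Chg X f (l u) e)
    rw [hfst] at hstep
    have h5 : ((k u + (l u).length : ℕ) : ℝ) * ε' ≤ ε := hKε _ (hKle u huF)
    push_cast at h5
    refine hstep.trans ?_
    linarith

end Pool07903c
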