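import Pool.Agent.Lib.MP_07903c_al.Basic
import Pool.Agent.Lib.MP_07903c_al.Amalg

/-!
# MP_07903c_al, module Trans: transfer from the infinite cyclic cover
-/

namespace Pool07903c

namespace Tower

variable {Λ : Type}

/-- total variation of the height along a word -/
def wt (χ : Λ → ℤ) : List (Λ × Bool) → ℕ
  | [] => 0
  | (a, _) :: L => (χ a).natAbs + wt χ L

theorem ht_abs_le (χ : Λ → ℤ) (L : List (Λ × Bool)) : |ht χ L| ≤ wt χ L := by
  induction L with
  | nil => simp [ht, wt]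
  | cons p L ih =>
    obtain ⟨a, b⟩ := p
    have h1 : |(if b then χ a else - χ a)| = ((χ a).natAbs : ℤ) := by
      cases b <;> simp
    calc |ht χ ((a, b) :: L)| = |(if b then χ a else - χ a) + ht χ L| := rfl
      _ ≤ |(if b then χ a else - χ a)| + |ht χ L| := abs_add_le _ _
      _ ≤ ((χ a).natAbs : ℤ) + wt χ L := by rw [h1]; linarith
      _ = (wt χ ((a, b) :: L) : ℕ) := by simp [wt]

/-- the `Λ`-set over the cyclic cover -/
@[reducible] def tower (X : FSet (Λ × ℤ)) (χ : Λ → ℤ) (n : ℕ) : FSet Λ where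
  E := X.E × ZMod (n + 1)
  act a :=
    { toFun := fun p => (X.act (a, (p.2.val : ℤ)) p.1, p.2 + (χ a : ZMod (n + 1)))
      invFun := fun p => ((X.act (a, ((p.2 - (χ a : ZMod (n + 1))).val : ℤ))).symm p.1,
        p.2 - (χ a : ZMod (n + 1)))
      left_inv := by
        rintro ⟨e, j⟩
        simp
      right_inv := by
        rintro ⟨e, j⟩
        simp }

theorem tower_act (X : FSet (Λ × ℤ)) (χ : Λ → ℤ) (n : ℕ) (a : Λ) (e : X.E) (j : ZMod (n + 1)) :
    (tower X χ n).act a (e, j) = (X.act (a, (j.val : ℤ)) e, j + (χ a : ZMod (n + 1))) := rfl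


theorem val_cast (n : ℕ) (i : ℤ) (h0 : 0 ≤ i) (h1 : i < n + 1) :
    (((i : ZMod (n + 1)).val : ℕ) : ℤ) = i := by
  rw [ZMod.val_intCast]
  apply Int.emod_eq_of_lt h0
  push_cast
  exact h1

/-- away from the ends the words act as the refined words -/
theorem tower_ev (X : FSet (Λ × ℤ)) (χ : Λ → ℤ) (n : ℕ) (M : List (Λ × Bool)) (j : ℤ)
    (h0 : (wt χ M : ℤ) ≤ j) (h1 : j + wt χ M < n + 1) (e : X.E) :
    (tower X χ n).ev (FreeGroup.mk M) (e, ((j : ℤ) : ZMod (n + 1))) =
      (X.ev (FreeGroup.mk (rw χ M j)) e, ((j + ht χ M : ℤ) : ZMod (n + 1))) := by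
  induction M with
  | nil =>
    have h2 : (FreeGroup.mk ([] : List (Λ × Bool))) = 1 := rfl
    have h3 : (FreeGroup.mk ([] : List ((Λ × ℤ) × Bool))) = 1 := rfl
    simp only [rw, ht, add_zero, h2, h3, map_one]
    rfl
  | cons p M ih =>
    obtain ⟨a, b⟩ := p
    have hw : ((wt χ ((a, b) :: M) : ℕ) : ℤ) = ((χ a).natAbs : ℤ) + wt χ M := by
      simp [wt]
    have ha0 : (0 : ℤ) ≤ ((χ a).natAbs : ℤ) := by positivity
    have ha1 : χ a ≤ ((χ a).natAbs : ℤ) := by omega
    have ha2 : - ((χ a).natAbs : ℤ) ≤ χ a := by omega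
    rw [hw] at h0 h1
    have ih' := ih (by linarith) (by linarith)
    have hht := abs_le.1 (ht_abs_le χ M)
    rw [FSet.ev_cons, Equiv.Perm.mul_apply, ih']
    cases b
    · -- inverse letter
      have hl : rw χ ((a, false) :: M) j = ((a, j + ht χ M - χ a), false) :: rw χ M j := rfl
      have hh : ht χ ((a, false) :: M) = - χ a + ht χ M := rfl
      have hv := val_cast n (j + ht χ M - χ a) (by linarith) (by linarith)
      rw [hl, hh, FSet.ev_cons, Equiv.Perm.mul_apply]
      simp only [Bool.false_eq_true, if_false]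
      have h3 : ((j + (-χ a + ht χ M) : ℤ) : ZMod (n + 1)) =
          ((j + ht χ M - χ a : ℤ) : ZMod (n + 1)) := by
        congr 1; ring
      rw [h3, Equiv.Perm.inv_eq_iff_eq, tower_act, hv]
      apply Prod.ext
      · simp
      · simp
    · have hl : rw χ ((a, true) :: M) j = ((a, j + ht χ M), true) :: rw χ M j := rfl
      have hh : ht χ ((a, true) :: M) = χ a + ht χ M := rfl
      have hv := val_cast n (j + ht χ M) (by linarith) (by linarith)
      rw [hl, hh, FSet.ev_cons, Equiv.Perm.mul_apply]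
      simp only [if_true]
      rw [tower_act, hv]
      apply Prod.ext
      · simp
      · simp only
        push_cast
        ring

/-- the bad levels -/
def BadLev (n K : ℕ) (j : ZMod (n + 1)) : Prop := ¬ (K ≤ j.val ∧ j.val + K < n + 1)

theorem fr_badLev (n K : ℕ) : fr (BadLev n K) ≤ 2 * K / (n + 1) := by
  classical
  rw [fr_eq_card, ZMod.card]
  push_cast
  apply div_le_div_of_nonneg_right _ (by positivity)
  have h : ((Finset.univ.filter (BadLev n K)).image (fun j => j.val)) ⊆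
      Finset.range K ∪ (Finset.Ico (n + 1 - K) (n + 1)) := by
    intro i hi
    rw [Finset.mem_image] at hi
    obtain ⟨j, hj, rfl⟩ := hi
    have h1 := (Finset.mem_filter.1 hj).2
    have h2 := ZMod.val_lt j
    unfold BadLev at h1
    rw [Finset.mem_union, Finset.mem_range, Finset.mem_Ico]
    by_contra hc
    apply h1
    push Not at hc
    omega
  have h2 : (Finset.univ.filter (BadLev n K)).card ≤ 2 * K := by
    rw [← Finset.card_image_of_injective _ (ZMod.val_injective (n + 1))]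
    refine (Finset.card_le_card h).trans ((Finset.card_union_le _ _).trans ?_)
    rw [Finset.card_range, Nat.card_Ico]
    omega
  exact_mod_cast h2

theorem tower_fr (X : FSet (Λ × ℤ)) (n K : ℕ) (P : X.E × ZMod (n + 1) → Prop) (c : ℝ)
    (hc : 0 ≤ c) (h : ∀ j : ℕ, K ≤ j → j + K < n + 1 →
      fr (fun e => P (e, ((j : ℕ) : ZMod (n + 1)))) ≤ c) :
    fr P ≤ c + 2 * K / (n + 1) := by
  refine (fr_le_of_fiber_add (J := BadLev n K) hc ?_).trans (by linarith [fr_badLev n K])
  intro y hy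
  unfold BadLev at hy
  push Not at hy
  have := h y.val hy.1 hy.2
  rwa [ZMod.natCast_zmod_val] at this

theorem tower_bad (X : FSet (Λ × ℤ)) (χ : Λ → ℤ) (n : ℕ) (L : List (Λ × Bool)) (hL : ht χ L = 0)
    (c : ℝ) (hc : 0 ≤ c) (h : ∀ j : ℕ, j < n + 1 → X.bad (FreeGroup.mk (rw χ L j)) ≤ c) :
    (tower X χ n).bad (FreeGroup.mk L) ≤ c + 2 * (wt χ L : ℝ) / (n + 1) := by
  apply tower_fr X n (wt χ L) _ c hc
  intro j h0 h1
  refine le_trans (fr_mono ?_) (h j (by omega))
  intro e he hc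
  apply he
  have := tower_ev X χ n L j (by exact_mod_cast h0) (by exact_mod_cast h1) e
  rw [hL, add_zero, hc] at this
  simpa using this

/-- the projection of the cover to the base -/
noncomputable def pr : FreeGroup (Λ × ℤ) →* FreeGroup Λ := FreeGroup.map Prod.fst

theorem pr_mk_rw (χ : Λ → ℤ) (M : List (Λ × Bool)) (j : ℤ) :
    pr (FreeGroup.mk (rw χ M j)) = FreeGroup.mk M := by
  unfold pr
  rw [FreeGroup.map.mk]
  congr 1
  induction M with
  | nil => rfl
  | cons p M ih =>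
    obtain ⟨a, b⟩ := p
    simp only [rw, List.map_cons, ih]

theorem pr_mag (χ : Λ → ℤ) (L : List (Λ × Bool)) (x : Λ) (S : Set ℕ) (u : FreeGroup (Λ × ℤ))
    (hu : u ∈ mag ((fun j : ℕ => FreeGroup.mk (rw χ L j)) '' S) {p : Λ × ℤ | p.1 ≠ x}) :
    pr u ∈ mag {FreeGroup.mk L} ({x}ᶜ : Set Λ) := by
  obtain ⟨v, hv, ρ, hρ, rfl⟩ := mem_mag.1 hu
  rw [map_mul]
  refine mem_mag.2 ⟨pr v, ?_, pr ρ, ?_, rfl⟩
  · revert v
    intro v hv hu
    clear hu
    revert v
    apply words_induction
    · simp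
    · intro a ha
      have : pr (FreeGroup.of a) = FreeGroup.of a.1 := by simp [pr]
      rw [this]
      exact Subgroup.subset_closure ⟨a.1, by simpa using ha, rfl⟩
    · intro u v hu hv
      rw [map_mul]; exact Subgroup.mul_mem _ hu hv
    · intro u hu
      rw [map_inv]; exact Subgroup.inv_mem _ hu
  · have h : Subgroup.normalClosure ((fun j : ℕ => FreeGroup.mk (rw χ L j)) '' S) ≤
      (Subgroup.normalClosure {FreeGroup.mk L}).comap pr := by
      apply Subgroup.normalClosure_le_normal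
      rintro _ ⟨j, _, rfl⟩
      show pr (FreeGroup.mk (rw χ L j)) ∈ Subgroup.normalClosure {FreeGroup.mk L}
      rw [pr_mk_rw]
      exact Subgroup.subset_normalClosure rfl
    exact h hρ

theorem exists_n (K : ℕ) (ε : ℝ) (hε : 0 < ε) : ∃ n : ℕ, 2 * (K : ℝ) / (n + 1) ≤ ε := by
  obtain ⟨n, hn⟩ := exists_nat_gt (2 * (K : ℝ) / ε)
  refine ⟨n, ?_⟩
  rw [div_le_iff₀ (by positivity)]
  rw [div_lt_iff₀ hε] at hn
  nlinarith

end Tower

open Tower in
theorem stTransExt : StTransExt := by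
  classical
  intro Λ L χ x hL h δ hδ
  obtain ⟨n, hn⟩ := exists_n (wt χ L) (δ / 2) (by positivity)
  obtain ⟨I, hI1, hI2, Z₀, hZ₀⟩ := h (n + 1) (δ / 2) (by positivity)
  refine ⟨I, hI1, hI2, tower Z₀ χ n, ?_⟩
  intro E
  let E' : FSet (Λ × ℤ) := { E := E.E, act := fun p => E.act p.1 }
  obtain ⟨π', hπ', hr⟩ := hZ₀ E'
  let W : FSet (Λ × ℤ) := ((E'.pow I).prod Z₀).withAct π'
  let φ : ((I → E.E) × Z₀.E) × ZMod (n + 1) ≃ (I → E.E) × (Z₀.E × ZMod (n + 1)) :=
    Equiv.prodAssoc _ _ _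
  let act1 : Λ → Equiv.Perm (((I → E.E) × Z₀.E) × ZMod (n + 1)) := (tower W χ n).act
  let π : Λ → Equiv.Perm ((I → E.E) × (Z₀.E × ZMod (n + 1))) := fun a => φ.permCongr (act1 a)
  refine ⟨π, ?_, ?_⟩
  · intro s hs
    apply Equiv.ext
    rintro ⟨e, z, j⟩
    have h1 : π s (e, z, j) = φ (act1 s ((e, z), j)) := rfl
    have h2 : act1 s ((e, z), j) = (π' (s, (j.val : ℤ)) (e, z), j + (χ s : ZMod (n + 1))) := rfl
    have h3 : π' (s, (j.val : ℤ)) = ((E'.pow I).prod Z₀).act (s, (j.val : ℤ)) :=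
      hπ' (s, (j.val : ℤ)) (by simpa using hs)
    refine h1.trans ?_
    rw [h2, h3]
    rfl
  · intro r hr'
    rw [Set.mem_singleton_iff] at hr'
    subst hr'
    have h1 : (tower W χ n).bad (FreeGroup.mk L) ≤ δ / 2 + 2 * (wt χ L : ℝ) / (n + 1) := by
      apply tower_bad W χ n L hL _ (by positivity)
      intro j hj
      exact hr _ ⟨j, hj, rfl⟩
    have h2 := Amalg.bad_conj (tower W χ n)
      (((E.pow I).prod (tower Z₀ χ n)).withAct π) φ Set.univ
      (by
        intro s _ e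
        exact congrArg (fun z => φ (act1 s z)) (φ.symm_apply_apply e).symm) (u := FreeGroup.mk L) (by rw [words_univ]; trivial)
    rw [← h2]
    linarith

open Tower in
theorem stTransSep : StTransSep := by
  classical
  intro Λ L χ x hL h F ε hε
  let K : ℕ := wt χ L + ∑ u ∈ F, wt χ u.toWord
  obtain ⟨n, hn⟩ := exists_n K (ε / 2) (by positivity)
  let F' : Finset (FreeGroup (Λ × ℤ)) :=
    (F ×ˢ Finset.range (n + 1)).image (fun p => FreeGroup.mk (rw χ p.1.toWord (p.2 : ℤ)))
  obtain ⟨X, B, f, hX, hf, hF⟩ := h (n + 1) F' (ε / 2) (by positivity)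
  refine ⟨tower X χ n, B, fun p => f p.1, ?_, ?_, ?_⟩
  · intro r hr
    rw [Set.mem_singleton_iff] at hr
    subst hr
    have h1 : (tower X χ n).bad (FreeGroup.mk L) ≤ ε / 2 + 2 * (wt χ L : ℝ) / (n + 1) := by
      apply tower_bad X χ n L hL _ (by positivity)
      intro j hj
      exact hX _ ⟨j, hj, rfl⟩
    have h2 : 2 * (wt χ L : ℝ) / (n + 1) ≤ 2 * (K : ℝ) / (n + 1) := by
      apply div_le_div_of_nonneg_right _ (by positivity)
      have : (wt χ L : ℝ) ≤ K := by
        exact_mod_cast Nat.le_add_right _ _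
      linarith
    linarith
  · rintro t ht ⟨e, j⟩
    exact hf (t, (j.val : ℤ)) ht e
  · intro u hu hmag
    have hwu : wt χ u.toWord ≤ K := by
      have : wt χ u.toWord ≤ ∑ u ∈ F, wt χ u.toWord :=
        Finset.single_le_sum (f := fun u : FreeGroup Λ => wt χ u.toWord)
          (fun _ _ => Nat.zero_le _) hu
      omega
    refine (tower_fr X n K
      (fun p => f ((tower X χ n).ev u p).1 = f p.1) (ε / 2) (by positivity) ?_).trans (by linarith)
    intro j h0 h1
    have hmem : FreeGroup.mk (rw χ u.toWord (j : ℤ)) ∈ F' :=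
      Finset.mem_image.2 ⟨(u, j), Finset.mem_product.2 ⟨hu, Finset.mem_range.2 (by omega)⟩, rfl⟩
    refine le_trans (fr_mono ?_) (hF _ hmem ?_)
    · intro e he
      have h2 := tower_ev X χ n u.toWord (j : ℤ) (by exact_mod_cast hwu.trans h0)
        (by have : j + wt χ u.toWord < n + 1 := by omega
            exact_mod_cast this) e
      rw [FreeGroup.mk_toWord] at h2
      have h3 : (((j : ℕ) : ℤ) : ZMod (n + 1)) = ((j : ℕ) : ZMod (n + 1)) := by simp
      rw [h3] at h2
      rw [h2] at he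
      exact he
    · intro hc
      apply hmag
      have := pr_mag χ L x _ _ hc
      rwa [pr_mk_rw, FreeGroup.mk_toWord] at this

theorem stTrans : StTransExt ∧ StTransSep := ⟨stTransExt, stTransSep⟩

end Pool07903c
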