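import Pool.Agent.Lib.MP_07903c_al.Assembly
import Pool.Agent.Lib.MP_07903c_al.Amalg
import Pool.Agent.Lib.MP_07903c_al.Trans
import Pool.Agent.Lib.MP_07903c_al.Comb
import Pool.Agent.Lib.MP_07903c_al.Base
import Pool.Agent.Lib.MP_07903c_al.Key
import Pool.Agent.Lib.MP_07903c_al.Chain
import Pool.Agent.Lib.MP_07903c_al.Free
import Pool.Agent.Lib.MP_07903c_al.Sofic
import Pool.Agent.Lib.MP_07903c_al.Hyper

/-!
# MP_07903c_al: every one-relator group is sofic and hyperlinear

The modules give the unproved statements of `Spec` one after the other:

* `stFree`: free groups are residually finite;
* `stKey`: the doubling lemma (Burnside moves);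
* `stAmalg`: amalgamation of extension properties;
* `stChain`: chains of relators, by induction from `stKey` and `stAmalg`;
* `stTransExt`, `stTransSep`: transfer from the infinite cyclic cover;
* `stBase`: relators which are powers of a primitive element;
* `stComb`: every other relator gets a cover in which it is simpler;
* `stMain`: the induction, `stSofic`: from the induction to soficity, `stHyper`: sofic groups are
  hyperlinear.
-/

namespace Pool07903c

/-- for every cyclically reduced word `L` and every letter `x` of it, the relator `L` has the
extension property and the separation property for the letters other than `x` -/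
theorem mainThm : StMain :=
  stMain (stBase (stKey stFree) stFree) stComb (stChain (stKey stFree) stAmalg stFree)
    stTransExt stTransSep

/-- every one-relator group is sofic -/
theorem sofic_oneRel {Λ : Type} (r : FreeGroup Λ) :
    IsSofic (PresentedGroup ({r} : Set (FreeGroup Λ))) :=
  sofic_of mainThm (stSofic stFree) r

/-- every one-relator group is hyperlinear -/
theorem hyperlinear_oneRel {Λ : Type} (r : FreeGroup Λ) :
    IsHyperlinear (PresentedGroup ({r} : Set (FreeGroup Λ))) :=
  stHyper _ (sofic_oneRel r)

end Pool07903c
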