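import Pool.Agent.Lib.MP_07903c_al.Basic

/-!
# MP_07903c_al: the main induction
-/

namespace Pool07903c

variable {Λ : Type}

theorem rw_length (χ : Λ → ℤ) (L : List (Λ × Bool)) (j : ℤ) : (rw χ L j).length = L.length := by
  induction L with
  | nil => rfl
  | cons p L ih =>
    obtain ⟨a, b⟩ := p
    simp [rw, ih]

theorem rw_map_proj (χ : Λ → ℤ) (L : List (Λ × Bool)) (j : ℤ) :
    (rw χ L j).map (fun p => (p.1.1, p.2)) = L := by
  induction L with
  | nil => rfl
  | cons p L ih =>
    obtain ⟨a, b⟩ := p
    simp [rw, ih]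

theorem rw_letters_proj (χ : Λ → ℤ) (L : List (Λ × Bool)) (j : ℤ) :
    ((rw χ L j).map Prod.fst).map Prod.fst = L.map Prod.fst := by
  conv_rhs => rw [← rw_map_proj χ L j]
  simp [List.map_map, Function.comp_def]

theorem rw_shift (χ : Λ → ℤ) (L : List (Λ × Bool)) (j : ℤ) :
    (rw χ L j).map Prod.fst = ((rw χ L 0).map Prod.fst).map (fun p => (p.1, p.2 + j)) := by
  induction L with
  | nil => rfl
  | cons p L ih =>
    obtain ⟨a, b⟩ := p
    simp only [rw, List.map_cons, ih]
    congr 1
    cases b
    · simp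
      ring
    · simp
      ring

theorem rw_isCyclicallyReduced (χ : Λ → ℤ) (L : List (Λ × Bool)) (j : ℤ)
    (h : FreeGroup.IsCyclicallyReduced L) : FreeGroup.IsCyclicallyReduced (rw χ L j) := by
  rw [FreeGroup.isCyclicallyReduced_iff] at h ⊢
  obtain ⟨h1, h2⟩ := h
  constructor
  · unfold FreeGroup.IsReduced at h1 ⊢
    rw [← rw_map_proj χ L j, List.isChain_map] at h1
    refine h1.imp ?_
    intro a b hab h
    exact hab (by rw [h])
  · intro a ha b hb hab
    rw [← rw_map_proj χ L j] at h2
    have := h2 (a.1.1, a.2) (by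
      rw [List.getLast?_map]
      rw [Option.mem_def] at ha ⊢
      rw [ha]; rfl) (b.1.1, b.2) (by
      rw [List.head?_map]
      rw [Option.mem_def] at hb ⊢
      rw [hb]; rfl)
    exact this (by rw [hab])

open Classical in
theorem cpx_rw_lt (χ : Λ → ℤ) (L : List (Λ × Bool)) (j : ℤ) (h : Splits χ L) :
    cpx (rw χ L j) < cpx L := by
  set A := (rw χ L 0).map Prod.fst with hA
  have hcard : ((rw χ L j).map Prod.fst).toFinset.card = A.toFinset.card := by
    have h0 : ((rw χ L j).map Prod.fst).toFinset =
        A.toFinset.image (fun p => (p.1, p.2 + j)) := by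
      rw [rw_shift χ L j]
      ext q
      simp only [hA, List.mem_toFinset, List.mem_map, Finset.mem_image]
    rw [h0]
    apply Finset.card_image_of_injective
    intro p q hpq
    simp only [Prod.mk.injEq] at hpq
    exact Prod.ext hpq.1 (by linarith [hpq.2])
  have himg : A.toFinset.image Prod.fst = (L.map Prod.fst).toFinset := by
    rw [← rw_letters_proj χ L 0]
    ext q
    simp only [hA, List.mem_toFinset, List.mem_map, Finset.mem_image]
  have hlt : (L.map Prod.fst).toFinset.card < A.toFinset.card := by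
    rw [← himg]
    apply lt_of_le_of_ne Finset.card_image_le
    intro hEq
    rw [Finset.card_image_iff] at hEq
    obtain ⟨p, hp, q, hq, h1, h2⟩ := h
    have := hEq (List.mem_toFinset.2 hp) (List.mem_toFinset.2 hq) h1
    exact h2 (by rw [this])
  have hle : A.toFinset.card ≤ L.length := by
    have := List.toFinset_card_le A
    rw [hA, List.length_map, rw_length] at this
    exact this
  have hinst : ∀ (i₁ i₂ : DecidableEq (Λ × ℤ)) (l : List (Λ × ℤ)),
      L.length - (@List.toFinset _ i₁ l).card = L.length - (@List.toFinset _ i₂ l).card := by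
    intro i₁ i₂ l
    rw [Subsingleton.elim i₁ i₂]
  have h5 : cpx (rw χ L j) = L.length - A.toFinset.card := by
    unfold cpx
    rw [rw_length, ← hcard]
    exact hinst _ _ _
  have h6 : cpx L = L.length - (L.map Prod.fst).toFinset.card := rfl
  omega

theorem mk_mem_words {S : Set Λ} (L : List (Λ × Bool)) (h : ∀ p ∈ L, p.1 ∈ S) :
    FreeGroup.mk L ∈ words S := by
  induction L with
  | nil => exact Subgroup.one_mem _
  | cons p L ih =>
    obtain ⟨a, b⟩ := p
    have h1 : FreeGroup.mk ((a, b) :: L) = FreeGroup.mk [(a, b)] * FreeGroup.mk L := by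
      rw [FreeGroup.mul_mk]; rfl
    rw [h1]
    apply Subgroup.mul_mem
    · have ha : FreeGroup.of a ∈ words S :=
        Subgroup.subset_closure ⟨a, h (a, b) (by simp), rfl⟩
      cases b
      · have : (FreeGroup.mk [(a, false)]) = (FreeGroup.of a)⁻¹ := by
          simp [FreeGroup.of, FreeGroup.inv_mk, FreeGroup.invRev]
        rw [this]
        exact Subgroup.inv_mem _ ha
      · exact ha
    · exact ih (fun p hp => h p (by simp [hp]))

theorem stMain (hB : StBase) (hC : StComb) (hCh : StChain) (hE : StTransExt)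
    (hS : StTransSep) : StMain := by
  have key : ∀ n : ℕ, ∀ (Λ : Type) (L : List (Λ × Bool)) (x : Λ), cpx L = n →
      FreeGroup.IsCyclicallyReduced L → x ∈ L.map Prod.fst → CL (FreeGroup.mk L) x := by
    intro n
    induction n using Nat.strong_induction_on with
    | _ n ih =>
    intro Λ L x hn hL hx
    rcases hC Λ L x hL hx with h | ⟨χ, hχ, hsplit⟩
    · exact hB Λ _ x h
    classical
    -- levels of `x`
    set A := (rw χ L 0).map Prod.fst with hA
    set lev : Finset ℤ := (A.toFinset.filter (fun p => p.1 = x)).image Prod.snd with hlev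
    have hmem : ∀ k : ℤ, k ∈ lev ↔ (x, k) ∈ A := by
      intro k
      simp [hlev]
    have hne : lev.Nonempty := by
      have h1 : x ∈ A.map Prod.fst := by
        rw [hA, rw_letters_proj]; exact hx
      obtain ⟨p, hp, hpx⟩ := List.mem_map.1 h1
      refine ⟨p.2, (hmem p.2).2 ?_⟩
      rw [← hpx]; exact hp
    set hi := lev.max' hne with hhi
    set lo := lev.min' hne with hlo
    have hlohi : lo ≤ hi := Finset.min'_le_max' lev hne
    have hletter : ∀ (j : ℤ) (p : Λ × ℤ), p ∈ (rw χ L j).map Prod.fst ↔ (p.1, p.2 - j) ∈ A := by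
      intro j p
      rw [rw_shift χ L j, List.mem_map]
      constructor
      · rintro ⟨q, hq, rfl⟩
        have : (q.1, q.2 + j - j) = q := by simp
        show (q.1, q.2 + j - j) ∈ A
        rw [this]; exact hq
      · intro h
        exact ⟨_, h, by simp⟩
    have hup : ∀ (j k : ℤ), (x, k) ∈ (rw χ L j).map Prod.fst → k ≤ hi + j := by
      intro j k hk
      have h1 : (x, k - j) ∈ A := (hletter j (x, k)).1 hk
      have h2 := Finset.le_max' lev _ ((hmem _).2 h1)
      linarith
    have hdown : ∀ (j k : ℤ), (x, k) ∈ (rw χ L j).map Prod.fst → lo + j ≤ k := by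
      intro j k hk
      have h1 : (x, k - j) ∈ A := (hletter j (x, k)).1 hk
      have h2 := Finset.min'_le lev _ ((hmem _).2 h1)
      linarith
    have hξ : ∀ j : ℤ, (x, hi + j) ∈ (rw χ L j).map Prod.fst := by
      intro j
      rw [hletter]
      have := (hmem hi).1 (Finset.max'_mem lev hne)
      simpa using this
    have hη : ∀ j : ℤ, (x, lo + j) ∈ (rw χ L j).map Prod.fst := by
      intro j
      rw [hletter]
      have := (hmem lo).1 (Finset.min'_mem lev hne)
      simpa using this
    have hlt : ∀ j : ℤ, cpx (rw χ L j) < n := fun j => hn ▸ cpx_rw_lt χ L j hsplit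
    have hchain := hCh (Λ × ℤ)
    have hall : ∀ N : ℕ,
        Ext ((fun j : ℕ => FreeGroup.mk (rw χ L j)) '' Set.Iio N) {p : Λ × ℤ | p.1 ≠ x} ∧
        Sep ((fun j : ℕ => FreeGroup.mk (rw χ L j)) '' Set.Iio N) {p : Λ × ℤ | p.1 ≠ x} := by
      intro N
      refine hchain N (fun j : ℕ => FreeGroup.mk (rw χ L j)) (fun j => (x, hi + j))
        (fun j => (x, lo + j)) ?_ ?_ ?_ ?_ ?_ _ ?_
      · intro i j hij
        apply mk_mem_words
        intro p hp hpe
        have hp1 : p.1 ∈ (rw χ L i).map Prod.fst := List.mem_map_of_mem hp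
        have hpe' : p.1 = (x, hi + (j : ℤ)) := hpe
        rw [hpe'] at hp1
        have := hup _ _ hp1
        have h3 : (i : ℤ) < j := by exact_mod_cast hij
        linarith
      · intro i j hij
        apply mk_mem_words
        intro p hp hpe
        have hp1 : p.1 ∈ (rw χ L j).map Prod.fst := List.mem_map_of_mem hp
        have hpe' : p.1 = (x, lo + (i : ℤ)) := hpe
        rw [hpe'] at hp1
        have := hdown _ _ hp1
        have h3 : (i : ℤ) < j := by exact_mod_cast hij
        linarith
      · intro i j hij h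
        have h3 : (i : ℤ) < j := by exact_mod_cast hij
        have h4 : lo + (i : ℤ) = hi + j := (Prod.ext_iff.1 h).2
        linarith
      · intro j
        exact ih _ (hlt j) (Λ × ℤ) (rw χ L j) _ rfl (rw_isCyclicallyReduced χ L j hL) (hξ j)
      · intro j
        exact ih _ (hlt j) (Λ × ℤ) (rw χ L j) _ rfl (rw_isCyclicallyReduced χ L j hL) (hη j)
      · intro j h
        exact h rfl
    exact ⟨hE Λ L χ x hχ (fun N => (hall N).1), hS Λ L χ x hχ (fun N => (hall N).2)⟩
  intro Λ L x hL hx
  exact key _ Λ L x rfl hL hx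

end Pool07903c
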